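import Mathlib

/-!
# Straight-line programs with rounding errors: definitions
-/

set_option autoImplicit false

namespace Pool.Agent.SC

open MeasureTheory

/-- The sum of a polynomial in the entries of the matrix and of a linear combination of the
results of the earlier steps. -/
structure Aff (n : ℕ) where
  p : MvPolynomial (Fin n × Fin n) ℂ
  v : ℕ → ℂ

/-- The value before step `g`; `v` is the list of the results. -/
noncomputable def Aff.ev {n : ℕ} (l : Aff n) {R : Type} [CommRing R] [Algebra ℂ R]
    (X : Fin n × Fin n → R) (g : ℕ) (v : Fin g → R) : R :=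
  MvPolynomial.aeval X l.p + ∑ a : Fin g, algebraMap ℂ R (l.v a) * v a

/-- A step: the product of two such expressions, or a linear combination of minors (of any sizes)
of the matrix `(A i j * x i j)`. -/
inductive Step (n : ℕ)
  | mul (l r : Aff n)
  | minors (A : Fin n × Fin n → ℂ) (c : (k : ℕ) → (Fin k → Fin n) → (Fin k → Fin n) → ℂ)

/-- The part of degree `k` of a linear combination of minors. -/
def mnr {n : ℕ} (A : Fin n × Fin n → ℂ) (c : (k : ℕ) → (Fin k → Fin n) → (Fin k → Fin n) → ℂ)
    {R : Type} [CommRing R] [Algebra ℂ R] (X : Fin n × Fin n → R) (k : ℕ) : R :=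
  ∑ p : Fin k → Fin n, ∑ q : Fin k → Fin n, algebraMap ℂ R (c k p q) *
    Matrix.det (Matrix.of fun a b => algebraMap ℂ R (A (p a, q b)) * X (p a, q b))

/-- A straight-line program with `s` steps. -/
structure Circuit (n : ℕ) where
  s : ℕ
  step : ℕ → Step n
  out : Aff n

/-- The polynomials that are used for free have degree at most `θ`. -/
def Circuit.Low {n : ℕ} (C : Circuit n) (θ : ℕ) : Prop :=
  C.out.p.totalDegree ≤ θ ∧ ∀ g l r, g < C.s → C.step g = .mul l r →
    l.p.totalDegree ≤ θ ∧ r.p.totalDegree ≤ θ

/-- The result of step `g` if the result of every step `a` is multiplied by `ρ a`. -/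
noncomputable def Circuit.val {n : ℕ} (C : Circuit n) {R : Type} [CommRing R] [Algebra ℂ R] (ρ : ℕ → R)
    (X : Fin n × Fin n → R) (g : ℕ) : R :=
  ρ g * match C.step g with
    | .mul l r => l.ev X g (fun a => C.val ρ X a) * r.ev X g (fun a => C.val ρ X a)
    | .minors A c => ∑ k ∈ Finset.range (n + 1), mnr A c X k
termination_by g
decreasing_by all_goals exact a.2

/-- The output. -/
noncomputable def Circuit.output {n : ℕ} (C : Circuit n) {R : Type} [CommRing R] [Algebra ℂ R] (ρ : ℕ → R)
    (X : Fin n × Fin n → R) : R :=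
  C.out.ev X C.s fun a => C.val ρ X a

/-- The first order effect on the output of a relative error in step `g`. -/
noncomputable def Circuit.err {n : ℕ} (C : Circuit n) (g : ℕ) (x : Fin n × Fin n → ℂ) : ℂ :=
  deriv (fun t : ℂ => C.output (Function.update 1 g (1 + t)) x) 0

/-- The standard complex Gaussian measure. -/
noncomputable def cgauss : Measure ℂ :=
  volume.withDensity fun z => ENNReal.ofReal (Real.pi⁻¹ * Real.exp (-‖z‖ ^ 2))

/-- The square of the norm in `L^2` of the Gaussian measure. -/
noncomputable def gsq {n : ℕ} (f : (Fin n × Fin n → ℂ) → ℂ) : ℝ :=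
  ∫ x, ‖f x‖ ^ 2 ∂(Measure.pi fun _ : Fin n × Fin n => cgauss)

/-- The permanent. -/
noncomputable def perm {n : ℕ} (x : Fin n × Fin n → ℂ) : ℂ :=
  Matrix.permanent (Matrix.of fun i j => x (i, j))

end Pool.Agent.SC
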