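import Mathlib
import Pool.Agent.SC.Model

/-!
# Auxiliary definitions and the statements of the rows
-/

set_option autoImplicit false

namespace Pool.Agent.SC

/-! ### Auxiliary definitions -/

variable {σ : Type} [Fintype σ]

/-- The factorial of a multi-index. -/
noncomputable def mf (a : σ →₀ ℕ) : ℝ := ∏ i, ((a i).factorial : ℝ)

/-- The square of the Fischer norm of a polynomial. -/
noncomputable def fn (p : MvPolynomial σ ℂ) : ℝ :=
  ∑ a ∈ p.support, mf a * ‖p.coeff a‖ ^ 2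

/-- The exponent of the product of the entries `(i, τ i)`, `i ∈ I`. -/
noncomputable def pm {n : ℕ} (τ : Equiv.Perm (Fin n)) (I : Finset (Fin n)) :
    Fin n × Fin n →₀ ℕ := ∑ i ∈ I, Finsupp.single (i, τ i) 1

/-- The sum of the coefficients of the permutation monomials: the inner product with the
permanent. -/
noncomputable def LL {n : ℕ} (p : MvPolynomial (Fin n × Fin n) ℂ) : ℂ :=
  ∑ τ : Equiv.Perm (Fin n), p.coeff (pm τ Finset.univ)

/-- The permutation of `Fin n` that permutes the elements of `I` as `α`. -/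
def ext {n : ℕ} {I : Finset (Fin n)} (α : Equiv.Perm {i // i ∈ I}) : Equiv.Perm (Fin n) :=
  Equiv.Perm.ofSubtype α

/-! ### The rows (statements) -/

/-- Row GAUSS. -/
def RowGauss : Prop := ∀ (n : ℕ) (p : MvPolynomial (Fin n × Fin n) ℂ),
  gsq (fun x => MvPolynomial.eval x p) = fn p

/-- Row BOMB (Bombieri inequality). -/
def RowBomb : Prop := ∀ (n k : ℕ) (g h : MvPolynomial (Fin n × Fin n) ℂ), g.IsHomogeneous k →
  fn g * fn h ≤ fn (g * h)

/-- Row FLAT. The hypothesis on `g` holds with `D = k!` for every `g` (Cauchy-Schwarz). -/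
def RowFlat : Prop := ∀ (n k : ℕ) (D : ℝ) (g h : MvPolynomial (Fin n × Fin n) ℂ), k ≤ n → 0 ≤ D →
  g.IsHomogeneous k →
  (∀ (I : Finset (Fin n)) (τ : Equiv.Perm (Fin n)), I.card = k →
    ‖∑ α : Equiv.Perm {i // i ∈ I}, g.coeff (pm (τ * ext α) I)‖ ^ 2 ≤
      D * ∑ α : Equiv.Perm {i // i ∈ I}, ‖g.coeff (pm (τ * ext α) I)‖ ^ 2) →
  ‖LL (g * h)‖ ^ 2 ≤ D * ((n - k).factorial : ℝ) * (fn g * fn h)

/-- Row VDW. -/
def RowVdW : Prop := ∀ (k : ℕ) (B : Matrix (Fin k) (Fin k) ℂ),
  ‖B.det‖ ^ 2 ≤ Real.exp k * Matrix.permanent (Matrix.of fun i j => ‖B i j‖ ^ 2)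

/-- Row LEAF: the coefficients of the part of degree `k` of a linear combination of minors. -/
def RowLeaf : Prop := ∀ (n k : ℕ) (A : Fin n × Fin n → ℂ)
  (c : (k : ℕ) → (Fin k → Fin n) → (Fin k → Fin n) → ℂ) (I : Finset (Fin n))
  (τ : Equiv.Perm (Fin n)), I.card = k → ∃ z : ℂ, ∀ α : Equiv.Perm {i // i ∈ I},
    (mnr A c MvPolynomial.X k : MvPolynomial (Fin n × Fin n) ℂ).coeff (pm (τ * ext α) I) =
      z * (Equiv.Perm.sign α : ℤ) * ∏ i : {i // i ∈ I}, A (i, τ (α i))

/-- The polynomial results of the steps without rounding. -/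
noncomputable def Circuit.pv {n : ℕ} (C : Circuit n) (g : ℕ) : MvPolynomial (Fin n × Fin n) ℂ :=
  C.val 1 MvPolynomial.X g

/-- The polynomial values of affine combinations at step `g`. -/
noncomputable def Circuit.pa {n : ℕ} (C : Circuit n) (l : Aff n) (g : ℕ) :
    MvPolynomial (Fin n × Fin n) ℂ :=
  l.ev MvPolynomial.X g fun a => C.pv a

/-- The property of the derivatives of the output (backpropagation). -/
def IsBack {n : ℕ} (C : Circuit n) (D : ℕ → MvPolynomial (Fin n × Fin n) ℂ) : Prop :=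
  ∀ a, a < C.s → D a = MvPolynomial.C (C.out.v a) + ∑ g ∈ Finset.Ioo a C.s,
    match C.step g with
    | .mul l r => (MvPolynomial.C (l.v a) * C.pa r g + MvPolynomial.C (r.v a) * C.pa l g) * D g
    | .minors _ _ => 0

/-- Row BACK. -/
def RowBack : Prop := ∀ (n : ℕ) (C : Circuit n), ∃ D : ℕ → MvPolynomial (Fin n × Fin n) ℂ,
  IsBack C D ∧ ∀ g, g < C.s → ∀ x, C.err g x = MvPolynomial.eval x (C.pv g * D g)

/-- The contribution of step `g` to the cut at degree `θ`. -/
noncomputable def Circuit.cut {n : ℕ} (C : Circuit n)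
    (D : ℕ → MvPolynomial (Fin n × Fin n) ℂ) (θ g : ℕ) : MvPolynomial (Fin n × Fin n) ℂ :=
  match C.step g with
  | .mul l r => ∑ i ∈ Finset.range (θ + 1), ∑ j ∈ Finset.range (θ + 1),
      if θ < i + j ∧ i + j ≤ n then (C.pa l g).homogeneousComponent i *
        (C.pa r g).homogeneousComponent j * (D g).homogeneousComponent (n - i - j) else 0
  | .minors A c => ∑ k ∈ Finset.Ioc θ n, mnr A c MvPolynomial.X k *
      (D g).homogeneousComponent (n - k)

/-- Row CUT. -/
def RowCut : Prop := ∀ (n θ : ℕ) (C : Circuit n) (D : ℕ → MvPolynomial (Fin n × Fin n) ℂ),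
  IsBack C D → C.Low θ → n ≤ 2 * θ → θ < n →
    (C.output 1 MvPolynomial.X : MvPolynomial (Fin n × Fin n) ℂ).homogeneousComponent n =
      ∑ g ∈ Finset.range C.s, C.cut D θ g

/-- Row HOM: factors of homogeneous polynomials, and polynomials of bounded growth. -/
def RowHom : Prop := (∀ (n m : ℕ) (g h : MvPolynomial (Fin n × Fin n) ℂ), g * h ≠ 0 →
    (g * h).IsHomogeneous m → ∃ i j, i + j = m ∧ g.IsHomogeneous i ∧ h.IsHomogeneous j) ∧
  ∀ (n m : ℕ) (K : ℝ) (p : MvPolynomial (Fin n × Fin n) ℂ),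
    (∀ r : ℝ, 0 < r → fn (MvPolynomial.bind₁ (fun i => MvPolynomial.C (r : ℂ) * MvPolynomial.X i) p)
      ≤ K * r ^ (2 * m)) → p.IsHomogeneous m

end Pool.Agent.SC
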