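import Mathlib
import Pool.Agent.SC.Defs

/-!
# Row BACK: backpropagation
-/

set_option autoImplicit false

namespace Pool.Agent.SC

theorem Circuit.val_mul {n : ℕ} (C : Circuit n) {R : Type} [CommRing R] [Algebra ℂ R]
    (ρ : ℕ → R) (X : Fin n × Fin n → R) {g : ℕ} {l r : Aff n} (h : C.step g = .mul l r) :
    C.val ρ X g = ρ g * (l.ev X g (fun a => C.val ρ X a) * r.ev X g (fun a => C.val ρ X a)) := by
  rw [Circuit.val, h]

theorem Circuit.val_minors {n : ℕ} (C : Circuit n) {R : Type} [CommRing R] [Algebra ℂ R]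
    (ρ : ℕ → R) (X : Fin n × Fin n → R) {g : ℕ} {A : Fin n × Fin n → ℂ}
    {c : (k : ℕ) → (Fin k → Fin n) → (Fin k → Fin n) → ℂ} (h : C.step g = .minors A c) :
    C.val ρ X g = ρ g * ∑ k ∈ Finset.range (n + 1), mnr A c X k := by
  rw [Circuit.val, h]

section map

variable {n : ℕ} {R S : Type} [CommRing R] [Algebra ℂ R] [CommRing S] [Algebra ℂ S]

theorem Aff.map_ev (l : Aff n) (φ : R →ₐ[ℂ] S) (X : Fin n × Fin n → R) (g : ℕ)
    (v : Fin g → R) : φ (l.ev X g v) = l.ev (fun i => φ (X i)) g (fun a => φ (v a)) := by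
  unfold Aff.ev
  simp only [map_add, map_sum, map_mul, AlgHom.commutes]
  rw [MvPolynomial.comp_aeval_apply]

theorem map_mnr (A : Fin n × Fin n → ℂ)
    (c : (k : ℕ) → (Fin k → Fin n) → (Fin k → Fin n) → ℂ) (φ : R →ₐ[ℂ] S)
    (X : Fin n × Fin n → R) (k : ℕ) :
    φ (mnr A c X k) = mnr A c (fun i => φ (X i)) k := by
  unfold mnr
  simp only [map_sum, map_mul, AlgHom.commutes]
  refine Finset.sum_congr rfl fun p _ => Finset.sum_congr rfl fun q _ => ?_
  congr 1
  rw [AlgHom.map_det]
  congr 1
  ext a b
  simp [AlgHom.mapMatrix_apply]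

theorem Circuit.map_val (C : Circuit n) (φ : R →ₐ[ℂ] S) (ρ : ℕ → R)
    (X : Fin n × Fin n → R) (g : ℕ) :
    φ (C.val ρ X g) = C.val (fun a => φ (ρ a)) (fun i => φ (X i)) g := by
  induction g using Nat.strong_induction_on with
  | _ g ih =>
    rcases h : C.step g with ⟨l, r⟩ | ⟨A, c⟩
    · rw [C.val_mul ρ X h, C.val_mul _ _ h, map_mul, map_mul, Aff.map_ev, Aff.map_ev]
      have h1 : (fun a : Fin g => φ (C.val ρ X a)) =
          fun a : Fin g => C.val (fun a => φ (ρ a)) (fun i => φ (X i)) a := by
        funext a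
        exact ih a a.2
      rw [h1]
    · rw [C.val_minors ρ X h, C.val_minors _ _ h, map_mul, map_sum]
      simp only [map_mnr]

end map

theorem Circuit.eval_pv {n : ℕ} (C : Circuit n) (x : Fin n × Fin n → ℂ) (g : ℕ) :
    MvPolynomial.eval x (C.pv g) = C.val 1 x g := by
  have h := C.map_val (MvPolynomial.aeval x : MvPolynomial (Fin n × Fin n) ℂ →ₐ[ℂ] ℂ) 1
    MvPolynomial.X g
  have h1 : (fun a : ℕ => (MvPolynomial.aeval x : MvPolynomial (Fin n × Fin n) ℂ →ₐ[ℂ] ℂ)
      ((1 : ℕ → MvPolynomial (Fin n × Fin n) ℂ) a)) = 1 := by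
    funext a; simp
  have h2 : (fun i : Fin n × Fin n => (MvPolynomial.aeval x :
      MvPolynomial (Fin n × Fin n) ℂ →ₐ[ℂ] ℂ) (MvPolynomial.X i)) = x := by
    funext i; simp
  rw [h1, h2] at h
  unfold Circuit.pv
  rw [← h]
  rfl

theorem Circuit.eval_pa {n : ℕ} (C : Circuit n) (l : Aff n) (x : Fin n × Fin n → ℂ) (g : ℕ) :
    MvPolynomial.eval x (C.pa l g) = l.ev x g fun a => C.val 1 x a := by
  unfold Circuit.pa Aff.ev
  simp only [map_add, map_sum, map_mul, MvPolynomial.algebraMap_eq, MvPolynomial.eval_C,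
    MvPolynomial.aeval_X_left_apply, Circuit.eval_pv, MvPolynomial.aeval_eq_eval]
  rfl

/-- Existence of the backward recursion. -/
theorem exists_back {n : ℕ} (C : Circuit n) :
    ∃ D : ℕ → MvPolynomial (Fin n × Fin n) ℂ, IsBack C D := by
  classical
  let K : ℕ → ℕ → MvPolynomial (Fin n × Fin n) ℂ := fun g a =>
    match C.step g with
    | .mul l r => (MvPolynomial.C (l.v a) * C.pa r g + MvPolynomial.C (r.v a) * C.pa l g)
    | .minors _ _ => 0
  have key : ∀ m : ℕ, ∃ D : ℕ → MvPolynomial (Fin n × Fin n) ℂ, ∀ a, a < C.s → C.s ≤ a + m →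
      D a = MvPolynomial.C (C.out.v a) + ∑ g ∈ Finset.Ioo a C.s, K g a * D g := by
    intro m
    induction m with
    | zero => exact ⟨fun _ => 0, fun a h1 h2 => by omega⟩
    | succ m ih =>
      obtain ⟨D, hD⟩ := ih
      by_cases hm : m < C.s
      · refine ⟨Function.update D (C.s - (m + 1)) (MvPolynomial.C (C.out.v (C.s - (m + 1))) +
          ∑ g ∈ Finset.Ioo (C.s - (m + 1)) C.s, K g (C.s - (m + 1)) * D g), ?_⟩
        intro a h1 h2
        have hsum : ∑ g ∈ Finset.Ioo a C.s, K g a * Function.update D (C.s - (m + 1))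
            (MvPolynomial.C (C.out.v (C.s - (m + 1))) +
              ∑ g ∈ Finset.Ioo (C.s - (m + 1)) C.s, K g (C.s - (m + 1)) * D g) g =
            ∑ g ∈ Finset.Ioo a C.s, K g a * D g := by
          refine Finset.sum_congr rfl fun g hg => ?_
          rw [Finset.mem_Ioo] at hg
          rw [Function.update_of_ne (by omega)]
        rw [hsum]
        by_cases h : a = C.s - (m + 1)
        · rw [h, Function.update_self]
        · rw [Function.update_of_ne h]
          exact hD a h1 (by omega)
      · exact ⟨D, fun a h1 h2 => hD a h1 (by omega)⟩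
  obtain ⟨D, hD⟩ := key C.s
  refine ⟨D, fun a ha => ?_⟩
  rw [hD a ha (by omega)]
  congr 1
  refine Finset.sum_congr rfl fun g _ => ?_
  simp only [K]
  rcases C.step g with ⟨l, r⟩ | ⟨A, c⟩
  · rfl
  · simp

theorem rowBack : RowBack := by
  classical
  intro n C
  obtain ⟨D, hD⟩ := exists_back C
  refine ⟨D, hD, ?_⟩
  intro g hg x
  let v : ℕ → ℂ → ℂ := fun a t => C.val (Function.update 1 g (1 + t)) x a
  have hv0 : ∀ a, v a 0 = C.val 1 x a := by
    intro a
    have h : Function.update (1 : ℕ → ℂ) g (1 + 0) = 1 := by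
      rw [add_zero]
      exact Function.update_eq_self g 1
    simp only [v, h]
  have hdiff : ∀ a, DifferentiableAt ℂ (v a) 0 := by
    intro a
    induction a using Nat.strong_induction_on with
    | _ a ih =>
      have hρ : DifferentiableAt ℂ (fun t : ℂ => Function.update (1 : ℕ → ℂ) g (1 + t) a) 0 := by
        by_cases h : a = g
        · subst h
          simp only [Function.update_self]
          fun_prop
        · simp only [Function.update_of_ne h]
          fun_prop
      rcases h : C.step a with ⟨l, r⟩ | ⟨A, c⟩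
      · have h1 : v a = fun t => Function.update (1 : ℕ → ℂ) g (1 + t) a *
            (l.ev x a (fun b => v b t) * r.ev x a (fun b => v b t)) := by
          funext t
          exact C.val_mul _ _ h
        rw [h1]
        have h2 : ∀ l : Aff n, DifferentiableAt ℂ (fun t => l.ev x a (fun b : Fin a => v b t)) 0 := by
          intro l
          unfold Aff.ev
          refine (differentiableAt_const _).add ?_
          refine DifferentiableAt.fun_sum fun b _ => ?_
          exact (ih b b.2).const_mul _
        exact hρ.mul ((h2 l).mul (h2 r))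
      · have h1 : v a = fun t => Function.update (1 : ℕ → ℂ) g (1 + t) a *
            ∑ k ∈ Finset.range (n + 1), mnr A c x k := by
          funext t
          exact C.val_minors _ _ h
        rw [h1]
        exact hρ.mul_const _
  let δ : ℕ → ℂ := fun a => deriv (v a) 0
  have hδ : ∀ a, HasDerivAt (v a) (δ a) 0 := fun a => (hdiff a).hasDerivAt
  have hev : ∀ (l : Aff n) (m : ℕ), HasDerivAt (fun t => l.ev x m (fun b : Fin m => v b t))
      (∑ b ∈ Finset.range m, l.v b * δ b) 0 := by
    intro l m
    unfold Aff.ev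
    rw [← Fin.sum_univ_eq_sum_range (fun b => l.v b * δ b) m]
    have h1 : HasDerivAt (fun t => ∑ b : Fin m, algebraMap ℂ ℂ (l.v b) * v b t)
        (∑ b : Fin m, l.v b * δ b) 0 :=
      HasDerivAt.fun_sum fun b _ => (hδ b).const_mul (l.v b)
    exact h1.const_add (MvPolynomial.aeval x l.p)
  -- the coefficients of the recursion
  let K : ℕ → ℕ → ℂ := fun b a =>
    match C.step b with
    | .mul l r => l.v a * r.ev x b (fun a => C.val 1 x a) + r.v a * l.ev x b (fun a => C.val 1 x a)
    | .minors _ _ => 0
  have hρ' : ∀ a, a ≠ g → HasDerivAt (fun t : ℂ => Function.update (1 : ℕ → ℂ) g (1 + t) a) 0 0 := by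
    intro a h
    simp only [Function.update_of_ne h]
    exact hasDerivAt_const _ _
  have hrec : ∀ a, a ≠ g → δ a = ∑ b ∈ Finset.range a, K a b * δ b := by
    intro a hag
    rcases h : C.step a with ⟨l, r⟩ | ⟨A, c⟩
    · have h1 : v a = fun t => l.ev x a (fun b => v b t) * r.ev x a (fun b => v b t) := by
        funext t
        have h2 := C.val_mul (Function.update (1 : ℕ → ℂ) g (1 + t)) x h
        rw [Function.update_of_ne hag] at h2
        simpa using h2
      have h2 := (hev l a).fun_mul (hev r a)
      rw [← h1] at h2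
      rw [(hδ a).unique h2]
      have hK : ∀ b, K a b = l.v b * r.ev x a (fun a => C.val 1 x a) +
          r.v b * l.ev x a (fun a => C.val 1 x a) := by
        intro b
        simp only [K, h]
      simp only [hK, hv0]
      rw [Finset.sum_mul, Finset.mul_sum, ← Finset.sum_add_distrib]
      refine Finset.sum_congr rfl fun b _ => ?_
      ring
    · have h1 : v a = fun _ => ∑ k ∈ Finset.range (n + 1), mnr A c x k := by
        funext t
        have h2 := C.val_minors (Function.update (1 : ℕ → ℂ) g (1 + t)) x h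
        rw [Function.update_of_ne hag] at h2
        simpa using h2
      have hK : ∀ b, K a b = 0 := by
        intro b
        simp only [K, h]
      simp only [hK, zero_mul, Finset.sum_const_zero]
      show deriv (v a) 0 = 0
      rw [h1]
      exact deriv_const _ _
  have hzero : ∀ a, a < g → δ a = 0 := by
    intro a
    induction a using Nat.strong_induction_on with
    | _ a ih =>
      intro hag
      rw [hrec a hag.ne]
      refine Finset.sum_eq_zero fun b hb => ?_
      rw [Finset.mem_range] at hb
      rw [ih b hb (hb.trans hag), mul_zero]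
  have hself : δ g = C.val 1 x g := by
    have hconst : ∀ a, a < g → ∀ t, v a t = C.val 1 x a := by
      intro a
      induction a using Nat.strong_induction_on with
      | _ a ih =>
        intro hag t
        rcases h : C.step a with ⟨l, r⟩ | ⟨A, c⟩
        · have h2 := C.val_mul (Function.update (1 : ℕ → ℂ) g (1 + t)) x h
          have h3 := C.val_mul (1 : ℕ → ℂ) x h
          rw [Function.update_of_ne hag.ne] at h2
          show C.val (Function.update (1 : ℕ → ℂ) g (1 + t)) x a = _
          rw [h2, h3]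
          have h4 : (fun b : Fin a => C.val (Function.update (1 : ℕ → ℂ) g (1 + t)) x b) =
              fun b : Fin a => C.val 1 x b := by
            funext b
            exact ih b b.2 (b.2.trans hag) t
          rw [h4]
        · have h2 := C.val_minors (Function.update (1 : ℕ → ℂ) g (1 + t)) x h
          have h3 := C.val_minors (1 : ℕ → ℂ) x h
          rw [Function.update_of_ne hag.ne] at h2
          show C.val (Function.update (1 : ℕ → ℂ) g (1 + t)) x a = _
          rw [h2, h3]
    have h1 : v g = fun t => (1 + t) * C.val 1 x g := by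
      funext t
      show C.val (Function.update (1 : ℕ → ℂ) g (1 + t)) x g = _
      rcases h : C.step g with ⟨l, r⟩ | ⟨A, c⟩
      · rw [C.val_mul _ x h, C.val_mul (1 : ℕ → ℂ) x h, Function.update_self]
        have h4 : (fun b : Fin g => C.val (Function.update (1 : ℕ → ℂ) g (1 + t)) x b) =
            fun b : Fin g => C.val 1 x b := by
          funext b
          exact hconst b b.2 t
        rw [h4]
        simp
      · rw [C.val_minors _ x h, C.val_minors (1 : ℕ → ℂ) x h, Function.update_self]
        simp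
    have h2 : HasDerivAt (fun t : ℂ => (1 + t) * C.val 1 x g) (1 * C.val 1 x g) 0 :=
      ((hasDerivAt_id (0 : ℂ)).const_add 1).mul_const _
    rw [← h1, one_mul] at h2
    exact (hδ g).unique h2
  have hDx : ∀ a, a < C.s → MvPolynomial.eval x (D a) =
      C.out.v a + ∑ b ∈ Finset.Ioo a C.s, K b a * MvPolynomial.eval x (D b) := by
    intro a ha
    rw [hD a ha, map_add, MvPolynomial.eval_C, map_sum]
    congr 1
    refine Finset.sum_congr rfl fun b _ => ?_
    simp only [K]
    rcases C.step b with ⟨l, r⟩ | ⟨A, c⟩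
    · simp only [map_mul, map_add, MvPolynomial.eval_C, Circuit.eval_pa]
    · simp
  -- summation by parts
  have hout : C.err g x = ∑ a ∈ Finset.range C.s, C.out.v a * δ a := (hev C.out C.s).deriv
  have hsplit : ∑ a ∈ Finset.range C.s, C.out.v a * δ a =
      ∑ a ∈ Finset.Ico g C.s, C.out.v a * δ a := by
    rw [Finset.range_eq_Ico, ← Finset.sum_Ico_consecutive _ (Nat.zero_le g) hg.le]
    rw [Finset.sum_eq_zero (s := Finset.Ico 0 g), zero_add]
    intro a ha
    rw [Finset.mem_Ico] at ha
    rw [hzero a ha.2, mul_zero]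
  have h1 : ∑ a ∈ Finset.Ico g C.s, C.out.v a * δ a =
      ∑ a ∈ Finset.Ico g C.s, MvPolynomial.eval x (D a) * δ a -
        ∑ a ∈ Finset.Ico g C.s, ∑ b ∈ Finset.Ioo a C.s, K b a * MvPolynomial.eval x (D b) * δ a := by
    rw [← Finset.sum_sub_distrib]
    refine Finset.sum_congr rfl fun a ha => ?_
    rw [Finset.mem_Ico] at ha
    rw [hDx a ha.2, add_mul, Finset.sum_mul]
    ring
  have h2 : ∑ a ∈ Finset.Ico g C.s, ∑ b ∈ Finset.Ioo a C.s,
      K b a * MvPolynomial.eval x (D b) * δ a =
      ∑ b ∈ Finset.Ioo g C.s, MvPolynomial.eval x (D b) * δ b := by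
    have h3 : ∑ a ∈ Finset.Ico g C.s, ∑ b ∈ Finset.Ioo a C.s,
        K b a * MvPolynomial.eval x (D b) * δ a =
        ∑ b ∈ Finset.Ioo g C.s, ∑ a ∈ Finset.Ico g b,
          K b a * MvPolynomial.eval x (D b) * δ a := by
      refine Finset.sum_comm' ?_
      intro a b
      simp only [Finset.mem_Ico, Finset.mem_Ioo]
      omega
    rw [h3]
    refine Finset.sum_congr rfl fun b hb => ?_
    rw [Finset.mem_Ioo] at hb
    rw [hrec b hb.1.ne', Finset.mul_sum, Finset.range_eq_Ico,
      ← Finset.sum_Ico_consecutive _ (Nat.zero_le g) hb.1.le]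
    rw [Finset.sum_eq_zero (s := Finset.Ico 0 g), zero_add]
    · refine Finset.sum_congr rfl fun a _ => ?_
      ring
    · intro a ha
      rw [Finset.mem_Ico] at ha
      rw [hzero a ha.2]
      ring
  have h4 : ∑ a ∈ Finset.Ico g C.s, MvPolynomial.eval x (D a) * δ a =
      MvPolynomial.eval x (D g) * δ g + ∑ b ∈ Finset.Ioo g C.s, MvPolynomial.eval x (D b) * δ b := by
    rw [← Finset.Ioo_insert_left hg, Finset.sum_insert (by simp)]
  rw [hout, hsplit, h1, h2, h4, hself, map_mul, Circuit.eval_pv]
  ring

end Pool.Agent.SC
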