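import Mathlib
import Pool.Agent.SC.Defs

/-!
# The Bombieri inequality (row BOMB)
-/

set_option autoImplicit false
set_option linter.unusedSectionVars false

namespace Pool.Agent.SC

open scoped Nat ComplexConjugate

/-- The identity for natural numbers, from the Vandermonde convolution. -/
theorem star_one (m a v b u : ℕ) (ha : a ≤ m) (hv : v ≤ m) (_ : b ≤ m) :
    ∑ q ∈ Finset.range (m + 1) ×ˢ Finset.range (m + 1) ×ˢ Finset.range (m + 1) ×ˢ
        Finset.range (m + 1),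
      (if q.1 + q.2.2.1 = a ∧ q.2.1 + q.2.2.2 = v ∧ q.1 + q.2.2.2 = b ∧ q.2.1 + q.2.2.1 = u then
        ((a ! : ℝ) * v ! * b ! * u !) / ((q.1 ! : ℝ) * q.2.1 ! * q.2.2.1 ! * q.2.2.2 !) else 0) =
      if a + v = b + u then ((a + v)! : ℝ) else 0 := by
  classical
  rw [← Finset.sum_filter]
  by_cases hN : a + v = b + u
  · rw [if_pos hN]
    have h1 : ((a + v)! : ℝ) = ∑ x ∈ (Finset.HasAntidiagonal.antidiagonal b).filter (fun x => x.1 ≤ a ∧ x.2 ≤ v),
        (b ! : ℝ) * u ! * (a.choose x.1 * v.choose x.2) := by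
      have h2 : ((a + v).choose b : ℝ) = ∑ x ∈ Finset.HasAntidiagonal.antidiagonal b,
          ((a.choose x.1 : ℝ) * v.choose x.2) := by
        rw [Nat.add_choose_eq]
        push_cast
        rfl
      have h3 : ((a + v)! : ℝ) = (b ! : ℝ) * u ! * ((a + v).choose b : ℝ) := by
        have h4 := Nat.add_choose_mul_factorial_mul_factorial u b
        rw [hN, add_comm b u]
        have h5 : ((u + b).choose b : ℝ) * u ! * b ! = (u + b)! := by exact_mod_cast h4
        linarith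
      rw [h3, h2, Finset.mul_sum, Finset.sum_filter_of_ne]
      intro x _ hx
      constructor
      · by_contra hc
        rw [Nat.choose_eq_zero_of_lt (not_le.1 hc)] at hx
        simp at hx
      · by_contra hc
        rw [Nat.choose_eq_zero_of_lt (not_le.1 hc)] at hx
        simp at hx
    rw [h1]
    refine Finset.sum_nbij' (fun q => (q.1, q.2.2.2)) (fun x => (x.1, v - x.2, a - x.1, x.2))
      ?_ ?_ ?_ ?_ ?_
    · rintro ⟨c, w, e, f⟩ hq
      simp only [Finset.mem_filter, Finset.mem_product, Finset.mem_range,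
        Finset.HasAntidiagonal.mem_antidiagonal] at hq ⊢
      omega
    · rintro ⟨c, f⟩ hx
      simp only [Finset.mem_filter, Finset.mem_product, Finset.mem_range,
        Finset.HasAntidiagonal.mem_antidiagonal] at hx ⊢
      omega
    · rintro ⟨c, w, e, f⟩ hq
      simp only [Finset.mem_filter, Finset.mem_product, Finset.mem_range] at hq
      show (c, v - f, a - c, f) = (c, w, e, f)
      have t1 : v - f = w := by omega
      have t2 : a - c = e := by omega
      rw [t1, t2]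
    · rintro ⟨c, f⟩ hx
      rfl
    · rintro ⟨c, w, e, f⟩ hq
      simp only [Finset.mem_filter, Finset.mem_product, Finset.mem_range] at hq
      obtain ⟨-, h5, h6, -, -⟩ := hq
      subst h5 h6
      have h7 : ((c + e).choose c : ℝ) = (c + e)! / (c ! * e !) := Nat.cast_add_choose ℝ
      have h8 : ((w + f).choose f : ℝ) = (w + f)! / (f ! * w !) := by
        rw [add_comm w f]; exact Nat.cast_add_choose ℝ
      show _ = (b ! : ℝ) * u ! * ((c + e).choose c * (w + f).choose f)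
      rw [h7, h8]
      have c1 : (c ! : ℝ) ≠ 0 := by positivity
      have c2 : (w ! : ℝ) ≠ 0 := by positivity
      have c3 : (e ! : ℝ) ≠ 0 := by positivity
      have c4 : (f ! : ℝ) ≠ 0 := by positivity
      field_simp
  · rw [if_neg hN]
    refine Finset.sum_eq_zero fun q hq => ?_
    exfalso
    obtain ⟨c, w, e, f⟩ := q
    simp only [Finset.mem_filter, Finset.mem_product, Finset.mem_range] at hq
    omega

section

variable {σ : Type} [Fintype σ] [DecidableEq σ]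

/-- The multi-indices with entries at most `m`. -/
noncomputable def bx (σ : Type) [Fintype σ] [DecidableEq σ] (m : ℕ) : Finset (σ →₀ ℕ) :=
  (Fintype.piFinset fun _ : σ => Finset.range (m + 1)).map Finsupp.equivFunOnFinite.symm.toEmbedding

theorem mem_bx {m : ℕ} {a : σ →₀ ℕ} : a ∈ bx σ m ↔ ∀ i, a i ≤ m := by
  unfold bx
  simp only [Finset.mem_map, Fintype.mem_piFinset, Finset.mem_range, Nat.lt_succ_iff]
  constructor
  · rintro ⟨f, hf, rfl⟩ i
    exact hf i
  · intro h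
    exact ⟨a, h, by ext i; rfl⟩

theorem mf_pos (a : σ →₀ ℕ) : 0 < mf a := Finset.prod_pos fun i _ => by positivity

/-- The identity for multi-indices. -/
theorem star (m : ℕ) {a v b u : σ →₀ ℕ} (ha : a ∈ bx σ m) (hv : v ∈ bx σ m) (hb : b ∈ bx σ m) :
    ∑ s ∈ bx σ m ×ˢ bx σ m, ∑ t ∈ bx σ m ×ˢ bx σ m,
      (if s.1 + t.1 = a ∧ s.2 + t.2 = v ∧ s.1 + t.2 = b ∧ s.2 + t.1 = u then
        (mf a * mf v * mf b * mf u) / (mf s.1 * mf s.2 * mf t.1 * mf t.2) else 0) =
      if a + v = b + u then mf (a + v) else 0 := by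
  rw [mem_bx] at ha hv hb
  let F : σ → ℕ × ℕ × ℕ × ℕ → ℝ := fun i q =>
    if q.1 + q.2.2.1 = a i ∧ q.2.1 + q.2.2.2 = v i ∧ q.1 + q.2.2.2 = b i ∧
      q.2.1 + q.2.2.1 = u i then
      (((a i)! : ℝ) * (v i)! * (b i)! * (u i)!) / ((q.1 ! : ℝ) * q.2.1 ! * q.2.2.1 ! * q.2.2.2 !)
      else 0
  have h1 : (if a + v = b + u then mf (a + v) else 0) = ∏ i, ∑ q ∈ Finset.range (m + 1) ×ˢ
      Finset.range (m + 1) ×ˢ Finset.range (m + 1) ×ˢ Finset.range (m + 1), F i q := by
    have h2 : ∀ i, ∑ q ∈ Finset.range (m + 1) ×ˢ Finset.range (m + 1) ×ˢ Finset.range (m + 1) ×ˢ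
        Finset.range (m + 1), F i q = if a i + v i = b i + u i then ((a i + v i)! : ℝ) else 0 :=
      fun i => star_one m _ _ _ _ (ha i) (hv i) (hb i)
    simp only [h2]
    by_cases h : a + v = b + u
    · rw [if_pos h]
      unfold mf
      refine Finset.prod_congr rfl fun i _ => ?_
      have h3 : a i + v i = b i + u i := DFunLike.congr_fun h i
      rw [if_pos h3]
      rfl
    · rw [if_neg h]
      have h3 : ∃ i, a i + v i ≠ b i + u i := by
        by_contra hc
        push Not at hc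
        exact h (Finsupp.ext hc)
      obtain ⟨i, hi⟩ := h3
      exact (Finset.prod_eq_zero (Finset.mem_univ i) (if_neg hi)).symm
  rw [h1, Finset.prod_univ_sum, ← Finset.sum_product']
  refine Finset.sum_bij' (fun x _ i => (x.1.1 i, x.1.2 i, x.2.1 i, x.2.2 i))
    (fun q _ => ((Finsupp.equivFunOnFinite.symm fun i => (q i).1,
      Finsupp.equivFunOnFinite.symm fun i => (q i).2.1),
      (Finsupp.equivFunOnFinite.symm fun i => (q i).2.2.1,
      Finsupp.equivFunOnFinite.symm fun i => (q i).2.2.2))) ?_ ?_ ?_ ?_ ?_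
  · rintro ⟨⟨c, w⟩, ⟨e, f⟩⟩ hx
    simp only [Finset.mem_product, mem_bx] at hx
    simp only [Fintype.mem_piFinset, Finset.mem_product, Finset.mem_range, Nat.lt_succ_iff]
    exact fun i => ⟨hx.1.1 i, hx.1.2 i, hx.2.1 i, hx.2.2 i⟩
  · intro q hq
    simp only [Fintype.mem_piFinset, Finset.mem_product, Finset.mem_range, Nat.lt_succ_iff] at hq
    simp only [Finset.mem_product, mem_bx]
    exact ⟨⟨fun i => (hq i).1, fun i => (hq i).2.1⟩, fun i => (hq i).2.2.1, fun i => (hq i).2.2.2⟩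
  · rintro ⟨⟨c, w⟩, ⟨e, f⟩⟩ _
    simp only [Prod.mk.injEq]
    refine ⟨⟨?_, ?_⟩, ?_, ?_⟩ <;> ext i <;> rfl
  · intro q _
    funext i
    rfl
  · rintro ⟨⟨c, w⟩, ⟨e, f⟩⟩ _
    show (if c + e = a ∧ w + f = v ∧ c + f = b ∧ w + e = u then
        (mf a * mf v * mf b * mf u) / (mf c * mf w * mf e * mf f) else 0) =
      ∏ i, F i (c i, w i, e i, f i)
    by_cases h : c + e = a ∧ w + f = v ∧ c + f = b ∧ w + e = u
    · rw [if_pos h]
      have h3 : ∀ i, F i (c i, w i, e i, f i) = (((a i)! : ℝ) * (v i)! * (b i)! * (u i)!) /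
          (((c i)! : ℝ) * (w i)! * (e i)! * (f i)!) := fun i =>
        if_pos ⟨DFunLike.congr_fun h.1 i, DFunLike.congr_fun h.2.1 i, DFunLike.congr_fun h.2.2.1 i,
          DFunLike.congr_fun h.2.2.2 i⟩
      simp only [h3]
      unfold mf
      rw [Finset.prod_div_distrib]
      simp only [Finset.prod_mul_distrib]
    · rw [if_neg h]
      have h3 : ∃ i, ¬ (c i + e i = a i ∧ w i + f i = v i ∧ c i + f i = b i ∧
          w i + e i = u i) := by
        by_contra hc
        push Not at hc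
        exact h ⟨Finsupp.ext fun i => (hc i).1, Finsupp.ext fun i => (hc i).2.1,
          Finsupp.ext fun i => (hc i).2.2.1, Finsupp.ext fun i => (hc i).2.2.2⟩
      obtain ⟨i, hi⟩ := h3
      exact (Finset.prod_eq_zero (Finset.mem_univ i) (if_neg hi)).symm

theorem exists_bx (p : MvPolynomial σ ℂ) : ∃ m, ∀ a, p.coeff a ≠ 0 → a ∈ bx σ m := by
  refine ⟨p.totalDegree, fun a ha => mem_bx.2 fun i => ?_⟩
  have h1 := MvPolynomial.le_totalDegree (MvPolynomial.mem_support_iff.2 ha)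
  refine le_trans ?_ h1
  by_cases hi : a i = 0
  · rw [hi]; exact Nat.zero_le _
  · exact Finset.single_le_sum (f := fun j => a j) (fun _ _ => Nat.zero_le _)
      (Finsupp.mem_support_iff.2 hi)

theorem fn_eq {p : MvPolynomial σ ℂ} {m : ℕ} (hp : ∀ a, p.coeff a ≠ 0 → a ∈ bx σ m) :
    fn p = ∑ a ∈ bx σ m, mf a * ‖p.coeff a‖ ^ 2 := by
  unfold fn
  refine Finset.sum_subset (fun a ha => hp a (MvPolynomial.mem_support_iff.1 ha)) ?_
  intro a _ ha
  rw [MvPolynomial.notMem_support_iff.1 ha]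
  simp

theorem coeff_bx {g h : MvPolynomial σ ℂ} {m : ℕ} (hg : ∀ a, g.coeff a ≠ 0 → a ∈ bx σ m)
    (hh : ∀ a, h.coeff a ≠ 0 → a ∈ bx σ m) (n : σ →₀ ℕ) :
    (g * h).coeff n = ∑ x ∈ bx σ m ×ˢ bx σ m,
      if x.1 + x.2 = n then g.coeff x.1 * h.coeff x.2 else 0 := by
  rw [MvPolynomial.coeff_mul, ← Finset.sum_filter]
  symm
  refine Finset.sum_subset_zero_on_sdiff ?_ ?_ fun _ _ => rfl
  · intro x hx
    rw [Finset.mem_filter] at hx
    exact Finset.HasAntidiagonal.mem_antidiagonal.2 hx.2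
  · intro x hx
    rw [Finset.mem_sdiff, Finset.HasAntidiagonal.mem_antidiagonal, Finset.mem_filter, Finset.mem_product] at hx
    by_contra hc
    have h1 := mul_ne_zero_iff.1 hc
    exact hx.2 ⟨⟨hg _ h1.1, hh _ h1.2⟩, hx.1⟩

/-- The sum of the products of coefficients. -/
noncomputable def TT (m : ℕ) (g h : MvPolynomial σ ℂ) (c w : σ →₀ ℕ) : ℂ :=
  ∑ e ∈ bx σ m, ((mf (c + e) * mf (w + e) / mf e : ℝ) : ℂ) * (g.coeff (c + e) *
    conj (h.coeff (w + e)))

/-- The Bombieri identity. -/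
theorem fn_mul {g h : MvPolynomial σ ℂ} {m : ℕ} (hg : ∀ a, g.coeff a ≠ 0 → a ∈ bx σ m)
    (hh : ∀ a, h.coeff a ≠ 0 → a ∈ bx σ m) :
    fn (g * h) = ∑ s ∈ bx σ m ×ˢ bx σ m, (mf s.1 * mf s.2)⁻¹ * ‖TT m g h s.1 s.2‖ ^ 2 := by
  set I := bx σ m ×ˢ bx σ m with hI
  let ph : (σ →₀ ℕ) × (σ →₀ ℕ) → ℂ := fun x => g.coeff x.1 * h.coeff x.2
  have hph : ∀ x, x ∉ I → ph x = 0 := by
    intro x hx
    by_contra hc
    have h1 := mul_ne_zero_iff.1 hc
    exact hx (Finset.mem_product.2 ⟨hg _ h1.1, hh _ h1.2⟩)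
  have hgh : ∀ n, (g * h).coeff n ≠ 0 → n ∈ bx σ (2 * m) := by
    intro n hn
    rw [coeff_bx hg hh] at hn
    obtain ⟨x, hx, hx0⟩ := Finset.exists_ne_zero_of_sum_ne_zero hn
    rw [Finset.mem_product, mem_bx, mem_bx] at hx
    have h1 : x.1 + x.2 = n := by
      by_contra hc
      rw [if_neg hc] at hx0
      exact hx0 rfl
    refine mem_bx.2 fun i => ?_
    rw [← h1]
    have h2 := hx.1 i
    have h3 := hx.2 i
    show x.1 i + x.2 i ≤ 2 * m
    omega
  apply Complex.ofReal_injective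
  -- expansion
  have e1 : ((fn (g * h) : ℝ) : ℂ) = ∑ n ∈ bx σ (2 * m), ∑ x ∈ I, ∑ y ∈ I,
      (mf n : ℂ) * ((if x.1 + x.2 = n then ph x else 0) *
        conj (if y.1 + y.2 = n then ph y else 0)) := by
    rw [fn_eq hgh]
    push_cast
    refine Finset.sum_congr rfl fun n _ => ?_
    rw [← Complex.mul_conj', coeff_bx hg hh, map_sum, Finset.sum_mul_sum, Finset.mul_sum]
    refine Finset.sum_congr rfl fun x _ => ?_
    rw [Finset.mul_sum]
  have e2 : ((fn (g * h) : ℝ) : ℂ) = ∑ x ∈ I, ∑ y ∈ I,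
      ((if x.1 + x.2 = y.1 + y.2 then mf (x.1 + x.2) else 0 : ℝ) : ℂ) * (ph x * conj (ph y)) := by
    rw [e1, Finset.sum_comm]
    refine Finset.sum_congr rfl fun x hx => ?_
    rw [Finset.sum_comm]
    refine Finset.sum_congr rfl fun y hy => ?_
    rw [Finset.sum_eq_single (x.1 + x.2)]
    · rw [if_pos rfl]
      by_cases hxy : x.1 + x.2 = y.1 + y.2
      · rw [if_pos hxy, if_pos hxy.symm]
      · rw [if_neg hxy, if_neg (fun h => hxy h.symm)]
        simp
    · intro n _ hn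
      rw [if_neg (fun h => hn h.symm)]
      simp
    · intro hn
      exfalso
      apply hn
      rw [Finset.mem_product, mem_bx, mem_bx] at hx
      refine mem_bx.2 fun i => ?_
      have h2 := hx.1 i
      have h3 := hx.2 i
      show x.1 i + x.2 i ≤ 2 * m
      omega
  have e3 : ((fn (g * h) : ℝ) : ℂ) = ∑ s ∈ I, ∑ t ∈ I, ∑ x ∈ I, ∑ y ∈ I,
      (if x = (s.1 + t.1, s.2 + t.2) ∧ y = (s.1 + t.2, s.2 + t.1) then
        (((mf x.1 * mf x.2 * mf y.1 * mf y.2) / (mf s.1 * mf s.2 * mf t.1 * mf t.2) : ℝ) : ℂ) *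
          (ph x * conj (ph y)) else 0) := by
    rw [e2]
    have h1 : ∀ x ∈ I, ∀ y ∈ I,
        ((if x.1 + x.2 = y.1 + y.2 then mf (x.1 + x.2) else 0 : ℝ) : ℂ) * (ph x * conj (ph y)) =
        ∑ s ∈ I, ∑ t ∈ I, (if x = (s.1 + t.1, s.2 + t.2) ∧ y = (s.1 + t.2, s.2 + t.1) then
        (((mf x.1 * mf x.2 * mf y.1 * mf y.2) / (mf s.1 * mf s.2 * mf t.1 * mf t.2) : ℝ) : ℂ) *
          (ph x * conj (ph y)) else 0) := by
      intro x hx y hy
      rw [Finset.mem_product] at hx hy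
      rw [← star m hx.1 hx.2 hy.1]
      push_cast
      rw [Finset.sum_mul]
      refine Finset.sum_congr rfl fun s _ => ?_
      rw [Finset.sum_mul]
      refine Finset.sum_congr rfl fun t _ => ?_
      by_cases hc : s.1 + t.1 = x.1 ∧ s.2 + t.2 = x.2 ∧ s.1 + t.2 = y.1 ∧ s.2 + t.1 = y.2
      · have hc' : x = (s.1 + t.1, s.2 + t.2) ∧ y = (s.1 + t.2, s.2 + t.1) :=
          ⟨Prod.ext hc.1.symm hc.2.1.symm, Prod.ext hc.2.2.1.symm hc.2.2.2.symm⟩
        rw [if_pos hc, if_pos hc']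
        push_cast
        ring
      · have hc' : ¬ (x = (s.1 + t.1, s.2 + t.2) ∧ y = (s.1 + t.2, s.2 + t.1)) := by
          rintro ⟨h5, h6⟩
          apply hc
          rw [h5, h6]
          exact ⟨rfl, rfl, rfl, rfl⟩
        rw [if_neg hc, if_neg hc']
        simp
    rw [Finset.sum_congr rfl fun x hx => Finset.sum_congr rfl fun y hy => h1 x hx y hy]
    calc _ = ∑ x ∈ I, ∑ s ∈ I, ∑ y ∈ I, ∑ t ∈ I, _ :=
          Finset.sum_congr rfl fun x _ => Finset.sum_comm
      _ = ∑ s ∈ I, ∑ x ∈ I, ∑ y ∈ I, ∑ t ∈ I, _ := Finset.sum_comm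
      _ = ∑ s ∈ I, ∑ x ∈ I, ∑ t ∈ I, ∑ y ∈ I, _ :=
          Finset.sum_congr rfl fun s _ => Finset.sum_congr rfl fun x _ => Finset.sum_comm
      _ = _ := Finset.sum_congr rfl fun s _ => Finset.sum_comm
  have e4 : ((fn (g * h) : ℝ) : ℂ) = ∑ s ∈ I, ∑ t ∈ I,
      (((mf (s.1 + t.1) * mf (s.2 + t.2) * mf (s.1 + t.2) * mf (s.2 + t.1)) /
        (mf s.1 * mf s.2 * mf t.1 * mf t.2) : ℝ) : ℂ) *
          (ph (s.1 + t.1, s.2 + t.2) * conj (ph (s.1 + t.2, s.2 + t.1))) := by
    rw [e3]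
    refine Finset.sum_congr rfl fun s _ => Finset.sum_congr rfl fun t _ => ?_
    rw [Finset.sum_eq_single (s.1 + t.1, s.2 + t.2)]
    · rw [Finset.sum_eq_single (s.1 + t.2, s.2 + t.1)]
      · rw [if_pos ⟨rfl, rfl⟩]
      · intro y _ hy
        rw [if_neg fun h => hy h.2]
      · intro hy
        rw [hph _ hy]
        simp
    · intro x _ hx
      refine Finset.sum_eq_zero fun y _ => ?_
      rw [if_neg fun h => hx h.1]
    · intro hx
      refine Finset.sum_eq_zero fun y _ => ?_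
      rw [hph _ hx]
      simp
  rw [e4]
  push_cast
  refine Finset.sum_congr rfl fun s _ => ?_
  rw [← Complex.mul_conj']
  have h9 : TT m g h s.1 s.2 * conj (TT m g h s.1 s.2) = ∑ t ∈ I,
      (((mf (s.1 + t.1) * mf (s.2 + t.1) / mf t.1 : ℝ) : ℂ) * (g.coeff (s.1 + t.1) *
        conj (h.coeff (s.2 + t.1)))) *
      (((mf (s.1 + t.2) * mf (s.2 + t.2) / mf t.2 : ℝ) : ℂ) * (conj (g.coeff (s.1 + t.2)) *
        h.coeff (s.2 + t.2))) := by
    unfold TT
    rw [map_sum, Finset.sum_mul_sum, hI, Finset.sum_product]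
    refine Finset.sum_congr rfl fun e _ => Finset.sum_congr rfl fun f _ => ?_
    congr 1
    rw [map_mul, map_mul, Complex.conj_conj, Complex.conj_ofReal]
  rw [h9, Finset.mul_sum]
  refine Finset.sum_congr rfl fun t _ => ?_
  have p1 : (mf s.1 : ℂ) ≠ 0 := by exact_mod_cast (mf_pos s.1).ne'
  have p2 : (mf s.2 : ℂ) ≠ 0 := by exact_mod_cast (mf_pos s.2).ne'
  have p3 : (mf t.1 : ℂ) ≠ 0 := by exact_mod_cast (mf_pos t.1).ne'
  have p4 : (mf t.2 : ℂ) ≠ 0 := by exact_mod_cast (mf_pos t.2).ne'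
  simp only [ph]
  rw [map_mul]
  push_cast
  field_simp

theorem bombieri {g h : MvPolynomial σ ℂ} {k : ℕ} (hg : g.IsHomogeneous k) :
    fn g * fn h ≤ fn (g * h) := by
  obtain ⟨m₁, hm₁⟩ := exists_bx g
  obtain ⟨m₂, hm₂⟩ := exists_bx h
  have hgm : ∀ a, g.coeff a ≠ 0 → a ∈ bx σ (max m₁ m₂) := fun a ha => mem_bx.2 fun i =>
    (mem_bx.1 (hm₁ a ha) i).trans (le_max_left _ _)
  have hhm : ∀ a, h.coeff a ≠ 0 → a ∈ bx σ (max m₁ m₂) := fun a ha => mem_bx.2 fun i =>
    (mem_bx.1 (hm₂ a ha) i).trans (le_max_right _ _)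
  rw [fn_mul hgm hhm, fn_eq hgm, fn_eq hhm, Finset.sum_mul_sum, ← Finset.sum_product']
  refine Finset.sum_le_sum fun s _ => ?_
  have p1 := mf_pos s.1
  have p2 := mf_pos s.2
  by_cases hs : g.coeff s.1 = 0
  · rw [hs]
    have h1 : (0 : ℝ) ≤ (mf s.1 * mf s.2)⁻¹ * ‖TT (max m₁ m₂) g h s.1 s.2‖ ^ 2 := by positivity
    simpa using h1
  · have h1 : TT (max m₁ m₂) g h s.1 s.2 =
        ((mf s.1 * mf s.2 : ℝ) : ℂ) * (g.coeff s.1 * conj (h.coeff s.2)) := by
      unfold TT
      rw [Finset.sum_eq_single 0]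
      · have h2 : mf (0 : σ →₀ ℕ) = 1 := by simp [mf]
        rw [add_zero, add_zero, h2, div_one]
      · intro e _ he
        have h3 : g.coeff (s.1 + e) = 0 := by
          by_contra hc
          have h4 := hg hs
          have h5 := hg hc
          rw [map_add] at h5
          have h6 : Finsupp.weight (1 : σ → ℕ) e = 0 := by omega
          have h7 : Finsupp.degree e = 0 := by
            rw [Finsupp.degree_eq_weight_one]; exact h6
          exact he ((Finsupp.degree_eq_zero_iff e).1 h7)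
        rw [h3]
        simp
      · intro h0
        exact absurd (mem_bx.2 fun i => Nat.zero_le _) h0
    rw [h1, norm_mul, norm_mul, Complex.norm_real, Complex.norm_conj,
      Real.norm_of_nonneg (by positivity)]
    apply le_of_eq
    field_simp

end

theorem rowBomb : RowBomb := fun _ _ _ _ hg => bombieri hg

end Pool.Agent.SC
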