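import Pool.Agent.SC.Defs

/-!
# Row CUT: the cut identity of the graded circuit
-/

set_option autoImplicit false

namespace Pool.Agent.SC

open MvPolynomial Finset

section Gen

variable {σ : Type}

theorem hc_mul (d : ℕ) (p q : MvPolynomial σ ℂ) :
    homogeneousComponent d (p * q) =
      ∑ x ∈ antidiagonal d, homogeneousComponent x.1 p * homogeneousComponent x.2 q := by
  classical
  ext m
  rw [coeff_homogeneousComponent, coeff_sum]
  simp only [coeff_mul, coeff_homogeneousComponent]
  rw [Finset.sum_comm]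
  have key : ∀ y ∈ antidiagonal m, (∑ x ∈ antidiagonal d,
      (if y.1.degree = x.1 then coeff y.1 p else 0) *
        (if y.2.degree = x.2 then coeff y.2 q else 0)) =
      if m.degree = d then coeff y.1 p * coeff y.2 q else 0 := by
    intro y hy
    rw [HasAntidiagonal.mem_antidiagonal] at hy
    have hdeg : y.1.degree + y.2.degree = m.degree := by rw [← hy, map_add]
    by_cases h : m.degree = d
    · rw [if_pos h, Finset.sum_eq_single (y.1.degree, y.2.degree)]
      · simp
      · rintro ⟨i, j⟩ _ hne
        by_cases hi : y.1.degree = i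
        · by_cases hj : y.2.degree = j
          · exact absurd (by rw [hi, hj]) hne
          · simp [hj]
        · simp [hi]
      · intro hn
        exact absurd (by rw [HasAntidiagonal.mem_antidiagonal]; omega) hn
    · rw [if_neg h]
      refine Finset.sum_eq_zero ?_
      rintro ⟨i, j⟩ hx
      rw [HasAntidiagonal.mem_antidiagonal] at hx
      by_cases hi : y.1.degree = i
      · by_cases hj : y.2.degree = j
        · exfalso
          apply h
          simp only at hx
          omega
        · simp [hj]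
      · simp [hi]
  rw [Finset.sum_congr rfl key]
  by_cases h : m.degree = d
  · simp [h]
  · simp [h]

theorem box1 {M : Type} [AddCommMonoid M] (θ n : ℕ) (f : ℕ → ℕ → M) :
    ∑ d ∈ Ioc θ n, ∑ x ∈ antidiagonal d, f x.1 x.2 =
      ∑ i ∈ range (n + 1), ∑ j ∈ range (n + 1),
        if θ < i + j ∧ i + j ≤ n then f i j else 0 := by
  classical
  rw [← Finset.sum_product' (range (n + 1)) (range (n + 1))
    (fun i j => if θ < i + j ∧ i + j ≤ n then f i j else 0), ← Finset.sum_filter]
  rw [← Finset.sum_fiberwise_of_maps_to (s := (range (n + 1) ×ˢ range (n + 1)).filter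
    (fun x : ℕ × ℕ => θ < x.1 + x.2 ∧ x.1 + x.2 ≤ n)) (t := Ioc θ n)
    (g := fun x => x.1 + x.2) (f := fun x => f x.1 x.2)]
  · refine Finset.sum_congr rfl fun d hd => ?_
    refine Finset.sum_congr ?_ fun _ _ => rfl
    ext ⟨i, j⟩
    rw [Finset.mem_Ioc] at hd
    simp only [HasAntidiagonal.mem_antidiagonal, Finset.mem_filter, Finset.mem_product,
      Finset.mem_range]
    constructor
    · intro h
      omega
    · rintro ⟨_, h⟩
      exact h
  · rintro ⟨i, j⟩ hx
    simp only [Finset.mem_filter, Finset.mem_product, Finset.mem_range] at hx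
    simp only [Finset.mem_Ioc]
    exact hx.2

theorem box2 {M : Type} [AddCommMonoid M] (θ n : ℕ) (f : ℕ → ℕ → ℕ → M) :
    ∑ d ∈ Ioc θ n, ∑ x ∈ antidiagonal (n - d), f d x.1 x.2 =
      ∑ i ∈ range (n + 1), ∑ j ∈ range (n + 1),
        if θ < i ∧ i + j ≤ n then f i j (n - i - j) else 0 := by
  classical
  have h1 : (Ioc θ n) = (range (n + 1)).filter (fun i => θ < i) := by
    ext i
    simp only [Finset.mem_Ioc, Finset.mem_filter, Finset.mem_range]
    omega
  rw [h1, Finset.sum_filter]
  refine Finset.sum_congr rfl fun i hi => ?_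
  rw [Finset.mem_range] at hi
  by_cases h : θ < i
  · rw [if_pos h, Finset.Nat.sum_antidiagonal_eq_sum_range_succ (fun a b => f i a b) (n - i)]
    have h2 : range (n - i).succ = (range (n + 1)).filter (fun j => i + j ≤ n) := by
      ext j
      simp only [Finset.mem_filter, Finset.mem_range]
      omega
    rw [h2, Finset.sum_filter]
    refine Finset.sum_congr rfl fun j _ => ?_
    by_cases h3 : i + j ≤ n
    · rw [if_pos h3, if_pos ⟨h, h3⟩]
    · rw [if_neg h3, if_neg (fun h4 => h3 h4.2)]
  · rw [if_neg h]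
    symm
    refine Finset.sum_eq_zero fun j _ => ?_
    rw [if_neg (fun h4 => h h4.1)]

end Gen

section Circ

variable {n : ℕ}

theorem pv_mul (C : Circuit n) (g : ℕ) (l r : Aff n) (h : C.step g = .mul l r) :
    C.pv g = C.pa l g * C.pa r g := by
  unfold Circuit.pv
  rw [Circuit.val, h]
  simp only [Pi.one_apply, one_mul]
  rfl

theorem pv_minors (C : Circuit n) (g : ℕ) (A : Fin n × Fin n → ℂ)
    (c : (k : ℕ) → (Fin k → Fin n) → (Fin k → Fin n) → ℂ) (h : C.step g = .minors A c) :
    C.pv g = ∑ k ∈ range (n + 1), mnr A c MvPolynomial.X k := by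
  unfold Circuit.pv
  rw [Circuit.val, h]
  simp only [Pi.one_apply, one_mul]

theorem mnr_hom (A : Fin n × Fin n → ℂ)
    (c : (k : ℕ) → (Fin k → Fin n) → (Fin k → Fin n) → ℂ) (k : ℕ) :
    (mnr A c (MvPolynomial.X : Fin n × Fin n → MvPolynomial (Fin n × Fin n) ℂ) k).IsHomogeneous
      k := by
  unfold mnr
  refine IsHomogeneous.sum _ _ _ fun p _ => IsHomogeneous.sum _ _ _ fun q _ => ?_
  rw [MvPolynomial.algebraMap_eq]
  refine IsHomogeneous.C_mul ?_ _
  rw [Matrix.det_apply']
  refine IsHomogeneous.sum _ _ _ fun τ _ => ?_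
  have h1 : (((Equiv.Perm.sign τ : ℤˣ) : ℤ) : MvPolynomial (Fin n × Fin n) ℂ) =
      MvPolynomial.C (((Equiv.Perm.sign τ : ℤˣ) : ℤ) : ℂ) := by
    rw [map_intCast]
  rw [h1]
  refine IsHomogeneous.C_mul ?_ _
  have h2 := IsHomogeneous.prod (Finset.univ : Finset (Fin k))
    (fun i => (Matrix.of fun a b => MvPolynomial.C (A (p a, q b)) *
      (MvPolynomial.X (p a, q b) : MvPolynomial (Fin n × Fin n) ℂ)) (τ i) i) (fun _ => 1)
    (fun i _ => by
      rw [Matrix.of_apply]
      exact MvPolynomial.isHomogeneous_C_mul_X _ _)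
  simpa using h2

theorem hc_pa (C : Circuit n) (l : Aff n) (g d : ℕ) (hd : l.p.totalDegree < d) :
    homogeneousComponent d (C.pa l g) =
      ∑ a ∈ range g, MvPolynomial.C (l.v a) * homogeneousComponent d (C.pv a) := by
  unfold Circuit.pa Aff.ev
  rw [MvPolynomial.algebraMap_eq, map_add, map_sum, MvPolynomial.aeval_X_left_apply,
    homogeneousComponent_eq_zero _ _ hd, zero_add]
  rw [← Fin.sum_univ_eq_sum_range
    (fun a => MvPolynomial.C (l.v a) * homogeneousComponent d (C.pv a)) g]
  refine Finset.sum_congr rfl fun a _ => ?_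
  rw [homogeneousComponent_C_mul]

/-- The term of step `g` in the recursion of the derivative `D a`. -/
noncomputable def mt (C : Circuit n) (D : ℕ → MvPolynomial (Fin n × Fin n) ℂ) (a g : ℕ) :
    MvPolynomial (Fin n × Fin n) ℂ :=
  match C.step g with
    | .mul l r => (MvPolynomial.C (l.v a) * C.pa r g + MvPolynomial.C (r.v a) * C.pa l g) * D g
    | .minors _ _ => 0

/-- The graded product of the result and of the derivative of step `g`. -/
noncomputable def gp (C : Circuit n) (D : ℕ → MvPolynomial (Fin n × Fin n) ℂ) (θ g : ℕ) :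
    MvPolynomial (Fin n × Fin n) ℂ :=
  ∑ d ∈ Ioc θ n, homogeneousComponent d (C.pv g) * homogeneousComponent (n - d) (D g)

/-- The gain of step `g`. -/
noncomputable def gn (C : Circuit n) (D : ℕ → MvPolynomial (Fin n × Fin n) ℂ) (θ g : ℕ) :
    MvPolynomial (Fin n × Fin n) ℂ :=
  ∑ a ∈ range g, ∑ d ∈ Ioc θ n,
    homogeneousComponent d (C.pv a) * homogeneousComponent (n - d) (mt C D a g)

theorem gp_eq_mul (C : Circuit n) (D : ℕ → MvPolynomial (Fin n × Fin n) ℂ) (θ g : ℕ)
    (l r : Aff n) (h : C.step g = .mul l r) :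
    gp C D θ g = ∑ i ∈ range (n + 1), ∑ j ∈ range (n + 1),
      if θ < i + j ∧ i + j ≤ n then homogeneousComponent i (C.pa l g) *
        homogeneousComponent j (C.pa r g) * homogeneousComponent (n - i - j) (D g) else 0 := by
  rw [← box1 θ n (fun i j => homogeneousComponent i (C.pa l g) *
        homogeneousComponent j (C.pa r g) * homogeneousComponent (n - i - j) (D g))]
  unfold gp
  refine Finset.sum_congr rfl fun d hd => ?_
  rw [pv_mul C g l r h, hc_mul, Finset.sum_mul]
  refine Finset.sum_congr rfl fun x hx => ?_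
  rw [HasAntidiagonal.mem_antidiagonal] at hx
  have e : n - x.1 - x.2 = n - d := by omega
  rw [e]

theorem gn_eq_mul (C : Circuit n) (D : ℕ → MvPolynomial (Fin n × Fin n) ℂ) (θ g : ℕ)
    (l r : Aff n) (h1 : l.p.totalDegree ≤ θ ∧ r.p.totalDegree ≤ θ) (h : C.step g = .mul l r) :
    gn C D θ g = (∑ i ∈ range (n + 1), ∑ j ∈ range (n + 1),
      if θ < i ∧ i + j ≤ n then homogeneousComponent i (C.pa l g) *
        homogeneousComponent j (C.pa r g) * homogeneousComponent (n - i - j) (D g) else 0) +
      ∑ i ∈ range (n + 1), ∑ j ∈ range (n + 1),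
      if θ < j ∧ i + j ≤ n then homogeneousComponent i (C.pa l g) *
        homogeneousComponent j (C.pa r g) * homogeneousComponent (n - i - j) (D g) else 0 := by
  have e1 : gn C D θ g = (∑ d ∈ Ioc θ n, homogeneousComponent d (C.pa l g) *
      homogeneousComponent (n - d) (C.pa r g * D g)) +
      ∑ d ∈ Ioc θ n, homogeneousComponent d (C.pa r g) *
      homogeneousComponent (n - d) (C.pa l g * D g) := by
    unfold gn
    rw [Finset.sum_comm, ← Finset.sum_add_distrib]
    refine Finset.sum_congr rfl fun d hd => ?_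
    rw [Finset.mem_Ioc] at hd
    rw [hc_pa C l g d (by omega), hc_pa C r g d (by omega), Finset.sum_mul, Finset.sum_mul,
      ← Finset.sum_add_distrib]
    refine Finset.sum_congr rfl fun a _ => ?_
    have e2 : mt C D a g = MvPolynomial.C (l.v a) * (C.pa r g * D g) +
        MvPolynomial.C (r.v a) * (C.pa l g * D g) := by
      unfold mt
      rw [h]
      ring
    rw [e2, map_add, homogeneousComponent_C_mul, homogeneousComponent_C_mul]
    ring
  rw [e1]
  congr 1
  · rw [← box2 θ n (fun i j m => homogeneousComponent i (C.pa l g) *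
        homogeneousComponent j (C.pa r g) * homogeneousComponent m (D g))]
    refine Finset.sum_congr rfl fun d hd => ?_
    rw [hc_mul, Finset.mul_sum]
    refine Finset.sum_congr rfl fun x hx => ?_
    ring
  · rw [Finset.sum_comm]
    have e3 : ∀ j ∈ range (n + 1), ∀ i ∈ range (n + 1),
        (if θ < j ∧ i + j ≤ n then homogeneousComponent i (C.pa l g) *
          homogeneousComponent j (C.pa r g) * homogeneousComponent (n - i - j) (D g) else 0) =
        if θ < j ∧ j + i ≤ n then homogeneousComponent i (C.pa l g) *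
          homogeneousComponent j (C.pa r g) * homogeneousComponent (n - j - i) (D g) else 0 := by
      intro j _ i _
      rw [Nat.add_comm i j, Nat.sub_right_comm n i j]
    rw [Finset.sum_congr rfl fun j hj => Finset.sum_congr rfl fun i hi => e3 j hj i hi]
    rw [← box2 θ n (fun j i m => homogeneousComponent i (C.pa l g) *
        homogeneousComponent j (C.pa r g) * homogeneousComponent m (D g))]
    refine Finset.sum_congr rfl fun d hd => ?_
    rw [hc_mul, Finset.mul_sum]
    refine Finset.sum_congr rfl fun x hx => ?_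
    ring

theorem cut_eq_mul (C : Circuit n) (D : ℕ → MvPolynomial (Fin n × Fin n) ℂ) (θ g : ℕ)
    (h1 : θ < n) (l r : Aff n) (h : C.step g = .mul l r) :
    C.cut D θ g = ∑ i ∈ range (n + 1), ∑ j ∈ range (n + 1),
      if (i ≤ θ ∧ j ≤ θ) ∧ θ < i + j ∧ i + j ≤ n then homogeneousComponent i (C.pa l g) *
        homogeneousComponent j (C.pa r g) * homogeneousComponent (n - i - j) (D g) else 0 := by
  unfold Circuit.cut
  rw [h]
  simp only
  have h2 : range (θ + 1) = (range (n + 1)).filter (fun i => i ≤ θ) := by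
    ext i
    simp only [Finset.mem_filter, Finset.mem_range]
    omega
  rw [h2, Finset.sum_filter]
  refine Finset.sum_congr rfl fun i _ => ?_
  by_cases hi : i ≤ θ
  · rw [if_pos hi, Finset.sum_filter]
    refine Finset.sum_congr rfl fun j _ => ?_
    by_cases hj : j ≤ θ
    · rw [if_pos hj]
      by_cases h3 : θ < i + j ∧ i + j ≤ n
      · rw [if_pos h3, if_pos ⟨⟨hi, hj⟩, h3⟩]
      · rw [if_neg h3, if_neg (fun h4 => h3 h4.2)]
    · rw [if_neg hj, if_neg (fun h4 => hj h4.1.2)]
  · rw [if_neg hi]
    symm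
    refine Finset.sum_eq_zero fun j _ => ?_
    rw [if_neg (fun h4 => hi h4.1.1)]

theorem gp_eq (C : Circuit n) (D : ℕ → MvPolynomial (Fin n × Fin n) ℂ) (θ g : ℕ)
    (h1 : C.Low θ) (hg : g < C.s) (h2 : θ < n) (h3 : n ≤ 2 * θ) :
    gp C D θ g = gn C D θ g + C.cut D θ g := by
  cases h : C.step g with
  | mul l r =>
    rw [gp_eq_mul C D θ g l r h, gn_eq_mul C D θ g l r (h1.2 g l r hg h) h, cut_eq_mul C D θ g h2 l r h]
    simp only [← Finset.sum_add_distrib]
    refine Finset.sum_congr rfl fun i _ => Finset.sum_congr rfl fun j _ => ?_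
    by_cases h4 : i + j ≤ n
    · by_cases h5 : θ < i
      · have h6 : ¬ θ < j := by omega
        have h7 : θ < i + j := by omega
        have h8 : ¬ i ≤ θ := by omega
        simp [h4, h5, h6, h7, h8]
      · by_cases h6 : θ < j
        · have h7 : θ < i + j := by omega
          have h8 : ¬ j ≤ θ := by omega
          simp [h4, h5, h6, h7, h8]
        · have h7 : i ≤ θ := by omega
          have h8 : j ≤ θ := by omega
          simp [h4, h5, h6, h7, h8]
    · simp [h4]
  | minors A c =>
    have e1 : gn C D θ g = 0 := by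
      unfold gn
      refine Finset.sum_eq_zero fun a _ => Finset.sum_eq_zero fun d _ => ?_
      have e2 : mt C D a g = 0 := by
        unfold mt
        rw [h]
      rw [e2, map_zero, mul_zero]
    rw [e1, zero_add]
    unfold gp Circuit.cut
    rw [h]
    simp only
    refine Finset.sum_congr rfl fun d hd => ?_
    rw [Finset.mem_Ioc] at hd
    congr 1
    rw [pv_minors C g A c h, map_sum, Finset.sum_eq_single d]
    · rw [homogeneousComponent_of_mem (mnr_hom A c d), if_pos rfl]
    · intro k _ hk
      rw [homogeneousComponent_of_mem (mnr_hom A c k), if_neg (fun h5 => hk h5.symm)]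
    · intro hn
      exact absurd (Finset.mem_range.mpr (by omega)) hn

theorem sum_gp (C : Circuit n) (D : ℕ → MvPolynomial (Fin n × Fin n) ℂ) (θ : ℕ)
    (hD : IsBack C D) (h1 : C.Low θ) (h2 : θ < n) :
    ∑ a ∈ range C.s, gp C D θ a =
      homogeneousComponent n (C.output 1 MvPolynomial.X : MvPolynomial (Fin n × Fin n) ℂ) +
      ∑ g ∈ range C.s, gn C D θ g := by
  have e0 : (C.output 1 MvPolynomial.X : MvPolynomial (Fin n × Fin n) ℂ) = C.pa C.out C.s := rfl
  rw [e0, hc_pa C C.out C.s n (lt_of_le_of_lt h1.1 h2)]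
  have e1 : ∀ a ∈ range C.s, gp C D θ a =
      MvPolynomial.C (C.out.v a) * homogeneousComponent n (C.pv a) +
      ∑ g ∈ Ioo a C.s, ∑ d ∈ Ioc θ n,
        homogeneousComponent d (C.pv a) * homogeneousComponent (n - d) (mt C D a g) := by
    intro a ha
    have hda : D a = MvPolynomial.C (C.out.v a) + ∑ g ∈ Ioo a C.s, mt C D a g :=
      hD a (Finset.mem_range.mp ha)
    unfold gp
    have e2 : ∀ d ∈ Ioc θ n, homogeneousComponent d (C.pv a) *
        homogeneousComponent (n - d) (D a) =
        (if d = n then MvPolynomial.C (C.out.v a) * homogeneousComponent n (C.pv a) else 0) +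
        ∑ g ∈ Ioo a C.s, homogeneousComponent d (C.pv a) *
          homogeneousComponent (n - d) (mt C D a g) := by
      intro d hd
      rw [Finset.mem_Ioc] at hd
      rw [hda, map_add, map_sum, mul_add, Finset.mul_sum]
      congr 1
      rw [homogeneousComponent_of_mem (isHomogeneous_C _ _)]
      by_cases h : d = n
      · subst h
        rw [if_pos (by omega), if_pos rfl, mul_comm]
      · rw [if_neg (by omega), if_neg h, mul_zero]
    rw [Finset.sum_congr rfl e2, Finset.sum_add_distrib]
    congr 1
    · rw [Finset.sum_ite_eq' (Ioc θ n) n, if_pos (Finset.mem_Ioc.mpr ⟨h2, le_refl n⟩)]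
    · rw [Finset.sum_comm]
  rw [Finset.sum_congr rfl e1, Finset.sum_add_distrib]
  congr 1
  unfold gn
  refine Finset.sum_comm' ?_
  intro a g
  simp only [Finset.mem_range, Finset.mem_Ioo]
  omega

/-- Row CUT. -/
theorem rowCut : RowCut := by
  intro n θ C D hD h1 h3 h2
  have e1 := sum_gp C D θ hD h1 h2
  have e2 : ∑ a ∈ range C.s, gp C D θ a =
      ∑ g ∈ range C.s, gn C D θ g + ∑ g ∈ range C.s, C.cut D θ g := by
    rw [← Finset.sum_add_distrib]
    exact Finset.sum_congr rfl fun g hg => gp_eq C D θ g h1 (Finset.mem_range.1 hg) h2 h3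
  rw [e1, add_comm] at e2
  exact add_left_cancel e2

end Circ

end Pool.Agent.SC
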