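import Mathlib
import Pool.Agent.SC.Defs

/-!
# Homogeneous factors and polynomials of bounded growth
-/

set_option autoImplicit false

namespace Pool.Agent.SC

open MvPolynomial

variable {σ : Type}

/-- The substitution `x i ↦ x i * T`. -/
noncomputable def tsub : MvPolynomial σ ℂ →ₐ[ℂ] Polynomial (MvPolynomial σ ℂ) :=
  aeval fun i => Polynomial.C (X i) * Polynomial.X

theorem tsub_monomial (a : σ →₀ ℕ) (c : ℂ) :
    tsub (monomial a c) = Polynomial.C (monomial a c) * Polynomial.X ^ a.degree := by
  unfold tsub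
  rw [aeval_monomial]
  have h1 : (a.prod fun i k => (Polynomial.C (X i : MvPolynomial σ ℂ) * Polynomial.X) ^ k) =
      Polynomial.C (a.prod fun i k => (X i : MvPolynomial σ ℂ) ^ k) * Polynomial.X ^ a.degree := by
    unfold Finsupp.prod
    rw [map_prod, Finsupp.degree_apply, ← Finset.prod_pow_eq_pow_sum, ← Finset.prod_mul_distrib]
    refine Finset.prod_congr rfl fun i _ => ?_
    dsimp only
    rw [mul_pow, map_pow]
  rw [h1, monomial_eq, map_mul, mul_assoc]
  rfl

theorem coeff_tsub (p : MvPolynomial σ ℂ) (i : ℕ) :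
    (tsub p).coeff i = homogeneousComponent i p := by
  conv_lhs => rw [p.as_sum]
  rw [map_sum, Polynomial.finsetSum_coeff, homogeneousComponent_apply, Finset.sum_filter]
  refine Finset.sum_congr rfl fun a _ => ?_
  rw [tsub_monomial, Polynomial.coeff_C_mul, Polynomial.coeff_X_pow]
  by_cases h : i = a.degree
  · rw [if_pos h, if_pos h.symm, mul_one]
  · rw [if_neg h, if_neg (Ne.symm h), mul_zero]

theorem tsub_ne_zero {p : MvPolynomial σ ℂ} (hp : p ≠ 0) : tsub p ≠ 0 := by
  intro h
  apply hp
  have h1 : ∀ i, homogeneousComponent i p = 0 := fun i => by rw [← coeff_tsub, h]; rfl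
  rw [← sum_homogeneousComponent p]
  exact Finset.sum_eq_zero fun i _ => h1 i

theorem isHomogeneous_of_component {p : MvPolynomial σ ℂ} {i : ℕ}
    (h : ∀ j, j ≠ i → homogeneousComponent j p = 0) : p.IsHomogeneous i := by
  have h1 : p = homogeneousComponent i p := by
    by_cases hi : i ≤ p.totalDegree
    · conv_lhs => rw [← sum_homogeneousComponent p]
      rw [Finset.sum_eq_single i (fun j _ hj => h j hj)]
      intro h2
      exact absurd (Finset.mem_range.2 (Nat.lt_succ_of_le hi)) h2
    · have h2 : p = 0 := by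
        rw [← sum_homogeneousComponent p]
        refine Finset.sum_eq_zero fun j hj => h j ?_
        have := Finset.mem_range.1 hj
        omega
      rw [h2, map_zero]
  rw [h1]
  exact homogeneousComponent_isHomogeneous i p

theorem hom_factor {m : ℕ} {g h : MvPolynomial σ ℂ} (h0 : g * h ≠ 0)
    (hm : (g * h).IsHomogeneous m) :
    ∃ i j, i + j = m ∧ g.IsHomogeneous i ∧ h.IsHomogeneous j := by
  have hg : g ≠ 0 := left_ne_zero_of_mul h0
  have hh : h ≠ 0 := right_ne_zero_of_mul h0
  have key : tsub g * tsub h = Polynomial.C (g * h) * Polynomial.X ^ m := by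
    rw [← map_mul]
    ext1 i
    rw [coeff_tsub, Polynomial.coeff_C_mul, Polynomial.coeff_X_pow,
      homogeneousComponent_of_mem (n := m) hm]
    by_cases h : i = m
    · rw [if_pos h, if_pos h, mul_one]
    · rw [if_neg h, if_neg h, mul_zero]
  have e1 : (tsub g).natDegree + (tsub h).natDegree = m := by
    rw [← Polynomial.natDegree_mul (tsub_ne_zero hg) (tsub_ne_zero hh), key,
      Polynomial.natDegree_C_mul_X_pow _ _ h0]
  have e2 : (tsub g).natTrailingDegree + (tsub h).natTrailingDegree = m := by
    rw [← Polynomial.natTrailingDegree_mul (tsub_ne_zero hg) (tsub_ne_zero hh), key,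
      Polynomial.C_mul_X_pow_eq_monomial, Polynomial.natTrailingDegree_monomial h0]
  have l1 := Polynomial.natTrailingDegree_le_natDegree (tsub g)
  have l2 := Polynomial.natTrailingDegree_le_natDegree (tsub h)
  have comp : ∀ p : MvPolynomial σ ℂ, (tsub p).natTrailingDegree = (tsub p).natDegree →
      p.IsHomogeneous (tsub p).natDegree := by
    intro p hp
    refine isHomogeneous_of_component fun j hj => ?_
    rw [← coeff_tsub]
    rcases lt_or_gt_of_ne hj with h1 | h1
    · exact Polynomial.coeff_eq_zero_of_lt_natTrailingDegree (by omega)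
    · exact Polynomial.coeff_eq_zero_of_natDegree_lt h1
  exact ⟨_, _, e1, comp g (by omega), comp h (by omega)⟩

variable [Fintype σ]

theorem mf_pos' (a : σ →₀ ℕ) : 0 < mf a :=
  Finset.prod_pos fun i _ => by exact_mod_cast Nat.factorial_pos _

omit [Fintype σ] in
theorem coeff_bind_scale (r : ℂ) (p : MvPolynomial σ ℂ) (a : σ →₀ ℕ) :
    (bind₁ (fun i => C r * X i) p).coeff a = r ^ a.degree * p.coeff a := by
  classical
  induction p using MvPolynomial.induction_on' with
  | monomial b c =>
    have h1 : bind₁ (fun i => C r * X i) (monomial b c) = monomial b (r ^ b.degree * c) := by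
      rw [bind₁, aeval_monomial]
      have h2 : (b.prod fun i k => (C r * (X i : MvPolynomial σ ℂ)) ^ k) =
          C (r ^ b.degree) * b.prod fun i k => (X i : MvPolynomial σ ℂ) ^ k := by
        unfold Finsupp.prod
        rw [Finsupp.degree_apply, ← Finset.prod_pow_eq_pow_sum, map_prod,
          ← Finset.prod_mul_distrib]
        refine Finset.prod_congr rfl fun i _ => ?_
        dsimp only
        rw [mul_pow, map_pow]
      rw [h2, algebraMap_eq, ← mul_assoc, ← map_mul, mul_comm c, monomial_eq]
    rw [h1, coeff_monomial, coeff_monomial]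
    by_cases h : b = a
    · rw [if_pos h, if_pos h, h]
    · rw [if_neg h, if_neg h, mul_zero]
  | add p q hp hq => rw [map_add, coeff_add, coeff_add, hp, hq, mul_add]

theorem le_fn (p : MvPolynomial σ ℂ) (a : σ →₀ ℕ) : mf a * ‖p.coeff a‖ ^ 2 ≤ fn p := by
  by_cases ha : a ∈ p.support
  · unfold fn
    exact Finset.single_le_sum (f := fun a => mf a * ‖p.coeff a‖ ^ 2)
      (fun b _ => mul_nonneg (mf_pos' b).le (sq_nonneg _)) ha
  · rw [notMem_support_iff.1 ha, norm_zero]
    rw [zero_pow two_ne_zero, mul_zero]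
    exact Finset.sum_nonneg fun b _ => mul_nonneg (mf_pos' b).le (sq_nonneg _)

theorem hom_growth {m : ℕ} {K : ℝ} {p : MvPolynomial σ ℂ}
    (h : ∀ r : ℝ, 0 < r → fn (bind₁ (fun i => C (r : ℂ) * X i) p) ≤ K * r ^ (2 * m)) :
    p.IsHomogeneous m := by
  intro a ha
  rw [Finsupp.weight_apply] 
  by_contra hne
  have hdeg : a.degree ≠ m := by
    intro h1
    apply hne
    rw [← h1, Finsupp.degree_apply]
    simp [Finsupp.sum]
  set c := mf a * ‖p.coeff a‖ ^ 2 with hc
  have hcpos : 0 < c := mul_pos (mf_pos' a) (by positivity)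
  have key : ∀ r : ℝ, 0 < r → c * r ^ (2 * a.degree) ≤ K * r ^ (2 * m) := by
    intro r hr
    refine le_trans (le_of_eq ?_) ((le_fn _ a).trans (h r hr))
    rw [coeff_bind_scale, norm_mul, norm_pow, Complex.norm_real, Real.norm_of_nonneg hr.le,
      mul_pow, ← pow_mul, mul_comm a.degree 2, hc]
    ring
  have hK : 0 < K := by
    have := key 1 one_pos
    simp only [one_pow, mul_one] at this
    exact hcpos.trans_le this
  rcases lt_or_gt_of_ne hdeg with h1 | h1
  · -- small `r`
    have h2 : c / (2 * K) > 0 := by positivity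
    set r := min 1 (c / (2 * K)) with hr
    have hr0 : 0 < r := lt_min one_pos h2
    have hr1 : r ≤ 1 := min_le_left _ _
    have h3 := key r hr0
    have h4 : r ^ (2 * m) ≤ r ^ (2 * a.degree) * r := by
      rw [← pow_succ]
      exact pow_le_pow_of_le_one hr0.le hr1 (by omega)
    have h5 : 0 < r ^ (2 * a.degree) := by positivity
    have h6 : c * r ^ (2 * a.degree) ≤ K * r * r ^ (2 * a.degree) := by
      calc c * r ^ (2 * a.degree) ≤ K * r ^ (2 * m) := h3
        _ ≤ K * (r ^ (2 * a.degree) * r) := by gcongr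
        _ = _ := by ring
    have h7 : c ≤ K * r := le_of_mul_le_mul_right h6 h5
    have h8 : K * r ≤ K * (c / (2 * K)) := by gcongr; exact min_le_right _ _
    have h9 : K * (c / (2 * K)) = c / 2 := by field_simp
    linarith
  · -- large `r`
    set r := max 1 (2 * K / c) with hr
    have hr1 : 1 ≤ r := le_max_left _ _
    have hr0 : 0 < r := one_pos.trans_le hr1
    have h3 := key r hr0
    have h4 : r ^ (2 * m) * r ≤ r ^ (2 * a.degree) := by
      rw [← pow_succ]
      exact pow_le_pow_right₀ hr1 (by omega)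
    have h5 : 0 < r ^ (2 * m) := by positivity
    have h6 : c * r * r ^ (2 * m) ≤ K * r ^ (2 * m) := by
      calc c * r * r ^ (2 * m) = c * (r ^ (2 * m) * r) := by ring
        _ ≤ c * r ^ (2 * a.degree) := by gcongr
        _ ≤ _ := h3
    have h7 : c * r ≤ K := le_of_mul_le_mul_right h6 h5
    have h8 : c * (2 * K / c) ≤ c * r := by gcongr; exact le_max_right _ _
    have h9 : c * (2 * K / c) = 2 * K := by field_simp
    linarith

theorem rowHom : RowHom :=
  ⟨fun _ _ _ _ h0 hm => hom_factor h0 hm, fun _ _ _ _ h => hom_growth h⟩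

end Pool.Agent.SC
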