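import Mathlib

/-!
# Numerical estimates
-/

set_option autoImplicit false

namespace Pool.Agent.SC

theorem two_e_pow (n : ℕ) (hn : 13 ≤ n) : (2 * Real.exp 1) ^ n ≤ (n.factorial : ℝ) := by
  have he := Real.exp_one_lt_d9
  have he0 : 0 < Real.exp 1 := Real.exp_pos 1
  induction n, hn using Nat.le_induction with
  | base =>
    have h1 : (2 * Real.exp 1) ^ 13 ≤ (5.44 : ℝ) ^ 13 := by
      apply pow_le_pow_left₀ (by positivity); linarith
    refine h1.trans ?_
    norm_num [Nat.factorial]
  | succ n hn ih =>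
    rw [pow_succ, Nat.factorial_succ, Nat.cast_mul, mul_comm]
    have h2 : (13 : ℝ) ≤ n := by exact_mod_cast hn
    refine mul_le_mul ?_ ih (by positivity) (by positivity)
    push_cast
    linarith

theorem num_aux (j : ℕ) : ∀ n : ℕ, 13 ≤ n → 3 * j < n →
    (2 * Real.exp 1) ^ n * (j.factorial : ℝ) ≤ (n.factorial : ℝ) * Real.exp 1 ^ j := by
  have he1 := Real.exp_one_lt_d9
  have he2 := Real.exp_one_gt_d9
  have he0 : 0 < Real.exp 1 := Real.exp_pos 1
  induction j with
  | zero =>
    intro n hn _
    rw [Nat.factorial_zero, pow_zero]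
    push_cast
    rw [mul_one, mul_one]
    exact two_e_pow n hn
  | succ j ih =>
    intro n hn hj
    by_cases h5 : j + 1 ≤ 5
    · have h1 : ((j + 1).factorial : ℝ) ≤ Real.exp 1 ^ (j + 1) := by
        have h2 : ((2.7 : ℝ)) ^ (j + 1) ≤ Real.exp 1 ^ (j + 1) := by
          apply pow_le_pow_left₀ (by norm_num); linarith
        refine le_trans ?_ h2
        have h6 : j ≤ 4 := by omega
        clear ih hj h2 h5
        interval_cases j <;> norm_num [Nat.factorial]
      exact mul_le_mul (two_e_pow n hn) h1 (by positivity) (by positivity)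
    · obtain ⟨m, rfl⟩ : ∃ m, n = m + 3 := ⟨n - 3, by omega⟩
      have h1 := ih m (by omega) (by omega)
      have hm : (16 : ℝ) ≤ m := by
        have : 16 ≤ m := by omega
        exact_mod_cast this
      have hjm : 3 * ((j : ℝ) + 1) ≤ m + 3 := by
        have : 3 * (j + 1) ≤ m + 3 := by omega
        exact_mod_cast this
      have h2 : (2 * Real.exp 1) ^ 3 * ((j : ℝ) + 1) ≤
          ((m : ℝ) + 3) * (m + 2) * (m + 1) * Real.exp 1 := by
        have h3 : (2 * Real.exp 1) ^ 3 ≤ 3 * ((m : ℝ) + 2) * (m + 1) * Real.exp 1 := by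
          have h4 : 8 * Real.exp 1 ^ 2 ≤ 3 * ((m : ℝ) + 2) * (m + 1) := by
            have h5 : Real.exp 1 ^ 2 ≤ 8 := by nlinarith
            nlinarith
          nlinarith
        calc (2 * Real.exp 1) ^ 3 * ((j : ℝ) + 1)
            ≤ (3 * ((m : ℝ) + 2) * (m + 1) * Real.exp 1) * ((j : ℝ) + 1) := by gcongr
          _ = (3 * ((j : ℝ) + 1)) * (((m : ℝ) + 2) * (m + 1) * Real.exp 1) := by ring
          _ ≤ (m + 3) * (((m : ℝ) + 2) * (m + 1) * Real.exp 1) := by gcongr
          _ = _ := by ring
      have hf : ((m + 3).factorial : ℝ) = (m + 3) * (m + 2) * (m + 1) * m.factorial := by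
        rw [Nat.factorial_succ, Nat.factorial_succ, Nat.factorial_succ]
        push_cast
        ring
      have hg : ((j + 1).factorial : ℝ) = (j + 1) * j.factorial := by
        rw [Nat.factorial_succ]; push_cast; ring
      rw [hf, hg]
      calc (2 * Real.exp 1) ^ (m + 3) * (((j : ℝ) + 1) * j.factorial)
          = ((2 * Real.exp 1) ^ 3 * ((j : ℝ) + 1)) * ((2 * Real.exp 1) ^ m * j.factorial) := by ring
        _ ≤ (((m : ℝ) + 3) * (m + 2) * (m + 1) * Real.exp 1) *
            ((m.factorial : ℝ) * Real.exp 1 ^ j) := by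
            refine mul_le_mul h2 h1 (by positivity) (by positivity)
        _ = _ := by ring

/-- Row NUM. -/
theorem num (n k : ℕ) (hn : 13 ≤ n) (hk : k ≤ n) (h : 2 * n < 3 * k) :
    Real.exp k * ((n - k).factorial : ℝ) * 2 ^ n ≤ (n.factorial : ℝ) := by
  obtain ⟨j, rfl⟩ : ∃ j, n = k + j := ⟨n - k, by omega⟩
  have h1 := num_aux j (k + j) hn (by omega)
  rw [Nat.add_sub_cancel_left]
  have h2 : Real.exp k = Real.exp 1 ^ k := by rw [← Real.exp_nat_mul, mul_one]
  rw [h2]
  have he0 : 0 < Real.exp 1 ^ j := by positivity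
  refine le_of_mul_le_mul_right ?_ he0
  refine le_trans (le_of_eq ?_) h1
  rw [mul_pow, pow_add (Real.exp 1)]
  ring

theorem choose_ge {n m i : ℕ} (h1 : m ≤ i) (h2 : i + m ≤ n) : n.choose m ≤ n.choose i := by
  rcases le_total (2 * i) n with h | h
  · -- the increasing half
    have key : ∀ i, m ≤ i → 2 * i ≤ n → n.choose m ≤ n.choose i := by
      intro i hi
      induction i, hi using Nat.le_induction with
      | base => intro _; exact le_rfl
      | succ i _ ih =>
        intro h
        exact (ih (by omega)).trans (Nat.choose_le_succ_of_lt_half_left (by omega))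
    exact key i h1 h
  · have key : ∀ i, m ≤ i → 2 * i ≤ n → n.choose m ≤ n.choose i := by
      intro i hi
      induction i, hi using Nat.le_induction with
      | base => intro _; exact le_rfl
      | succ i _ ih =>
        intro h
        exact (ih (by omega)).trans (Nat.choose_le_succ_of_lt_half_left (by omega))
    have h3 := key (n - i) (by omega) (by omega)
    rwa [Nat.choose_symm (by omega)] at h3

end Pool.Agent.SC
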