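import Mathlib
import Pool.Agent.SC.Hom
import Pool.Agent.SC.Num

/-!
# The permanent polynomial and the functional `LL`
-/

set_option autoImplicit false

namespace Pool.Agent.SC

open MvPolynomial

variable {n : ℕ}

theorem pm_apply (τ : Equiv.Perm (Fin n)) (I : Finset (Fin n)) (i j : Fin n) :
    pm τ I (i, j) = if i ∈ I ∧ τ i = j then 1 else 0 := by
  classical
  unfold pm
  rw [Finsupp.finsetSum_apply]
  have h : ∀ l ∈ I, (Finsupp.single (l, τ l) 1 : Fin n × Fin n →₀ ℕ) (i, j) =
      if l = i then (if τ i = j then 1 else 0) else 0 := by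
    intro l _
    rw [Finsupp.single_apply]
    by_cases h1 : l = i
    · subst h1
      simp [Prod.ext_iff]
    · simp [Prod.ext_iff, h1]
  rw [Finset.sum_congr rfl h, Finset.sum_ite_eq']
  by_cases h1 : i ∈ I <;> by_cases h2 : τ i = j <;> simp [h1, h2]

theorem pm_inj {τ τ' : Equiv.Perm (Fin n)} (h : pm τ Finset.univ = pm τ' Finset.univ) :
    τ = τ' := by
  ext i
  have h1 := DFunLike.congr_fun h (i, τ i)
  rw [pm_apply, pm_apply] at h1
  simp only [Finset.mem_univ, true_and, if_true] at h1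
  by_cases h2 : τ' i = τ i
  · rw [h2]
  · rw [if_neg h2] at h1
    exact absurd h1 one_ne_zero

theorem mf_pm (τ : Equiv.Perm (Fin n)) (I : Finset (Fin n)) : mf (pm τ I) = 1 := by
  unfold mf
  refine Finset.prod_eq_one fun x _ => ?_
  obtain ⟨i, j⟩ := x
  rw [pm_apply]
  split_ifs <;> simp

theorem degree_pm (τ : Equiv.Perm (Fin n)) (I : Finset (Fin n)) : (pm τ I).degree = I.card := by
  unfold pm
  rw [map_sum]
  simp

/-- The permanent as a polynomial. -/
noncomputable def permPoly (n : ℕ) : MvPolynomial (Fin n × Fin n) ℂ :=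
  ∑ τ : Equiv.Perm (Fin n), monomial (pm τ Finset.univ) 1

theorem permPoly_eq : permPoly n = Matrix.permanent (Matrix.of fun i j => X (i, j)) := by
  unfold permPoly Matrix.permanent
  rw [← Equiv.sum_comp (Equiv.inv (Equiv.Perm (Fin n)))]
  refine Finset.sum_congr rfl fun τ _ => ?_
  unfold pm
  rw [monomial_sum_one]
  simp only [Equiv.inv_apply, Matrix.of_apply]
  rw [← Equiv.prod_comp τ]
  refine Finset.prod_congr rfl fun i _ => ?_
  rw [show τ⁻¹ (τ i) = i from τ.symm_apply_apply i]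
  rfl

theorem eval_permPoly (x : Fin n × Fin n → ℂ) : eval x (permPoly n) = perm x := by
  rw [permPoly_eq]
  unfold perm Matrix.permanent
  rw [map_sum]
  refine Finset.sum_congr rfl fun τ _ => ?_
  rw [map_prod]
  refine Finset.prod_congr rfl fun i _ => ?_
  simp

theorem coeff_permPoly (τ : Equiv.Perm (Fin n)) :
    (permPoly n).coeff (pm τ Finset.univ) = 1 := by
  classical
  unfold permPoly
  rw [coeff_sum]
  simp only [coeff_monomial]
  rw [Finset.sum_eq_single τ]
  · rw [if_pos rfl]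
  · intro τ' _ h
    rw [if_neg fun h' => h (pm_inj h')]
  · intro h
    exact absurd (Finset.mem_univ τ) h

theorem LL_permPoly : LL (permPoly n) = (n.factorial : ℂ) := by
  unfold LL
  rw [Finset.sum_congr rfl fun τ _ => coeff_permPoly τ]
  simp [Fintype.card_perm]

theorem LL_sub (p q : MvPolynomial (Fin n × Fin n) ℂ) : LL (p - q) = LL p - LL q := by
  unfold LL
  rw [← Finset.sum_sub_distrib]
  exact Finset.sum_congr rfl fun τ _ => coeff_sub _ _ _ _

theorem LL_sum {ι : Type} (s : Finset ι) (f : ι → MvPolynomial (Fin n × Fin n) ℂ) :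
    LL (∑ i ∈ s, f i) = ∑ i ∈ s, LL (f i) := by
  unfold LL
  rw [Finset.sum_comm]
  exact Finset.sum_congr rfl fun τ _ => coeff_sum _ _ _

theorem LL_component (p : MvPolynomial (Fin n × Fin n) ℂ) :
    LL (homogeneousComponent n p) = LL p := by
  unfold LL
  refine Finset.sum_congr rfl fun τ _ => ?_
  rw [coeff_homogeneousComponent, degree_pm, if_pos (by simp)]

theorem fn_eq_of_subset {σ : Type} [Fintype σ] {p : MvPolynomial σ ℂ} {s : Finset (σ →₀ ℕ)}
    (h : p.support ⊆ s) : fn p = ∑ a ∈ s, mf a * ‖p.coeff a‖ ^ 2 := by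
  unfold fn
  refine Finset.sum_subset h fun a _ ha => ?_
  rw [notMem_support_iff.1 ha, norm_zero, zero_pow two_ne_zero, mul_zero]

theorem sum_perm_le (p : MvPolynomial (Fin n × Fin n) ℂ) :
    ∑ τ : Equiv.Perm (Fin n), ‖p.coeff (pm τ Finset.univ)‖ ^ 2 ≤ fn p := by
  classical
  set s := (Finset.univ : Finset (Equiv.Perm (Fin n))).image fun τ => pm τ Finset.univ with hs
  rw [fn_eq_of_subset (s := p.support ∪ s) Finset.subset_union_left]
  calc ∑ τ : Equiv.Perm (Fin n), ‖p.coeff (pm τ Finset.univ)‖ ^ 2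
      = ∑ a ∈ s, mf a * ‖p.coeff a‖ ^ 2 := by
        rw [hs, Finset.sum_image fun τ _ τ' _ h => pm_inj h]
        refine Finset.sum_congr rfl fun τ _ => ?_
        rw [mf_pm, one_mul]
    _ ≤ _ := Finset.sum_le_sum_of_subset_of_nonneg Finset.subset_union_right
        fun a _ _ => mul_nonneg (mf_pos' a).le (sq_nonneg _)

theorem norm_LL_sq (p : MvPolynomial (Fin n × Fin n) ℂ) :
    ‖LL p‖ ^ 2 ≤ (n.factorial : ℝ) * fn p := by
  have h1 : ‖LL p‖ ≤ ∑ τ : Equiv.Perm (Fin n), ‖p.coeff (pm τ Finset.univ)‖ := norm_sum_le _ _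
  have h2 : (∑ τ : Equiv.Perm (Fin n), ‖p.coeff (pm τ Finset.univ)‖) ^ 2 ≤
      (Finset.univ : Finset (Equiv.Perm (Fin n))).card *
        ∑ τ : Equiv.Perm (Fin n), ‖p.coeff (pm τ Finset.univ)‖ ^ 2 := sq_sum_le_card_mul_sum_sq
  rw [Finset.card_univ, Fintype.card_perm, Fintype.card_fin] at h2
  calc ‖LL p‖ ^ 2 ≤ (∑ τ : Equiv.Perm (Fin n), ‖p.coeff (pm τ Finset.univ)‖) ^ 2 := by
        gcongr
    _ ≤ _ := h2
    _ ≤ _ := by gcongr; exact sum_perm_le p

theorem fn_permPoly : fn (permPoly n) = (n.factorial : ℝ) := by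
  classical
  set s := (Finset.univ : Finset (Equiv.Perm (Fin n))).image fun τ => pm τ Finset.univ with hs
  rw [fn_eq_of_subset (s := s)]
  · rw [hs, Finset.sum_image fun τ _ τ' _ h => pm_inj h]
    have : ∀ τ ∈ (Finset.univ : Finset (Equiv.Perm (Fin n))),
        mf (pm τ Finset.univ) * ‖(permPoly n).coeff (pm τ Finset.univ)‖ ^ 2 = 1 := by
      intro τ _
      rw [mf_pm, coeff_permPoly]
      simp
    rw [Finset.sum_congr rfl this]
    simp [Fintype.card_perm]
  · intro a ha
    rw [mem_support_iff] at ha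
    by_contra h
    apply ha
    unfold permPoly
    rw [coeff_sum]
    refine Finset.sum_eq_zero fun τ _ => ?_
    rw [coeff_monomial, if_neg]
    intro h'
    apply h
    rw [hs, ← h']
    exact Finset.mem_image_of_mem _ (Finset.mem_univ τ)

/-- The part of degree `k` of a combination of minors is homogeneous. -/
theorem mnr_homogeneous (A : Fin n × Fin n → ℂ)
    (c : (k : ℕ) → (Fin k → Fin n) → (Fin k → Fin n) → ℂ) (k : ℕ) :
    (mnr A c X k : MvPolynomial (Fin n × Fin n) ℂ).IsHomogeneous k := by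
  unfold mnr
  refine IsHomogeneous.sum _ _ _ fun p _ => IsHomogeneous.sum _ _ _ fun q _ => ?_
  rw [algebraMap_eq]
  refine IsHomogeneous.C_mul ?_ _
  rw [Matrix.det_apply]
  refine IsHomogeneous.sum _ _ _ fun π _ => ?_
  have h1 : (∏ i : Fin k, (Matrix.of fun a b => C (A (p a, q b)) * X (p a, q b) :
      Matrix (Fin k) (Fin k) (MvPolynomial (Fin n × Fin n) ℂ)) (π i) i).IsHomogeneous k := by
    have h2 := IsHomogeneous.prod (R := ℂ) Finset.univ (fun i : Fin k =>
      (Matrix.of fun a b => C (A (p a, q b)) * X (p a, q b) :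
      Matrix (Fin k) (Fin k) (MvPolynomial (Fin n × Fin n) ℂ)) (π i) i) (fun _ => 1)
      (fun i _ => isHomogeneous_C_mul_X _ _)
    simpa using h2
  rcases Int.units_eq_one_or (Equiv.Perm.sign π) with h | h
  · rw [h, one_smul]; exact h1
  · rw [h, Units.neg_smul, one_smul]; exact h1.neg

end Pool.Agent.SC
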