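import Mathlib
import Pool.Agent.SC.Perm

/-!
# The lower bound, from the rows
-/

set_option autoImplicit false

namespace Pool.Agent.SC

open MvPolynomial

variable {n : ℕ}

section map

variable {R S : Type} [CommRing R] [Algebra ℂ R] [CommRing S] [Algebra ℂ S] (f : R →ₐ[ℂ] S)

theorem mnr_map (A : Fin n × Fin n → ℂ) (c : (k : ℕ) → (Fin k → Fin n) → (Fin k → Fin n) → ℂ)
    (X : Fin n × Fin n → R) (k : ℕ) : f (mnr A c X k) = mnr A c (fun i => f (X i)) k := by
  unfold mnr
  rw [map_sum]
  refine Finset.sum_congr rfl fun p _ => ?_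
  rw [map_sum]
  refine Finset.sum_congr rfl fun q _ => ?_
  rw [map_mul, AlgHom.commutes, AlgHom.map_det]
  congr 2
  ext a b
  simp

theorem ev_map (l : Aff n) (X : Fin n × Fin n → R) (g : ℕ) (v : Fin g → R) :
    f (l.ev X g v) = l.ev (fun i => f (X i)) g fun a => f (v a) := by
  unfold Aff.ev
  simp only [map_add, map_sum, map_mul, AlgHom.commutes]
  rw [comp_aeval_apply]

theorem val_map (C : Circuit n) (ρ : ℕ → R) (X : Fin n × Fin n → R) (g : ℕ) :
    f (C.val ρ X g) = C.val (fun a => f (ρ a)) (fun i => f (X i)) g := by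
  induction g using Nat.strong_induction_on with
  | _ g ih =>
    rw [Circuit.val, Circuit.val, map_mul]
    congr 1
    rcases C.step g with ⟨l, r⟩ | ⟨A, c⟩
    · show f (l.ev X g _ * r.ev X g _) = l.ev _ g _ * r.ev _ g _
      rw [map_mul, ev_map, ev_map]
      have h1 : (fun a : Fin g => f (C.val ρ X a)) =
          fun a : Fin g => C.val (fun a => f (ρ a)) (fun i => f (X i)) a :=
        funext fun a => ih a a.2
      rw [h1]
    · show f (∑ k ∈ Finset.range (n + 1), mnr A c X k) = ∑ k ∈ Finset.range (n + 1), mnr A c _ k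
      rw [map_sum]
      exact Finset.sum_congr rfl fun k _ => mnr_map f A c X k

theorem output_map (C : Circuit n) (ρ : ℕ → R) (X : Fin n × Fin n → R) :
    f (C.output ρ X) = C.output (fun a => f (ρ a)) fun i => f (X i) := by
  unfold Circuit.output
  rw [ev_map]
  congr 1
  exact funext fun a => val_map f C ρ X a

end map

theorem output_eq (C : Circuit n) (x : Fin n × Fin n → ℂ) :
    C.output 1 x = eval x (C.output 1 MvPolynomial.X) := by
  have h := output_map (aeval x : MvPolynomial (Fin n × Fin n) ℂ →ₐ[ℂ] ℂ) C 1 MvPolynomial.X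
  have h2 : (fun a : ℕ => (aeval x : MvPolynomial (Fin n × Fin n) ℂ →ₐ[ℂ] ℂ)
      ((1 : ℕ → MvPolynomial (Fin n × Fin n) ℂ) a)) = 1 := funext fun a => by simp
  have h3 : (fun i => (aeval x : MvPolynomial (Fin n × Fin n) ℂ →ₐ[ℂ] ℂ)
      (MvPolynomial.X i)) = x := funext fun a => by simp
  rw [h2, h3] at h
  rw [← h]
  rfl

/-- Condition of `RowFlat` with `D = k!`. -/
theorem flat_trivial {k : ℕ} (g : MvPolynomial (Fin n × Fin n) ℂ) (I : Finset (Fin n))
    (τ : Equiv.Perm (Fin n)) (hI : I.card = k) :
    ‖∑ α : Equiv.Perm {i // i ∈ I}, g.coeff (pm (τ * ext α) I)‖ ^ 2 ≤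
      (k.factorial : ℝ) * ∑ α : Equiv.Perm {i // i ∈ I}, ‖g.coeff (pm (τ * ext α) I)‖ ^ 2 := by
  have h1 : ‖∑ α : Equiv.Perm {i // i ∈ I}, g.coeff (pm (τ * ext α) I)‖ ≤
      ∑ α : Equiv.Perm {i // i ∈ I}, ‖g.coeff (pm (τ * ext α) I)‖ := norm_sum_le _ _
  have h2 : (∑ α : Equiv.Perm {i // i ∈ I}, ‖g.coeff (pm (τ * ext α) I)‖) ^ 2 ≤
      (Finset.univ : Finset (Equiv.Perm {i // i ∈ I})).card *
        ∑ α : Equiv.Perm {i // i ∈ I}, ‖g.coeff (pm (τ * ext α) I)‖ ^ 2 :=
    sq_sum_le_card_mul_sum_sq
  rw [Finset.card_univ, Fintype.card_perm, Fintype.card_coe, hI] at h2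
  exact le_trans (pow_le_pow_left₀ (norm_nonneg _) h1 2) h2

/-- Condition of `RowFlat` for combinations of minors with `D = e^k`. -/
theorem flat_minors (hL : RowLeaf) (hV : RowVdW) {k : ℕ} (A : Fin n × Fin n → ℂ)
    (c : (k : ℕ) → (Fin k → Fin n) → (Fin k → Fin n) → ℂ) (I : Finset (Fin n))
    (τ : Equiv.Perm (Fin n)) (hI : I.card = k) :
    ‖∑ α : Equiv.Perm {i // i ∈ I},
        (mnr A c MvPolynomial.X k : MvPolynomial (Fin n × Fin n) ℂ).coeff (pm (τ * ext α) I)‖ ^ 2 ≤
      Real.exp k * ∑ α : Equiv.Perm {i // i ∈ I},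
        ‖(mnr A c MvPolynomial.X k : MvPolynomial (Fin n × Fin n) ℂ).coeff
          (pm (τ * ext α) I)‖ ^ 2 := by
  classical
  obtain ⟨z, hz⟩ := hL n k A c I τ hI
  let B : Matrix {i // i ∈ I} {i // i ∈ I} ℂ := fun i j => A (j, τ i)
  have hcard : Fintype.card {i // i ∈ I} = k := by rw [Fintype.card_coe, hI]
  let e : {i // i ∈ I} ≃ Fin k := Fintype.equivFinOfCardEq hcard
  have h1 := hV k (Matrix.reindex e e B)
  rw [Matrix.det_reindex_self] at h1
  have h2 : Matrix.permanent (Matrix.of fun i j : Fin k => ‖(Matrix.reindex e e B) i j‖ ^ 2) =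
      Matrix.permanent (Matrix.of fun i j => ‖B i j‖ ^ 2) := by
    have : (Matrix.of fun i j : Fin k => ‖(Matrix.reindex e e B) i j‖ ^ 2) =
        Matrix.reindex e e (Matrix.of fun i j => ‖B i j‖ ^ 2) := rfl
    rw [this]
    unfold Matrix.permanent
    rw [← Equiv.sum_comp (Equiv.permCongr e)]
    refine Finset.sum_congr rfl fun σ _ => ?_
    rw [← Equiv.prod_comp e]
    refine Finset.prod_congr rfl fun i _ => ?_
    simp [Equiv.permCongr_apply]
  rw [h2] at h1
  have e1 : (∑ α : Equiv.Perm {i // i ∈ I},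
      (mnr A c MvPolynomial.X k : MvPolynomial (Fin n × Fin n) ℂ).coeff (pm (τ * ext α) I)) =
      z * B.det := by
    rw [Matrix.det_apply', Finset.mul_sum]
    refine Finset.sum_congr rfl fun α _ => ?_
    rw [hz α, mul_assoc]
  have e2 : (∑ α : Equiv.Perm {i // i ∈ I},
      ‖(mnr A c MvPolynomial.X k : MvPolynomial (Fin n × Fin n) ℂ).coeff
        (pm (τ * ext α) I)‖ ^ 2) =
      ‖z‖ ^ 2 * Matrix.permanent (Matrix.of fun i j => ‖B i j‖ ^ 2) := by
    unfold Matrix.permanent
    rw [Finset.mul_sum]
    refine Finset.sum_congr rfl fun α _ => ?_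
    rw [hz α, norm_mul, norm_mul, norm_prod]
    have h3 : ‖(((Equiv.Perm.sign α : ℤˣ) : ℤ) : ℂ)‖ = 1 := by
      rcases Int.units_eq_one_or (Equiv.Perm.sign α) with h | h <;> rw [h] <;> simp
    rw [h3, mul_one, mul_pow, ← Finset.prod_pow]
    rfl
  rw [e1, e2, norm_mul, mul_pow]
  calc ‖z‖ ^ 2 * ‖B.det‖ ^ 2 ≤ ‖z‖ ^ 2 *
        (Real.exp k * Matrix.permanent (Matrix.of fun i j => ‖B i j‖ ^ 2)) := by gcongr
    _ = _ := by ring

/-- Scaling of the arguments. -/
theorem eval_scale (r : ℂ) (p : MvPolynomial (Fin n × Fin n) ℂ) (x : Fin n × Fin n → ℂ) :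
    eval (fun i => r * x i) p = eval x (bind₁ (fun i => C r * X i) p) := by
  have h := aeval_bind₁ x (fun i => C r * X i : Fin n × Fin n → MvPolynomial (Fin n × Fin n) ℂ) p
  rw [aeval_eq_eval] at h
  have h2 : (fun i => (eval x) (C r * X i : MvPolynomial (Fin n × Fin n) ℂ)) =
      fun i => r * x i := funext fun i => by simp
  rw [h2] at h
  exact h.symm

theorem fn_scale (r : ℝ) (m : ℕ) {p : MvPolynomial (Fin n × Fin n) ℂ} (hp : p.IsHomogeneous m) :
    fn (bind₁ (fun i => C (r : ℂ) * X i) p) = r ^ (2 * m) * fn p := by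
  have h : bind₁ (fun i => C (r : ℂ) * X i) p = C ((r : ℂ) ^ m) * p := by
    ext a
    rw [coeff_bind_scale, coeff_C_mul]
    by_cases ha : p.coeff a = 0
    · rw [ha, mul_zero, mul_zero]
    · have h1 : a.degree = m := by
        rw [Finsupp.degree_eq_weight_one]
        exact hp ha
      rw [h1]
  rw [h]
  have hsub : (C ((r : ℂ) ^ m) * p).support ⊆ p.support := by
    intro a ha
    rw [mem_support_iff, coeff_C_mul] at ha
    rw [mem_support_iff]
    exact right_ne_zero_of_mul ha
  rw [fn_eq_of_subset hsub, fn, Finset.mul_sum]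
  refine Finset.sum_congr rfl fun a _ => ?_
  rw [coeff_C_mul, norm_mul, norm_pow, Complex.norm_real, mul_pow, ← pow_mul, mul_comm m 2,
    pow_mul, Real.norm_eq_abs, sq_abs, ← pow_mul]
  ring

theorem permPoly_homogeneous : (permPoly n).IsHomogeneous n := by
  unfold permPoly
  refine IsHomogeneous.sum _ _ _ fun τ _ => isHomogeneous_monomial _ ?_
  rw [degree_pm]
  simp

theorem pv_mul' (C : Circuit n) (g : ℕ) {l r : Aff n} (h : C.step g = .mul l r) :
    C.pv g = C.pa l g * C.pa r g := by
  unfold Circuit.pv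
  rw [Circuit.val, h, Pi.one_apply, one_mul]
  rfl

theorem pv_minors' (C : Circuit n) (g : ℕ) {A : Fin n × Fin n → ℂ}
    {c : (k : ℕ) → (Fin k → Fin n) → (Fin k → Fin n) → ℂ} (h : C.step g = .minors A c) :
    C.pv g = ∑ k ∈ Finset.range (n + 1), mnr A c MvPolynomial.X k := by
  unfold Circuit.pv
  rw [Circuit.val, h, Pi.one_apply, one_mul]

theorem comp_of_homogeneous {p : MvPolynomial (Fin n × Fin n) ℂ} {i j : ℕ}
    (h : p.IsHomogeneous i) : homogeneousComponent j p = if j = i then p else 0 :=
  homogeneousComponent_of_mem (n := i) h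

/-- The product bound. -/
theorem LL_mul_bound (hF : RowFlat) (hB : RowBomb) {k : ℕ} (hk : k ≤ n)
    {g h : MvPolynomial (Fin n × Fin n) ℂ} (hg : g.IsHomogeneous k) {T : ℝ}
    (hT : fn (g * h) ≤ T) :
    ‖LL (g * h)‖ ^ 2 * (n.choose k : ℝ) ≤ (n.factorial : ℝ) * T := by
  have h1 := hF n k k.factorial g h hk (by positivity) hg
    fun I τ hI => flat_trivial g I τ hI
  have h2 := hB n k g h hg
  have h3 : (n.choose k : ℝ) * k.factorial * (n - k).factorial = n.factorial := by
    exact_mod_cast Nat.choose_mul_factorial_mul_factorial hk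
  calc ‖LL (g * h)‖ ^ 2 * (n.choose k : ℝ)
      ≤ ((k.factorial : ℝ) * ((n - k).factorial : ℝ) * (fn g * fn h)) * (n.choose k : ℝ) := by
        gcongr
    _ ≤ ((k.factorial : ℝ) * ((n - k).factorial : ℝ) * T) * (n.choose k : ℝ) := by
        gcongr
        exact h2.trans hT
    _ = ((n.choose k : ℝ) * k.factorial * (n - k).factorial) * T := by ring
    _ = _ := by rw [h3]

/-- The bound for one step. -/
theorem step_bound (hF : RowFlat) (hB : RowBomb) (hL : RowLeaf) (hV : RowVdW) (hn : 13 ≤ n)
    {m : ℕ} (hm1 : 1 ≤ m) (hm3 : 3 * m ≤ n + 1) (C : Circuit n) (D : ℕ → MvPolynomial (Fin n × Fin n) ℂ) (g : ℕ) {K : ℝ}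
    (hg : ∀ r : ℝ, 0 < r → fn (bind₁ (fun i => MvPolynomial.C (r : ℂ) * MvPolynomial.X i)
      (C.pv g * D g)) ≤ K ^ 2 * n.factorial * r ^ (2 * n)) :
    ‖LL (C.cut D (n - m) g)‖ ^ 2 * (n.choose (m) : ℝ) ≤
      (K * n.factorial) ^ 2 := by
  have hom := hom_growth hg
  have hfn : fn (C.pv g * D g) ≤ K ^ 2 * n.factorial := by
    have h1 := hg 1 one_pos
    rw [fn_scale 1 n hom] at h1
    simpa using h1
  have hzero : ‖LL (0 : MvPolynomial (Fin n × Fin n) ℂ)‖ ^ 2 * (n.choose (m) : ℝ) ≤
      (K * n.factorial) ^ 2 := by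
    have : LL (0 : MvPolynomial (Fin n × Fin n) ℂ) = 0 := by
      unfold LL
      exact Finset.sum_eq_zero fun τ _ => coeff_zero _
    rw [this, norm_zero]
    simp only [ne_eq, OfNat.ofNat_ne_zero, not_false_eq_true, zero_pow, zero_mul]
    positivity
  unfold Circuit.cut
  rcases hs : C.step g with ⟨l, r⟩ | ⟨A, c⟩
  · -- multiplication
    dsimp only
    rw [pv_mul' C g hs] at hom hfn
    by_cases h0 : C.pa l g * C.pa r g * D g = 0
    · have hall : ∀ i j k : ℕ, (C.pa l g).homogeneousComponent i *
          (C.pa r g).homogeneousComponent j * (D g).homogeneousComponent k = 0 := by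
        intro i j k
        rcases mul_eq_zero.1 h0 with h1 | h1
        · rcases mul_eq_zero.1 h1 with h2 | h2
          · rw [h2, map_zero, zero_mul, zero_mul]
          · rw [h2, map_zero, mul_zero, zero_mul]
        · rw [h1, map_zero, mul_zero]
      have : (∑ i ∈ Finset.range (n - m + 1), ∑ j ∈ Finset.range (n - m + 1),
          if n - m < i + j ∧ i + j ≤ n then (C.pa l g).homogeneousComponent i *
            (C.pa r g).homogeneousComponent j *
            (D g).homogeneousComponent (n - i - j) else 0) = 0 := by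
        refine Finset.sum_eq_zero fun i _ => Finset.sum_eq_zero fun j _ => ?_
        rw [hall]
        simp
      rw [this]
      exact hzero
    · obtain ⟨m', d, hmd, hlr, hD⟩ := hom_factor h0 hom
      obtain ⟨i, j, hij, hl, hr⟩ := hom_factor (left_ne_zero_of_mul h0) hlr
      have hcut : (∑ i' ∈ Finset.range (n - m + 1), ∑ j' ∈ Finset.range (n - m + 1),
          if n - m < i' + j' ∧ i' + j' ≤ n then (C.pa l g).homogeneousComponent i' *
            (C.pa r g).homogeneousComponent j' *
            (D g).homogeneousComponent (n - i' - j') else 0) =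
          if i ≤ n - m ∧ j ≤ n - m ∧ n - m < i + j then
            C.pa l g * C.pa r g * D g else 0 := by
        have hterm : ∀ i' j', (if n - m < i' + j' ∧ i' + j' ≤ n then
            (C.pa l g).homogeneousComponent i' * (C.pa r g).homogeneousComponent j' *
            (D g).homogeneousComponent (n - i' - j') else 0) =
            if i' = i then (if j' = j then (if n - m < i + j then
              C.pa l g * C.pa r g * D g else 0) else 0) else 0 := by
          intro i' j'
          rw [comp_of_homogeneous hl, comp_of_homogeneous hr, comp_of_homogeneous hD]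
          by_cases h1 : i' = i
          · by_cases h2 : j' = j
            · subst h1; subst h2
              rw [if_pos rfl, if_pos rfl, if_pos rfl, if_pos rfl]
              by_cases h3 : n - m < i' + j'
              · rw [if_pos ⟨h3, by omega⟩, if_pos h3, if_pos (by omega)]
              · rw [if_neg (fun h => h3 h.1), if_neg h3]
            · rw [if_neg h2, if_neg h2, mul_zero, zero_mul]
              simp
          · rw [if_neg h1, if_neg h1, zero_mul, zero_mul]
            simp
        rw [Finset.sum_congr rfl fun i' _ => Finset.sum_congr rfl fun j' _ => hterm i' j']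
        have hin : ∀ i' ∈ Finset.range (n - m + 1),
            (∑ j' ∈ Finset.range (n - m + 1), if i' = i then (if j' = j then
              (if n - m < i + j then C.pa l g * C.pa r g * D g else 0) else 0) else 0) =
            if i' = i then (if j ∈ Finset.range (n - m + 1) then
              (if n - m < i + j then C.pa l g * C.pa r g * D g else 0) else 0) else 0 := by
          intro i' _
          by_cases h1 : i' = i
          · simp only [h1, if_true]
            rw [Finset.sum_ite_eq']
          · simp only [h1, if_false, Finset.sum_const_zero]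
        rw [Finset.sum_congr rfl hin, Finset.sum_ite_eq']
        by_cases h1 : i ≤ n - m
        · by_cases h2 : j ≤ n - m
          · by_cases h3 : n - m < i + j
            · rw [if_pos (Finset.mem_range.2 (by omega)), if_pos (Finset.mem_range.2 (by omega)),
                if_pos h3, if_pos ⟨h1, h2, h3⟩]
            · rw [if_neg (fun h : i ≤ n - m ∧ j ≤ n - m ∧ n - m < i + j => h3 h.2.2),
                if_neg h3]
              simp
          · rw [if_neg (fun h : i ≤ n - m ∧ j ≤ n - m ∧ n - m < i + j => h2 h.2.1),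
              if_neg (show j ∉ Finset.range (n - m + 1) from fun h => by
                have := Finset.mem_range.1 h; omega)]
            simp
        · rw [if_neg (fun h : i ≤ n - m ∧ j ≤ n - m ∧ n - m < i + j => h1 h.1),
            if_neg (show i ∉ Finset.range (n - m + 1) from fun h => by
              have := Finset.mem_range.1 h; omega)]
      rw [hcut]
      by_cases hc : i ≤ n - m ∧ j ≤ n - m ∧ n - m < i + j
      · rw [if_pos hc]
        have key : ∀ (k : ℕ) (a b : MvPolynomial (Fin n × Fin n) ℂ), a.IsHomogeneous k →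
            a * b = C.pa l g * C.pa r g * D g → m ≤ k → k + m ≤ n →
            ‖LL (C.pa l g * C.pa r g * D g)‖ ^ 2 * (n.choose (m) : ℝ) ≤
              (K * n.factorial) ^ 2 := by
          intro k a b ha hab h1 h2
          have h3 := LL_mul_bound hF hB (k := k) (by omega) (h := b) ha
            (T := K ^ 2 * n.factorial) (by rw [hab]; exact hfn)
          rw [hab] at h3
          calc ‖LL (C.pa l g * C.pa r g * D g)‖ ^ 2 * (n.choose (m) : ℝ)
              ≤ ‖LL (C.pa l g * C.pa r g * D g)‖ ^ 2 * (n.choose k : ℝ) := by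
                have := choose_ge h1 h2
                gcongr
            _ ≤ _ := h3
            _ = _ := by ring
        rcases le_total i j with h1 | h1
        · exact key j (C.pa r g) (C.pa l g * D g) hr (by ring) (by omega) (by omega)
        · exact key i (C.pa l g) (C.pa r g * D g) hl (by ring) (by omega) (by omega)
      · rw [if_neg hc]
        exact hzero
  · -- minors
    dsimp only
    rw [pv_minors' C g hs] at hom hfn
    have hcomp : ∀ k, k ≤ n → mnr A c MvPolynomial.X k =
        homogeneousComponent k (∑ k ∈ Finset.range (n + 1),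
          (mnr A c MvPolynomial.X k : MvPolynomial (Fin n × Fin n) ℂ)) := by
      intro k hk
      rw [map_sum, Finset.sum_eq_single k]
      · rw [comp_of_homogeneous (mnr_homogeneous A c k), if_pos rfl]
      · intro k' _ hkk
        rw [comp_of_homogeneous (mnr_homogeneous A c k'), if_neg (Ne.symm hkk)]
      · intro h
        exact absurd (Finset.mem_range.2 (by omega)) h
    set V : MvPolynomial (Fin n × Fin n) ℂ := ∑ k ∈ Finset.range (n + 1),
      (mnr A c MvPolynomial.X k : MvPolynomial (Fin n × Fin n) ℂ) with hV'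
    by_cases h0 : V * D g = 0
    · have : (∑ k ∈ Finset.Ioc (n - m) n, mnr A c MvPolynomial.X k *
          (D g).homogeneousComponent (n - k)) = 0 := by
        refine Finset.sum_eq_zero fun k hk => ?_
        rw [hcomp k (Finset.mem_Ioc.1 hk).2]
        rcases mul_eq_zero.1 h0 with h1 | h1
        · rw [h1, map_zero, zero_mul]
        · rw [h1, map_zero, mul_zero]
      rw [this]
      exact hzero
    · obtain ⟨k, d, hkd, hVk, hD⟩ := hom_factor h0 hom
      have hmk : mnr A c MvPolynomial.X k = V := by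
        rw [hcomp k (by omega), comp_of_homogeneous hVk, if_pos rfl]
      have hcut : (∑ k ∈ Finset.Ioc (n - m) n, mnr A c MvPolynomial.X k *
          (D g).homogeneousComponent (n - k)) =
          if n - m < k then V * D g else 0 := by
        have hterm : ∀ k' ∈ Finset.Ioc (n - m) n, mnr A c MvPolynomial.X k' *
            (D g).homogeneousComponent (n - k') = if k' = k then V * D g else 0 := by
          intro k' hk'
          rw [hcomp k' (Finset.mem_Ioc.1 hk').2, comp_of_homogeneous hVk,
            comp_of_homogeneous hD]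
          by_cases h1 : k' = k
          · rw [if_pos h1, if_pos h1, if_pos (by omega)]
          · rw [if_neg h1, if_neg h1, zero_mul]
        rw [Finset.sum_congr rfl hterm, Finset.sum_ite_eq']
        by_cases h1 : n - m < k
        · rw [if_pos (Finset.mem_Ioc.2 ⟨h1, by omega⟩), if_pos h1]
        · rw [if_neg (fun h => h1 (Finset.mem_Ioc.1 h).1), if_neg h1]
      rw [hcut]
      by_cases hk : n - m < k
      · rw [if_pos hk]
        have h1 := hF n k (Real.exp k) V (D g) (by omega) (Real.exp_pos _).le hVk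
          (fun I τ hI => by rw [← hmk]; exact flat_minors hL hV A c I τ hI)
        have h2 := hB n k V (D g) hVk
        have h3 := num n k hn (by omega) (by omega)
        have h4 : (n.choose (m) : ℝ) ≤ 2 ^ n := by
          exact_mod_cast Nat.choose_le_two_pow n _
        calc ‖LL (V * D g)‖ ^ 2 * (n.choose (m) : ℝ)
            ≤ (Real.exp k * ((n - k).factorial : ℝ) * (K ^ 2 * n.factorial)) * 2 ^ n := by
              refine mul_le_mul ?_ h4 (by positivity) (by positivity)
              refine h1.trans ?_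
              exact mul_le_mul_of_nonneg_left (h2.trans hfn) (by positivity)
          _ = (Real.exp k * ((n - k).factorial : ℝ) * 2 ^ n) * (K ^ 2 * n.factorial) := by ring
          _ ≤ (n.factorial : ℝ) * (K ^ 2 * n.factorial) := by gcongr
          _ = _ := by ring
      · rw [if_neg hk]
        exact hzero

/-- The lower bound. -/
theorem main (hG : RowGauss) (hF : RowFlat) (hB : RowBomb) (hL : RowLeaf) (hV : RowVdW)
    (hBack : RowBack) (hCut : RowCut) {m : ℕ} (hn : 13 ≤ n) (hm1 : 1 ≤ m) (hm3 : 3 * m ≤ n + 1)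
    (C : Circuit n) (hC : C.Low (n - m)) {ε : ℝ} (K : ℕ → ℝ) (hε1 : ε ≤ 1)
    (happ : gsq (fun x => C.output 1 x - perm x) ≤ (1 - ε) ^ 2 * gsq (perm (n := n)))
    (hK : ∀ g, g < C.s → 0 ≤ K g)
    (hst : ∀ g, g < C.s → ∀ r : ℝ, 0 < r → gsq (fun x => C.err g fun i => (r : ℂ) * x i) ≤
      K g ^ 2 * gsq (fun x : Fin n × Fin n → ℂ => perm fun i => (r : ℂ) * x i)) :
    ε * Real.sqrt (n.choose m) ≤ ∑ g ∈ Finset.range C.s, K g := by
  obtain ⟨D, hD, herr⟩ := hBack n C
  set F : ℝ := (n.factorial : ℝ) with hF'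
  have hFpos : 0 < F := by rw [hF']; exact_mod_cast Nat.factorial_pos n
  have hcpos : 0 < (n.choose m : ℝ) := by exact_mod_cast Nat.choose_pos (by omega)
  have hsq := Real.sqrt_pos.2 hcpos
  have hperm : ∀ r : ℝ, gsq (fun x : Fin n × Fin n → ℂ => perm fun i => (r : ℂ) * x i) =
      r ^ (2 * n) * F := by
    intro r
    have h1 : (fun x : Fin n × Fin n → ℂ => perm fun i => (r : ℂ) * x i) = fun x =>
        eval x (bind₁ (fun i => MvPolynomial.C (r : ℂ) * X i) (permPoly n)) := by
      funext x
      rw [← eval_scale, eval_permPoly]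
    rw [h1, hG, fn_scale r n permPoly_homogeneous, fn_permPoly]
  have hperm1 : gsq (perm (n := n)) = F := by
    have h1 : (perm (n := n)) = fun x => eval x (permPoly n) := by
      funext x
      rw [eval_permPoly]
    rw [h1, hG, fn_permPoly]
  -- the steps
  have hstep : ∀ g ∈ Finset.range C.s,
      ‖LL (C.cut D (n - m) g)‖ ≤ K g * F / Real.sqrt (n.choose m) := by
    intro g hg
    have hg' := Finset.mem_range.1 hg
    have h1 := step_bound hF hB hL hV hn hm1 hm3 C D g (K := K g) (by
      intro r hr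
      have h2 := hst g hg' r hr
      rw [hperm r] at h2
      have h3 : (fun x => C.err g fun i => (r : ℂ) * x i) = fun x =>
          eval x (bind₁ (fun i => MvPolynomial.C (r : ℂ) * MvPolynomial.X i)
            (C.pv g * D g)) := by
        funext x
        rw [herr g hg', eval_scale]
      rw [h3, hG] at h2
      refine h2.trans (le_of_eq ?_)
      ring)
    rw [le_div_iff₀ hsq]
    refine le_of_sq_le_sq ?_ (mul_nonneg (hK g hg') hFpos.le)
    rw [mul_pow, Real.sq_sqrt hcpos.le]
    exact h1
  -- the output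
  set P : MvPolynomial (Fin n × Fin n) ℂ := C.output 1 MvPolynomial.X with hP
  have hLP : ‖LL P‖ ≤ (∑ g ∈ Finset.range C.s, K g) * F / Real.sqrt (n.choose m) := by
    rw [← LL_component P, hP, hCut n (n - m) C D hD hC (by omega) (by omega), LL_sum]
    refine (norm_sum_le _ _).trans ?_
    refine (Finset.sum_le_sum hstep).trans (le_of_eq ?_)
    rw [← Finset.sum_div, ← Finset.sum_mul]
  have hdist : ‖LL P - F‖ ≤ (1 - ε) * F := by
    have h1 : (fun x => C.output 1 x - perm x) = fun x => eval x (P - permPoly n) := by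
      funext x
      rw [output_eq, map_sub, eval_permPoly]
    rw [h1, hG, hperm1] at happ
    have h2 := norm_LL_sq (P - permPoly n)
    rw [LL_sub, LL_permPoly] at h2
    refine le_of_sq_le_sq ?_ (mul_nonneg (by linarith) hFpos.le)
    have h3 : ‖LL P - (F : ℂ)‖ ^ 2 ≤ F * fn (P - permPoly n) := by
      refine le_trans (le_of_eq ?_) h2
      rw [hF']
      push_cast
      rfl
    calc ‖LL P - (F : ℂ)‖ ^ 2 ≤ F * fn (P - permPoly n) := h3
      _ ≤ F * ((1 - ε) ^ 2 * F) := by gcongr
      _ = _ := by ring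
  have hlow : ε * F ≤ ‖LL P‖ := by
    have h1 : F ≤ ‖LL P‖ + ‖LL P - F‖ := by
      calc F = ‖(F : ℂ)‖ := by rw [Complex.norm_real, Real.norm_of_nonneg hFpos.le]
        _ = ‖LL P - (LL P - F)‖ := by congr 1; ring
        _ ≤ _ := norm_sub_le _ _
    linarith
  have h5 : ε * F ≤ (∑ g ∈ Finset.range C.s, K g) * F / Real.sqrt (n.choose m) :=
    hlow.trans hLP
  rw [le_div_iff₀ hsq] at h5
  refine le_of_mul_le_mul_right ?_ hFpos
  calc ε * Real.sqrt (n.choose m) * F = ε * F * Real.sqrt (n.choose m) := by ring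
    _ ≤ _ := h5

end Pool.Agent.SC
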