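import Mathlib
import Pool.Agent.SC.Defs

/-!
# Row GAUSS: the norm of a polynomial in `L^2` of the Gaussian measure
-/

set_option autoImplicit false

namespace Pool.Agent.SC

open MeasureTheory

theorem gs_meas : Measurable fun z : ℂ =>
    ENNReal.ofReal (Real.pi⁻¹ * Real.exp (-‖z‖ ^ 2)) := by
  fun_prop

instance cgauss_sigmaFinite : SigmaFinite cgauss := by
  unfold cgauss
  exact SigmaFinite.withDensity_ofReal _

theorem gs_dens (z : ℂ) :
    (ENNReal.ofReal (Real.pi⁻¹ * Real.exp (-‖z‖ ^ 2))).toReal =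
      Real.pi⁻¹ * Real.exp (-‖z‖ ^ 2) :=
  ENNReal.toReal_ofReal (by positivity)

/-- The radial moments with respect to the Lebesgue measure. -/
theorem gs_radial (m : ℕ) :
    ∫ z : ℂ, ‖z‖ ^ m * Real.exp (-‖z‖ ^ 2) = Real.pi * Real.Gamma (((m : ℝ) + 2) / 2) := by
  have h := Complex.integral_rpow_mul_exp_neg_rpow (p := 2) (q := m) (by norm_num)
    (by have : (0 : ℝ) ≤ m := Nat.cast_nonneg m
        linarith)
  have h2 : ∀ z : ℂ, ‖z‖ ^ (m : ℝ) * Real.exp (-‖z‖ ^ (2 : ℝ)) =
      ‖z‖ ^ m * Real.exp (-‖z‖ ^ 2) := by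
    intro z
    rw [Real.rpow_natCast]
    congr 2
    rw [show (2 : ℝ) = ((2 : ℕ) : ℝ) by norm_num, Real.rpow_natCast]
  simp_rw [h2] at h
  rw [h]
  ring_nf

theorem gs_radial_int (m : ℕ) :
    Integrable fun z : ℂ => ‖z‖ ^ m * Real.exp (-‖z‖ ^ 2) := by
  refine Integrable.of_integral_ne_zero ?_
  rw [gs_radial]
  have : 0 < Real.Gamma (((m : ℝ) + 2) / 2) := Real.Gamma_pos_of_pos (by positivity)
  have := Real.pi_pos
  positivity

/-- Monomials are integrable. -/
theorem gs_int (a b : ℕ) :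
    Integrable (fun z : ℂ => z ^ a * (starRingEnd ℂ z) ^ b) cgauss := by
  unfold cgauss
  rw [integrable_withDensity_iff_integrable_smul' gs_meas
    (Filter.Eventually.of_forall fun _ => ENNReal.ofReal_lt_top)]
  refine ((gs_radial_int (a + b)).const_mul Real.pi⁻¹).mono' ?_ ?_
  · refine Continuous.aestronglyMeasurable ?_
    simp_rw [gs_dens]
    fun_prop
  · refine Filter.Eventually.of_forall fun z => ?_
    rw [gs_dens, norm_smul, norm_mul (z ^ a), norm_pow, norm_pow, RCLike.norm_conj,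
      Real.norm_of_nonneg (by positivity), ← pow_add]
    apply le_of_eq
    ring

/-- Moments of the Gaussian measure. -/
theorem gs_moment (a b : ℕ) :
    ∫ z : ℂ, z ^ a * (starRingEnd ℂ z) ^ b ∂cgauss = if a = b then (a.factorial : ℂ) else 0 := by
  have key : ∫ z : ℂ, z ^ a * (starRingEnd ℂ z) ^ b ∂cgauss =
      ∫ z : ℂ, ((Real.pi⁻¹ * Real.exp (-‖z‖ ^ 2) : ℝ) : ℂ) * (z ^ a * (starRingEnd ℂ z) ^ b) := by
    unfold cgauss
    rw [integral_withDensity_eq_integral_toReal_smul gs_meas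
      (Filter.Eventually.of_forall fun _ => ENNReal.ofReal_lt_top)]
    refine integral_congr_ae (Filter.Eventually.of_forall fun z => ?_)
    simp only [gs_dens, Complex.real_smul]
  rw [key]
  split_ifs with hab
  · subst hab
    have h1 : ∀ z : ℂ, ((Real.pi⁻¹ * Real.exp (-‖z‖ ^ 2) : ℝ) : ℂ) *
        (z ^ a * (starRingEnd ℂ z) ^ a) =
        ((Real.pi⁻¹ * (‖z‖ ^ (2 * a) * Real.exp (-‖z‖ ^ 2)) : ℝ) : ℂ) := by
      intro z
      rw [← mul_pow, Complex.mul_conj, Complex.normSq_eq_norm_sq]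
      push_cast
      ring
    simp_rw [h1]
    rw [integral_complex_ofReal, integral_const_mul, gs_radial]
    have h2 : (((2 * a : ℕ) : ℝ) + 2) / 2 = (a : ℝ) + 1 := by push_cast; ring
    rw [h2, Real.Gamma_nat_eq_factorial, ← mul_assoc, inv_mul_cancel₀ Real.pi_ne_zero, one_mul]
    norm_cast
  · set I := ∫ z : ℂ, ((Real.pi⁻¹ * Real.exp (-‖z‖ ^ 2) : ℝ) : ℂ) *
      (z ^ a * (starRingEnd ℂ z) ^ b) with hI
    have hne : ((a : ℝ) - b) ≠ 0 := sub_ne_zero.mpr (by exact_mod_cast hab)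
    obtain ⟨c, hc⟩ : ∃ c : Circle, (c : ℂ) ^ a * (starRingEnd ℂ (c : ℂ)) ^ b = -1 := by
      refine ⟨Circle.exp (Real.pi / ((a : ℝ) - b)), ?_⟩
      rw [Circle.coe_exp, ← Complex.exp_conj, map_mul, Complex.conj_I, Complex.conj_ofReal,
        ← Complex.exp_nat_mul, ← Complex.exp_nat_mul, ← Complex.exp_add, ← Complex.exp_pi_mul_I]
      congr 1
      have h3 : ((a : ℂ) - b) ≠ 0 := by exact_mod_cast hne
      push_cast
      field_simp
      ring
    have h4 : I = -I := by
      have h5 := (rotation c).measurePreserving.integral_comp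
        (rotation c).toHomeomorph.measurableEmbedding
        (fun z : ℂ => ((Real.pi⁻¹ * Real.exp (-‖z‖ ^ 2) : ℝ) : ℂ) *
          (z ^ a * (starRingEnd ℂ z) ^ b))
      rw [← hI] at h5
      refine h5.symm.trans ?_
      rw [hI, ← integral_neg]
      refine integral_congr_ae (Filter.Eventually.of_forall fun z => ?_)
      simp only [rotation_apply, norm_mul, Circle.norm_coe, one_mul, map_mul, mul_pow]
      linear_combination (((Real.pi⁻¹ * Real.exp (-‖z‖ ^ 2) : ℝ) : ℂ) *
        (z ^ a * (starRingEnd ℂ z) ^ b)) * hc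
    have h6 : (2 : ℂ) * I = 0 := by linear_combination h4
    simpa using h6

/-- Moments of the product measure. -/
theorem gs_moment_pi {σ : Type} [Fintype σ] (a b : σ →₀ ℕ) :
    ∫ x : σ → ℂ, (∏ i, x i ^ a i) * (starRingEnd ℂ (∏ i, x i ^ b i))
      ∂(Measure.pi fun _ : σ => cgauss) = if a = b then (mf a : ℂ) else 0 := by
  have h1 : ∀ x : σ → ℂ, (∏ i, x i ^ a i) * (starRingEnd ℂ (∏ i, x i ^ b i)) =
      ∏ i, (fun (i : σ) (z : ℂ) => z ^ a i * (starRingEnd ℂ z) ^ b i) i (x i) := by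
    intro x
    rw [map_prod, ← Finset.prod_mul_distrib]
    refine Finset.prod_congr rfl fun i _ => ?_
    rw [map_pow]
  simp_rw [h1]
  rw [integral_fintype_prod_eq_prod
    (fun (i : σ) (z : ℂ) => z ^ a i * (starRingEnd ℂ z) ^ b i)]
  simp_rw [gs_moment]
  split_ifs with hab
  · subst hab
    unfold mf
    push_cast
    refine Finset.prod_congr rfl fun i _ => ?_
    rw [if_pos rfl]
  · obtain ⟨i, hi⟩ : ∃ i, a i ≠ b i := by
      by_contra hcon
      push Not at hcon
      exact hab (Finsupp.ext hcon)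
    exact Finset.prod_eq_zero (Finset.mem_univ i) (if_neg hi)

theorem gs_int_pi {σ : Type} [Fintype σ] (a b : σ →₀ ℕ) :
    Integrable (fun x : σ → ℂ => (∏ i, x i ^ a i) * (starRingEnd ℂ (∏ i, x i ^ b i)))
      (Measure.pi fun _ : σ => cgauss) := by
  have h1 : (fun x : σ → ℂ => (∏ i, x i ^ a i) * (starRingEnd ℂ (∏ i, x i ^ b i))) =
      fun x => ∏ i, (fun (i : σ) (z : ℂ) => z ^ a i * (starRingEnd ℂ z) ^ b i) i (x i) := by
    funext x
    rw [map_prod, ← Finset.prod_mul_distrib]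
    refine Finset.prod_congr rfl fun i _ => ?_
    rw [map_pow]
  rw [h1]
  exact Integrable.fintype_prod fun i => gs_int _ _

theorem rowGauss_gen {σ : Type} [Fintype σ] (p : MvPolynomial σ ℂ) :
    ∫ x, ‖MvPolynomial.eval x p‖ ^ 2 ∂(Measure.pi fun _ : σ => cgauss) = fn p := by
  have h1 : ∀ x : σ → ℂ, ((‖MvPolynomial.eval x p‖ ^ 2 : ℝ) : ℂ) =
      ∑ a ∈ p.support, ∑ b ∈ p.support, (p.coeff a * starRingEnd ℂ (p.coeff b)) *
        ((∏ i, x i ^ a i) * (starRingEnd ℂ (∏ i, x i ^ b i))) := by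
    intro x
    rw [← Complex.normSq_eq_norm_sq, ← Complex.mul_conj, MvPolynomial.eval_eq', map_sum,
      Finset.sum_mul_sum]
    refine Finset.sum_congr rfl fun a _ => Finset.sum_congr rfl fun b _ => ?_
    rw [map_mul]
    ring
  have h2 : ((∫ x, ‖MvPolynomial.eval x p‖ ^ 2 ∂(Measure.pi fun _ : σ => cgauss) : ℝ) : ℂ) =
      (fn p : ℂ) := by
    rw [← integral_complex_ofReal]
    simp_rw [h1]
    rw [integral_finsetSum _ fun a _ => integrable_finsetSum _ fun b _ =>
      (gs_int_pi a b).const_mul _]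
    simp_rw [integral_finsetSum p.support fun b _ => (gs_int_pi _ b).const_mul _,
      integral_const_mul, gs_moment_pi]
    unfold fn
    push_cast
    refine Finset.sum_congr rfl fun a ha => ?_
    simp only [mul_ite, mul_zero, Finset.sum_ite_eq, ha, if_true]
    rw [Complex.mul_conj, Complex.normSq_eq_norm_sq]
    push_cast
    ring
  exact_mod_cast h2

theorem rowGauss : RowGauss := fun _ p => rowGauss_gen p

end Pool.Agent.SC
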