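import Mathlib
import Pool.Agent.SC.Final
import Pool.Agent.SC.Gauss

/-!
# Determinants are computed in one step
-/

set_option autoImplicit false

namespace Pool.Agent.SC

open MvPolynomial

variable {n : ℕ}

theorem coeff_comb (c : Equiv.Perm (Fin n) → ℂ) (τ : Equiv.Perm (Fin n)) :
    (∑ τ : Equiv.Perm (Fin n), monomial (pm τ Finset.univ) (c τ) :
      MvPolynomial (Fin n × Fin n) ℂ).coeff (pm τ Finset.univ) = c τ := by
  classical
  rw [coeff_sum]
  simp only [coeff_monomial]
  rw [Finset.sum_eq_single τ]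
  · rw [if_pos rfl]
  · intro τ' _ h
    rw [if_neg fun h' => h (pm_inj h')]
  · intro h
    exact absurd (Finset.mem_univ τ) h

theorem fn_comb (c : Equiv.Perm (Fin n) → ℂ) :
    fn (∑ τ : Equiv.Perm (Fin n), monomial (pm τ Finset.univ) (c τ) :
      MvPolynomial (Fin n × Fin n) ℂ) = ∑ τ, ‖c τ‖ ^ 2 := by
  classical
  set s := (Finset.univ : Finset (Equiv.Perm (Fin n))).image fun τ => pm τ Finset.univ with hs
  rw [fn_eq_of_subset (s := s)]
  · rw [hs, Finset.sum_image fun τ _ τ' _ h => pm_inj h]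
    refine Finset.sum_congr rfl fun τ _ => ?_
    rw [mf_pm, coeff_comb, one_mul]
  · intro a ha
    rw [mem_support_iff] at ha
    by_contra h
    apply ha
    rw [coeff_sum]
    refine Finset.sum_eq_zero fun τ _ => ?_
    rw [coeff_monomial, if_neg]
    intro h'
    apply h
    rw [hs, ← h']
    exact Finset.mem_image_of_mem _ (Finset.mem_univ τ)

theorem comb_homogeneous (c : Equiv.Perm (Fin n) → ℂ) :
    (∑ τ : Equiv.Perm (Fin n), monomial (pm τ Finset.univ) (c τ) :
      MvPolynomial (Fin n × Fin n) ℂ).IsHomogeneous n := by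
  refine IsHomogeneous.sum _ _ _ fun τ _ => isHomogeneous_monomial _ ?_
  rw [degree_pm]
  simp

theorem eval_comb (c : Equiv.Perm (Fin n) → ℂ) (x : Fin n × Fin n → ℂ) :
    eval x (∑ τ : Equiv.Perm (Fin n), monomial (pm τ Finset.univ) (c τ) :
      MvPolynomial (Fin n × Fin n) ℂ) = ∑ τ, c τ * ∏ i, x (i, τ i) := by
  rw [map_sum]
  refine Finset.sum_congr rfl fun τ _ => ?_
  have h : (monomial (pm τ Finset.univ) (c τ) : MvPolynomial (Fin n × Fin n) ℂ) =
      C (c τ) * ∏ i, X (i, τ i) := by
    unfold pm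
    rw [← mul_one (c τ), ← C_mul_monomial, monomial_sum_one, mul_one]
    rfl
  rw [h, map_mul, eval_C, map_prod]
  simp

/-- The norm of a combination of permutation monomials, at scale `r`. -/
theorem gsq_comb (c : Equiv.Perm (Fin n) → ℂ) (r : ℝ) :
    gsq (fun x : Fin n × Fin n → ℂ => ∑ τ : Equiv.Perm (Fin n), c τ *
      ∏ i, ((r : ℂ) * x (i, τ i))) = r ^ (2 * n) * ∑ τ, ‖c τ‖ ^ 2 := by
  have h1 : (fun x : Fin n × Fin n → ℂ => ∑ τ : Equiv.Perm (Fin n), c τ *
      ∏ i, ((r : ℂ) * x (i, τ i))) = fun x =>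
      eval x (bind₁ (fun i => MvPolynomial.C (r : ℂ) * X i)
        (∑ τ : Equiv.Perm (Fin n), monomial (pm τ Finset.univ) (c τ))) := by
    funext x
    rw [← eval_scale, eval_comb]
  rw [h1, rowGauss, fn_scale r n (comb_homogeneous c), fn_comb]

theorem gsq_perm (r : ℝ) : gsq (fun x : Fin n × Fin n → ℂ => perm fun i => (r : ℂ) * x i) =
    r ^ (2 * n) * (n.factorial : ℝ) := by
  have h1 : (fun x : Fin n × Fin n → ℂ => perm fun i => (r : ℂ) * x i) = fun x =>
      ∑ τ : Equiv.Perm (Fin n), (1 : ℂ) * ∏ i, ((r : ℂ) * x (i, τ i)) := by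
    funext x
    rw [← eval_permPoly, permPoly, eval_comb]
  rw [h1, gsq_comb]
  simp [Fintype.card_perm]

/-- The coefficients of the determinant among all minors. -/
def cdet (n : ℕ) (k : ℕ) (p q : Fin k → Fin n) : ℂ :=
  if k = n ∧ (∀ a, (p a : ℕ) = a) ∧ ∀ a, (q a : ℕ) = a then 1 else 0

theorem det_step (n : ℕ) : ∃ C : Circuit n, C.Low 0 ∧ C.s = 1 ∧
    (∀ x : Fin n × Fin n → ℂ, C.output 1 x = Matrix.det (Matrix.of fun i j => x (i, j))) ∧
    ∀ r : ℝ, gsq (fun x => C.err 0 fun i => (r : ℂ) * x i) =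
      gsq (fun x : Fin n × Fin n → ℂ => perm fun i => (r : ℂ) * x i) := by
  classical
  let C : Circuit n := ⟨1, fun _ => .minors (fun _ => 1) (cdet n), ⟨0, fun _ => 1⟩⟩
  have hmnr : ∀ x : Fin n × Fin n → ℂ, ∑ k ∈ Finset.range (n + 1),
      mnr (fun _ => 1) (cdet n) x k = Matrix.det (Matrix.of fun i j => x (i, j)) := by
    intro x
    rw [Finset.sum_eq_single n]
    · unfold mnr
      rw [Finset.sum_eq_single (fun a => a)]
      · rw [Finset.sum_eq_single (fun a => a)]
        · have : cdet n n (fun a => a) (fun a => a) = 1 := if_pos ⟨rfl, fun _ => rfl, fun _ => rfl⟩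
          rw [this, map_one, one_mul]
          congr 1
          ext i j
          simp
        · intro q _ hq
          have : cdet n n (fun a => a) q = 0 := if_neg fun h => hq (by
            funext a
            exact Fin.ext (h.2.2 a))
          rw [this, map_zero, zero_mul]
        · intro h
          exact absurd (Finset.mem_univ _) h
      · intro p _ hp
        refine Finset.sum_eq_zero fun q _ => ?_
        have : cdet n n p q = 0 := if_neg fun h => hp (by
          funext a
          exact Fin.ext (h.2.1 a))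
        rw [this, map_zero, zero_mul]
      · intro h
        exact absurd (Finset.mem_univ _) h
    · intro k _ hk
      unfold mnr
      refine Finset.sum_eq_zero fun p _ => Finset.sum_eq_zero fun q _ => ?_
      have : cdet n k p q = 0 := if_neg fun h => hk h.1
      rw [this, map_zero, zero_mul]
    · intro h
      exact absurd (Finset.mem_range.2 (Nat.lt_succ_self n)) h
  have hval : ∀ (ρ : ℕ → ℂ) (x : Fin n × Fin n → ℂ), C.val ρ x 0 =
      ρ 0 * Matrix.det (Matrix.of fun i j => x (i, j)) := by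
    intro ρ x
    rw [Circuit.val]
    show ρ 0 * ∑ k ∈ Finset.range (n + 1), mnr (fun _ => 1) (cdet n) x k = _
    rw [hmnr]
  have hout : ∀ (ρ : ℕ → ℂ) (x : Fin n × Fin n → ℂ), C.output ρ x =
      ρ 0 * Matrix.det (Matrix.of fun i j => x (i, j)) := by
    intro ρ x
    rw [← hval]
    show MvPolynomial.aeval x (0 : MvPolynomial (Fin n × Fin n) ℂ) +
      ∑ a : Fin 1, algebraMap ℂ ℂ 1 * C.val ρ x a = _
    simp
  have herr : ∀ x : Fin n × Fin n → ℂ, C.err 0 x = Matrix.det (Matrix.of fun i j => x (i, j)) := by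
    intro x
    unfold Circuit.err
    have h1 : (fun t : ℂ => C.output (Function.update 1 0 (1 + t)) x) = fun t =>
        (1 + t) * Matrix.det (Matrix.of fun i j => x (i, j)) := by
      funext t
      rw [hout, Function.update_self]
    rw [h1]
    have h2 : HasDerivAt (fun t : ℂ => (1 + t) * Matrix.det (Matrix.of fun i j => x (i, j)))
        (1 * Matrix.det (Matrix.of fun i j => x (i, j))) 0 :=
      ((hasDerivAt_id (0 : ℂ)).const_add 1).mul_const _
    rw [h2.deriv, one_mul]
  refine ⟨C, ⟨by show (0 : MvPolynomial (Fin n × Fin n) ℂ).totalDegree ≤ 0; simp, ?_⟩, rfl, ?_, ?_⟩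
  · intro g l r _ h
    have h' : Step.minors (fun _ => 1) (cdet n) = Step.mul l r := h
    cases h'
  · intro x
    rw [hout, Pi.one_apply, one_mul]
  · intro r
    rw [gsq_perm]
    have h1 : (fun x : Fin n × Fin n → ℂ => C.err 0 fun i => (r : ℂ) * x i) = fun x =>
        ∑ τ : Equiv.Perm (Fin n), ((Equiv.Perm.sign τ : ℤ) : ℂ) *
          ∏ i, ((r : ℂ) * x (i, τ i)) := by
      funext x
      rw [herr, ← Matrix.det_transpose, Matrix.det_apply']
      rfl
    rw [h1, gsq_comb]
    have h2 : ∀ τ : Equiv.Perm (Fin n), ‖((Equiv.Perm.sign τ : ℤ) : ℂ)‖ ^ 2 = 1 := by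
      intro τ
      rcases Int.units_eq_one_or (Equiv.Perm.sign τ) with h | h <;> rw [h] <;> simp
    simp only [h2]
    simp [Fintype.card_perm]

end Pool.Agent.SC
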