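import Mathlib
import Pool.Agent.SC.Defs

/-!
# Row FLAT
-/

set_option autoImplicit false

namespace Pool.Agent.SC

open Finset

namespace Fl

variable {n : ℕ}

theorem pm_apply (τ : Equiv.Perm (Fin n)) (I : Finset (Fin n)) (i j : Fin n) :
    pm τ I (i, j) = if i ∈ I ∧ j = τ i then 1 else 0 := by
  unfold pm
  rw [Finsupp.finsetSum_apply]
  by_cases h : i ∈ I ∧ j = τ i
  · rw [if_pos h, Finset.sum_eq_single i]
    · rw [h.2, Finsupp.single_eq_same]
    · intro b _ hb
      rw [Finsupp.single_eq_of_ne]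
      intro h'
      exact hb (Prod.ext_iff.1 h').1.symm
    · intro h'
      exact absurd h.1 h'
  · rw [if_neg h]
    refine Finset.sum_eq_zero fun b hb => ?_
    rw [Finsupp.single_eq_of_ne]
    intro h'
    have h1 := Prod.ext_iff.1 h'
    apply h
    obtain ⟨h2, h3⟩ := h1
    simp only at h2 h3
    subst h2
    exact ⟨hb, h3⟩

theorem pm_ext {a : Fin n × Fin n →₀ ℕ} {τ : Equiv.Perm (Fin n)} {I : Finset (Fin n)} :
    a = pm τ I ↔ ∀ i j, a (i, j) = if i ∈ I ∧ j = τ i then 1 else 0 := by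
  constructor
  · rintro rfl i j
    exact pm_apply τ I i j
  · intro h
    ext ⟨i, j⟩
    rw [h, pm_apply]

theorem pm_inj {τ τ' : Equiv.Perm (Fin n)} {I I' : Finset (Fin n)} (h : pm τ I = pm τ' I') :
    I = I' ∧ ∀ i ∈ I, τ i = τ' i := by
  have key : ∀ (τ τ' : Equiv.Perm (Fin n)) (I I' : Finset (Fin n)), pm τ I = pm τ' I' →
      ∀ i ∈ I, i ∈ I' ∧ τ i = τ' i := by
    intro τ τ' I I' h i hi
    have h1 := DFunLike.congr_fun h (i, τ i)
    rw [pm_apply, pm_apply, if_pos ⟨hi, rfl⟩] at h1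
    by_contra h2
    rw [if_neg h2] at h1
    exact one_ne_zero h1
  refine ⟨?_, fun i hi => (key τ τ' I I' h i hi).2⟩
  ext i
  exact ⟨fun hi => (key τ τ' I I' h i hi).1, fun hi => (key τ' τ I' I h.symm i hi).1⟩

theorem pm_congr {τ τ' : Equiv.Perm (Fin n)} {I : Finset (Fin n)} (h : ∀ i ∈ I, τ i = τ' i) :
    pm τ I = pm τ' I := by
  unfold pm
  exact Finset.sum_congr rfl fun i hi => by rw [h i hi]

theorem degree_pm (τ : Equiv.Perm (Fin n)) (I : Finset (Fin n)) : (pm τ I).degree = I.card := by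
  unfold pm
  rw [map_sum, Finset.sum_congr rfl fun i _ => Finsupp.degree_single _ _, Finset.sum_const,
    smul_eq_mul, mul_one]

/-- the coefficient of a product at a permutation monomial -/
theorem coeff_mul_pm (τ : Equiv.Perm (Fin n)) (g h : MvPolynomial (Fin n × Fin n) ℂ) :
    (g * h).coeff (pm τ univ) = ∑ I : Finset (Fin n), g.coeff (pm τ I) * h.coeff (pm τ Iᶜ) := by
  classical
  rw [MvPolynomial.coeff_mul]
  symm
  refine Finset.sum_bij (fun I _ => (pm τ I, pm τ Iᶜ)) ?_ ?_ ?_ ?_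
  · intro I _
    rw [Finset.HasAntidiagonal.mem_antidiagonal]
    unfold pm
    exact Finset.sum_add_sum_compl I _
  · intro I _ I' _ h
    exact (pm_inj (Prod.ext_iff.1 h).1).1
  · rintro ⟨a, b⟩ hab
    rw [Finset.HasAntidiagonal.mem_antidiagonal] at hab
    have h1 : ∀ i j, a (i, j) + b (i, j) = if j = τ i then 1 else 0 := by
      intro i j
      have h2 := DFunLike.congr_fun hab (i, j)
      rw [pm_apply] at h2
      simpa using h2
    refine ⟨univ.filter fun i => a (i, τ i) = 1, Finset.mem_univ _, ?_⟩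
    refine Prod.ext ?_ ?_
    · symm
      rw [pm_ext]
      intro i j
      show a (i, j) = _
      have h2 := h1 i j
      by_cases hj : j = τ i
      · subst hj
        rw [if_pos rfl] at h2
        by_cases h3 : a (i, τ i) = 1
        · rw [h3, if_pos ⟨by simp [h3], rfl⟩]
        · rw [if_neg (fun h => h3 (by simpa using h.1))]
          omega
      · rw [if_neg hj] at h2
        rw [if_neg fun h => hj h.2]
        omega
    · symm
      rw [pm_ext]
      intro i j
      show b (i, j) = _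
      have h2 := h1 i j
      by_cases hj : j = τ i
      · subst hj
        rw [if_pos rfl] at h2
        by_cases h3 : a (i, τ i) = 1
        · rw [if_neg (fun h => (by simpa using h.1 : ¬ a (i, τ i) = 1) h3)]
          omega
        · rw [if_pos ⟨by simp [h3], rfl⟩]
          omega
      · rw [if_neg hj] at h2
        rw [if_neg fun h => hj h.2]
        omega
  · intro I _
    rfl

/-- the number of permutations with given values on `I` -/
theorem card_fiber (I : Finset (Fin n)) (τ₀ : Equiv.Perm (Fin n)) :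
    (univ.filter fun τ : Equiv.Perm (Fin n) => ∀ i ∈ I, τ i = τ₀ i).card
      ≤ (n - I.card).factorial := by
  classical
  have h1 : Fintype.card {f : Equiv.Perm (Fin n) // ∀ a, ¬ (a ∉ I) → f a = a}
      = (n - I.card).factorial := by
    rw [← Fintype.card_congr (Equiv.Perm.subtypeEquivSubtypePerm fun a => a ∉ I),
      Fintype.card_perm]
    congr 1
    rw [Fintype.card_subtype_compl, Fintype.card_fin, Fintype.card_coe]
  rw [← h1, ← Fintype.card_subtype]
  refine Fintype.card_le_of_injective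
    (fun τ : {τ : Equiv.Perm (Fin n) // ∀ i ∈ I, τ i = τ₀ i} =>
      (⟨τ₀⁻¹ * τ.1, fun a ha => ?_⟩ :
        {f : Equiv.Perm (Fin n) // ∀ a, ¬ (a ∉ I) → f a = a})) ?_
  · rw [Equiv.Perm.mul_apply, τ.2 a (not_not.1 ha)]
    exact τ₀.symm_apply_apply a
  · intro τ τ' h
    have h2 := congrArg Subtype.val h
    exact Subtype.ext (mul_left_cancel h2)

/-- the norm bounds the sum over the permutation monomials -/
theorem sum_pm_le (k : ℕ) (g : MvPolynomial (Fin n × Fin n) ℂ) :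
    ∑ I ∈ powersetCard k univ, ∑ τ : Equiv.Perm (Fin n), ‖g.coeff (pm τ I)‖ ^ 2
      ≤ ((n - k).factorial : ℝ) * fn g := by
  classical
  rw [← Finset.sum_product (s := powersetCard k (univ : Finset (Fin n)))
    (t := (univ : Finset (Equiv.Perm (Fin n)))) (f := fun p => ‖g.coeff (pm p.2 p.1)‖ ^ 2)]
  set S := powersetCard k (univ : Finset (Fin n)) ×ˢ (univ : Finset (Equiv.Perm (Fin n))) with hS
  rw [Finset.sum_comp (fun a => ‖g.coeff a‖ ^ 2)
    (fun p : Finset (Fin n) × Equiv.Perm (Fin n) => pm p.2 p.1)]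
  have h1 : ∀ a ∈ S.image (fun p : Finset (Fin n) × Equiv.Perm (Fin n) => pm p.2 p.1),
      (S.filter fun p => pm p.2 p.1 = a).card • ‖g.coeff a‖ ^ 2
        ≤ ((n - k).factorial : ℝ) * (mf a * ‖g.coeff a‖ ^ 2) := by
    intro a ha
    rw [Finset.mem_image] at ha
    obtain ⟨⟨I, τ₀⟩, hp, rfl⟩ := ha
    have hI : I.card = k := (Finset.mem_powersetCard.1 (Finset.mem_product.1 hp).1).2
    have h2 : (S.filter fun p => pm p.2 p.1 = pm τ₀ I).card ≤ (n - k).factorial := by
      rw [← hI]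
      refine le_trans ?_ (card_fiber I τ₀)
      refine Finset.card_le_card_of_injOn Prod.snd ?_ ?_
      · rintro ⟨I', τ⟩ hp'
        rw [Finset.mem_coe, Finset.mem_filter] at hp'
        obtain ⟨h3, h4⟩ := pm_inj hp'.2
        simp only [Finset.coe_filter, Finset.mem_univ, true_and, Set.mem_ofPred_eq]
        intro i hi
        exact h4 i (by rw [h3]; exact hi)
      · rintro ⟨I', τ⟩ hp' ⟨I'', τ'⟩ hp'' h
        rw [Finset.mem_coe, Finset.mem_filter] at hp' hp''
        have h3 := (pm_inj hp'.2).1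
        have h4 := (pm_inj hp''.2).1
        exact Prod.ext (h3.trans h4.symm) h
    have h3 : (1 : ℝ) ≤ mf (pm τ₀ I) := by
      have h5 : mf (pm τ₀ I) = ((∏ i, (pm τ₀ I i).factorial : ℕ) : ℝ) := by
        unfold mf
        push_cast
        rfl
      rw [h5]
      exact_mod_cast Nat.one_le_iff_ne_zero.2
        (Finset.prod_ne_zero_iff.2 fun i _ => Nat.factorial_ne_zero _)
    rw [nsmul_eq_mul]
    have h4 : 0 ≤ ‖g.coeff (pm τ₀ I)‖ ^ 2 := by positivity
    calc ((S.filter fun p => pm p.2 p.1 = pm τ₀ I).card : ℝ) * ‖g.coeff (pm τ₀ I)‖ ^ 2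
        ≤ ((n - k).factorial : ℝ) * ‖g.coeff (pm τ₀ I)‖ ^ 2 :=
          mul_le_mul_of_nonneg_right (by exact_mod_cast h2) h4
      _ ≤ ((n - k).factorial : ℝ) * (mf (pm τ₀ I) * ‖g.coeff (pm τ₀ I)‖ ^ 2) := by
          refine mul_le_mul_of_nonneg_left ?_ (by positivity)
          exact le_mul_of_one_le_left h4 h3
  refine (Finset.sum_le_sum h1).trans ?_
  rw [← Finset.mul_sum]
  refine mul_le_mul_of_nonneg_left ?_ (by positivity)
  unfold fn
  rw [← Finset.sum_filter_add_sum_filter_not _ (fun a => a ∈ g.support)]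
  have h2 : ∑ a ∈ (S.image fun p : Finset (Fin n) × Equiv.Perm (Fin n) => pm p.2 p.1).filter
      (fun a => ¬ a ∈ g.support), mf a * ‖g.coeff a‖ ^ 2 = 0 := by
    refine Finset.sum_eq_zero fun a ha => ?_
    have h3 := (Finset.mem_filter.1 ha).2
    rw [MvPolynomial.notMem_support_iff] at h3
    rw [h3]
    simp
  rw [h2, add_zero]
  refine Finset.sum_le_sum_of_subset_of_nonneg ?_ ?_
  · intro a ha
    exact (Finset.mem_filter.1 ha).2
  · intro a _ _
    have h3 : 0 ≤ mf a := by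
      unfold mf
      positivity
    positivity

end Fl

open Fl in
/-- Row FLAT. -/
theorem rowFlat : RowFlat := by
  classical
  intro n k D g h hk hD hg hyp
  set G : Finset (Fin n) → Equiv.Perm (Fin n) → ℂ := fun I τ =>
    ∑ α : Equiv.Perm {i // i ∈ I}, g.coeff (pm (τ * ext α) I) with hG
  set H : Finset (Fin n) → Equiv.Perm (Fin n) → ℂ := fun I τ =>
    ∑ β : Equiv.Perm {i // i ∈ Iᶜ}, h.coeff (pm (τ * ext β) Iᶜ) with hH
  set T := powersetCard k (univ : Finset (Fin n)) with hT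
  have hcT : ∀ I ∈ T, I.card = k := fun I hI => (Finset.mem_powersetCard.1 hI).2
  have hcardI : ∀ I ∈ T, Fintype.card (Equiv.Perm {i // i ∈ I}) = k.factorial := by
    intro I hI
    rw [Fintype.card_perm, Fintype.card_coe, hcT I hI]
  have hcardJ : ∀ I ∈ T, Fintype.card (Equiv.Perm {i // i ∈ Iᶜ}) = (n - k).factorial := by
    intro I hI
    rw [Fintype.card_perm, Fintype.card_coe, Finset.card_compl, Fintype.card_fin, hcT I hI]
  -- the sum over the subsets
  have h1 : LL (g * h) = ∑ I ∈ T, ∑ τ : Equiv.Perm (Fin n),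
      g.coeff (pm τ I) * h.coeff (pm τ Iᶜ) := by
    unfold LL
    rw [Finset.sum_comm]
    refine Finset.sum_congr rfl fun τ _ => ?_
    rw [coeff_mul_pm]
    symm
    refine Finset.sum_subset (Finset.subset_univ _) fun I _ hI => ?_
    rw [hg.coeff_eq_zero, zero_mul]
    rw [degree_pm]
    intro h'
    exact hI (Finset.mem_powersetCard.2 ⟨Finset.subset_univ _, h'⟩)
  -- averaging
  have h2 : ∀ I ∈ T, ((k.factorial : ℂ) * ((n - k).factorial : ℂ)) *
      ∑ τ : Equiv.Perm (Fin n), g.coeff (pm τ I) * h.coeff (pm τ Iᶜ) =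
        ∑ τ : Equiv.Perm (Fin n), G I τ * H I τ := by
    intro I hI
    have hα : ∀ (α : Equiv.Perm {i // i ∈ I}) (i : Fin n), i ∉ I → ext α i = i := fun α i hi =>
      Equiv.Perm.ofSubtype_apply_of_not_mem α hi
    have hβ : ∀ (β : Equiv.Perm {i // i ∈ Iᶜ}) (i : Fin n), i ∈ I → ext β i = i := fun β i hi =>
      Equiv.Perm.ofSubtype_apply_of_not_mem β (by simpa using hi)
    have hβ' : ∀ (β : Equiv.Perm {i // i ∈ Iᶜ}) (i : Fin n), i ∉ I → ext β i ∉ I := by
      intro β i hi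
      have hi' : i ∈ Iᶜ := Finset.mem_compl.2 hi
      unfold ext
      rw [Equiv.Perm.ofSubtype_apply_of_mem β hi']
      exact Finset.mem_compl.1 (β ⟨i, hi'⟩).2
    have key : ∀ (α : Equiv.Perm {i // i ∈ I}) (β : Equiv.Perm {i // i ∈ Iᶜ}),
        ∑ τ : Equiv.Perm (Fin n), g.coeff (pm τ I) * h.coeff (pm τ Iᶜ) =
          ∑ τ : Equiv.Perm (Fin n), g.coeff (pm (τ * ext α) I) * h.coeff (pm (τ * ext β) Iᶜ) := by
      intro α β
      rw [← Equiv.sum_comp (Equiv.mulRight (ext α * ext β))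
        fun τ : Equiv.Perm (Fin n) => g.coeff (pm τ I) * h.coeff (pm τ Iᶜ)]
      refine Finset.sum_congr rfl fun τ _ => ?_
      have e1 : pm ((Equiv.mulRight (ext α * ext β)) τ) I = pm (τ * ext α) I := by
        refine pm_congr fun i hi => ?_
        show (τ * (ext α * ext β)) i = (τ * ext α) i
        rw [Equiv.Perm.mul_apply, Equiv.Perm.mul_apply, Equiv.Perm.mul_apply, hβ β i hi]
      have e2 : pm ((Equiv.mulRight (ext α * ext β)) τ) Iᶜ = pm (τ * ext β) Iᶜ := by
        refine pm_congr fun i hi => ?_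
        show (τ * (ext α * ext β)) i = (τ * ext β) i
        rw [Equiv.Perm.mul_apply, Equiv.Perm.mul_apply, Equiv.Perm.mul_apply,
          hα α _ (hβ' β i (Finset.mem_compl.1 hi))]
      rw [e1, e2]
    have h3 : ∑ τ : Equiv.Perm (Fin n), G I τ * H I τ =
        ∑ α : Equiv.Perm {i // i ∈ I}, ∑ β : Equiv.Perm {i // i ∈ Iᶜ},
          ∑ τ : Equiv.Perm (Fin n), g.coeff (pm (τ * ext α) I) * h.coeff (pm (τ * ext β) Iᶜ) := by
      have e1 : ∀ τ : Equiv.Perm (Fin n), G I τ * H I τ =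
          ∑ α : Equiv.Perm {i // i ∈ I}, ∑ β : Equiv.Perm {i // i ∈ Iᶜ},
            g.coeff (pm (τ * ext α) I) * h.coeff (pm (τ * ext β) Iᶜ) := by
        intro τ
        rw [hG, hH, Finset.sum_mul_sum]
      rw [Finset.sum_congr rfl fun τ _ => e1 τ, Finset.sum_comm]
      exact Finset.sum_congr rfl fun α _ => Finset.sum_comm
    rw [h3, Finset.sum_congr rfl fun α _ => Finset.sum_congr rfl fun β _ => (key α β).symm]
    simp only [Finset.sum_const, Finset.card_univ, nsmul_eq_mul]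
    rw [hcardI I hI, hcardJ I hI, mul_assoc]
  have h3 : ((k.factorial : ℂ) * ((n - k).factorial : ℂ)) * LL (g * h) =
      ∑ I ∈ T, ∑ τ : Equiv.Perm (Fin n), G I τ * H I τ := by
    rw [h1, Finset.mul_sum]
    exact Finset.sum_congr rfl h2
  -- the two sums of squares
  have hsG : ∑ I ∈ T, ∑ τ : Equiv.Perm (Fin n), ‖G I τ‖ ^ 2 ≤
      D * (k.factorial : ℝ) * (((n - k).factorial : ℝ) * fn g) := by
    have e1 : ∀ I ∈ T, ∑ τ : Equiv.Perm (Fin n), ‖G I τ‖ ^ 2 ≤
        D * (k.factorial : ℝ) * ∑ τ : Equiv.Perm (Fin n), ‖g.coeff (pm τ I)‖ ^ 2 := by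
      intro I hI
      calc ∑ τ : Equiv.Perm (Fin n), ‖G I τ‖ ^ 2
          ≤ ∑ τ : Equiv.Perm (Fin n), D * ∑ α : Equiv.Perm {i // i ∈ I},
              ‖g.coeff (pm (τ * ext α) I)‖ ^ 2 :=
            Finset.sum_le_sum fun τ _ => hyp I τ (hcT I hI)
        _ = D * ∑ α : Equiv.Perm {i // i ∈ I}, ∑ τ : Equiv.Perm (Fin n),
              ‖g.coeff (pm (τ * ext α) I)‖ ^ 2 := by
            rw [← Finset.mul_sum, Finset.sum_comm]
        _ = D * ∑ α : Equiv.Perm {i // i ∈ I}, ∑ τ : Equiv.Perm (Fin n),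
              ‖g.coeff (pm τ I)‖ ^ 2 := by
            congr 1
            refine Finset.sum_congr rfl fun α _ => ?_
            exact Equiv.sum_comp (Equiv.mulRight (ext α))
              fun τ : Equiv.Perm (Fin n) => ‖g.coeff (pm τ I)‖ ^ 2
        _ = _ := by
            rw [Finset.sum_const, Finset.card_univ, hcardI I hI, nsmul_eq_mul, mul_assoc]
    refine (Finset.sum_le_sum e1).trans ?_
    rw [← Finset.mul_sum]
    exact mul_le_mul_of_nonneg_left (sum_pm_le k g) (by positivity)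
  have hsH : ∑ I ∈ T, ∑ τ : Equiv.Perm (Fin n), ‖H I τ‖ ^ 2 ≤
      ((n - k).factorial : ℝ) ^ 2 * ((k.factorial : ℝ) * fn h) := by
    have e1 : ∀ I ∈ T, ∑ τ : Equiv.Perm (Fin n), ‖H I τ‖ ^ 2 ≤
        ((n - k).factorial : ℝ) ^ 2 * ∑ τ : Equiv.Perm (Fin n), ‖h.coeff (pm τ Iᶜ)‖ ^ 2 := by
      intro I hI
      have e2 : ∀ τ : Equiv.Perm (Fin n), ‖H I τ‖ ^ 2 ≤ ((n - k).factorial : ℝ) *
          ∑ β : Equiv.Perm {i // i ∈ Iᶜ}, ‖h.coeff (pm (τ * ext β) Iᶜ)‖ ^ 2 := by
        intro τ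
        have e3 : ‖H I τ‖ ≤ ∑ β : Equiv.Perm {i // i ∈ Iᶜ}, ‖h.coeff (pm (τ * ext β) Iᶜ)‖ :=
          norm_sum_le _ _
        have e4 := sq_sum_le_card_mul_sum_sq
          (s := (univ : Finset (Equiv.Perm {i // i ∈ Iᶜ})))
          (f := fun β => ‖h.coeff (pm (τ * ext β) Iᶜ)‖)
        rw [Finset.card_univ, hcardJ I hI] at e4
        exact (pow_le_pow_left₀ (norm_nonneg _) e3 2).trans e4
      calc ∑ τ : Equiv.Perm (Fin n), ‖H I τ‖ ^ 2
          ≤ ∑ τ : Equiv.Perm (Fin n), ((n - k).factorial : ℝ) *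
              ∑ β : Equiv.Perm {i // i ∈ Iᶜ}, ‖h.coeff (pm (τ * ext β) Iᶜ)‖ ^ 2 :=
            Finset.sum_le_sum fun τ _ => e2 τ
        _ = ((n - k).factorial : ℝ) * ∑ β : Equiv.Perm {i // i ∈ Iᶜ},
              ∑ τ : Equiv.Perm (Fin n), ‖h.coeff (pm (τ * ext β) Iᶜ)‖ ^ 2 := by
            rw [← Finset.mul_sum, Finset.sum_comm]
        _ = ((n - k).factorial : ℝ) * ∑ β : Equiv.Perm {i // i ∈ Iᶜ},
              ∑ τ : Equiv.Perm (Fin n), ‖h.coeff (pm τ Iᶜ)‖ ^ 2 := by
            congr 1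
            refine Finset.sum_congr rfl fun β _ => ?_
            exact Equiv.sum_comp (Equiv.mulRight (ext β))
              fun τ : Equiv.Perm (Fin n) => ‖h.coeff (pm τ Iᶜ)‖ ^ 2
        _ = _ := by
            rw [Finset.sum_const, Finset.card_univ, hcardJ I hI, nsmul_eq_mul]
            ring
    refine (Finset.sum_le_sum e1).trans ?_
    rw [← Finset.mul_sum]
    refine mul_le_mul_of_nonneg_left ?_ (by positivity)
    have e5 : ∑ I ∈ T, ∑ τ : Equiv.Perm (Fin n), ‖h.coeff (pm τ Iᶜ)‖ ^ 2 =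
        ∑ J ∈ powersetCard (n - k) univ, ∑ τ : Equiv.Perm (Fin n), ‖h.coeff (pm τ J)‖ ^ 2 := by
      refine Finset.sum_nbij' compl compl ?_ ?_ ?_ ?_ ?_
      · intro I hI
        refine Finset.mem_powersetCard.2 ⟨Finset.subset_univ _, ?_⟩
        rw [Finset.card_compl, Fintype.card_fin, hcT I hI]
      · intro J hJ
        refine Finset.mem_powersetCard.2 ⟨Finset.subset_univ _, ?_⟩
        rw [Finset.card_compl, Fintype.card_fin, (Finset.mem_powersetCard.1 hJ).2]
        omega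
      · intro I _
        exact compl_compl I
      · intro J _
        exact compl_compl J
      · intro I _
        rfl
    rw [e5]
    refine (sum_pm_le (n - k) h).trans (le_of_eq ?_)
    rw [Nat.sub_sub_self hk]
  -- Cauchy-Schwarz
  have h4 : ‖∑ I ∈ T, ∑ τ : Equiv.Perm (Fin n), G I τ * H I τ‖ ^ 2 ≤
      (∑ I ∈ T, ∑ τ : Equiv.Perm (Fin n), ‖G I τ‖ ^ 2) *
        ∑ I ∈ T, ∑ τ : Equiv.Perm (Fin n), ‖H I τ‖ ^ 2 := by
    rw [← Finset.sum_product' T univ (fun I τ => G I τ * H I τ),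
      ← Finset.sum_product' T univ (fun I τ => ‖G I τ‖ ^ 2),
      ← Finset.sum_product' T univ (fun I τ => ‖H I τ‖ ^ 2)]
    refine le_trans ?_ (Finset.sum_mul_sq_le_sq_mul_sq (T ×ˢ univ)
      (fun p => ‖G p.1 p.2‖) (fun p => ‖H p.1 p.2‖))
    refine pow_le_pow_left₀ (norm_nonneg _) ?_ 2
    refine (norm_sum_le _ _).trans (le_of_eq ?_)
    exact Finset.sum_congr rfl fun p _ => norm_mul _ _
  rw [← h3, norm_mul, mul_pow] at h4
  have hf1 : (0 : ℝ) < (k.factorial : ℝ) := by exact_mod_cast Nat.factorial_pos k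
  have hf2 : (0 : ℝ) < ((n - k).factorial : ℝ) := by exact_mod_cast Nat.factorial_pos _
  have h5 : ‖((k.factorial : ℂ) * ((n - k).factorial : ℂ))‖ =
      (k.factorial : ℝ) * ((n - k).factorial : ℝ) := by
    rw [norm_mul, Complex.norm_natCast, Complex.norm_natCast]
  rw [h5] at h4
  have hsG0 : 0 ≤ ∑ I ∈ T, ∑ τ : Equiv.Perm (Fin n), ‖G I τ‖ ^ 2 :=
    Finset.sum_nonneg fun I _ => Finset.sum_nonneg fun τ _ => by positivity
  have hsH0 : 0 ≤ ∑ I ∈ T, ∑ τ : Equiv.Perm (Fin n), ‖H I τ‖ ^ 2 :=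
    Finset.sum_nonneg fun I _ => Finset.sum_nonneg fun τ _ => by positivity
  have h6 := h4.trans (mul_le_mul hsG hsH hsH0 (hsG0.trans hsG))
  have h7 : ((k.factorial : ℝ) * ((n - k).factorial : ℝ)) ^ 2 * ‖LL (g * h)‖ ^ 2 ≤
      ((k.factorial : ℝ) * ((n - k).factorial : ℝ)) ^ 2 *
        (D * ((n - k).factorial : ℝ) * (fn g * fn h)) := by
    refine h6.trans (le_of_eq ?_)
    ring
  exact le_of_mul_le_mul_left h7 (by positivity)

end Pool.Agent.SC
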