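import Mathlib
import Pool.Agent.SC.Defs

/-! # Row LEAF: coefficients of linear combinations of minors -/

set_option autoImplicit false

namespace Pool.Agent.SC
namespace Leaf

open MvPolynomial

variable {n k : ℕ}

/-- the exponent of the term `σ` of the determinant -/
noncomputable def mo (p q : Fin k → Fin n) (σ : Equiv.Perm (Fin k)) : Fin n × Fin n →₀ ℕ :=
  ∑ a, Finsupp.single (p (σ a), q a) 1

lemma prod_X (s : Finset (Fin k)) (f : Fin k → Fin n × Fin n) :
    (∏ a ∈ s, (X (f a) : MvPolynomial (Fin n × Fin n) ℂ)) =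
      monomial (∑ a ∈ s, Finsupp.single (f a) 1) 1 := by
  rw [monomial_sum_one]
  rfl

lemma coeff_det (A : Fin n × Fin n → ℂ) (p q : Fin k → Fin n) (d : Fin n × Fin n →₀ ℕ) :
    (Matrix.det (Matrix.of fun a b => algebraMap ℂ (MvPolynomial (Fin n × Fin n) ℂ) (A (p a, q b)) *
      X (p a, q b))).coeff d =
    ∑ σ : Equiv.Perm (Fin k), if mo p q σ = d then
      ((Equiv.Perm.sign σ : ℤ) : ℂ) * ∏ a, A (p (σ a), q a) else 0 := by
  classical
  rw [Matrix.det_apply', coeff_sum]
  refine Finset.sum_congr rfl fun σ _ => ?_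
  have h1 : (∏ a, (Matrix.of fun a b => algebraMap ℂ (MvPolynomial (Fin n × Fin n) ℂ) (A (p a, q b)) *
      X (p a, q b)) (σ a) a) = C (∏ a, A (p (σ a), q a)) * monomial (mo p q σ) 1 := by
    simp only [Matrix.of_apply, algebraMap_eq]
    rw [Finset.prod_mul_distrib, map_prod, prod_X]
    rfl
  have h2 : (((Equiv.Perm.sign σ : ℤˣ) : ℤ) : MvPolynomial (Fin n × Fin n) ℂ) =
      C (((Equiv.Perm.sign σ : ℤˣ) : ℤ) : ℂ) := by
    rw [map_intCast]
  rw [h1, h2, coeff_C_mul, coeff_C_mul, coeff_monomial]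
  split_ifs with h
  · rw [mul_one]
  · rw [mul_zero, mul_zero]

lemma ext_apply {I : Finset (Fin n)} (α : Equiv.Perm {i // i ∈ I}) {i : Fin n} (hi : i ∈ I) :
    ext α i = α ⟨i, hi⟩ := by
  unfold ext
  exact Equiv.Perm.ofSubtype_apply_of_mem α hi

lemma pm_apply (τ : Equiv.Perm (Fin n)) (I : Finset (Fin n)) (i j : Fin n) :
    pm τ I (i, j) = if i ∈ I ∧ j = τ i then 1 else 0 := by
  classical
  unfold pm
  rw [Finsupp.finsetSum_apply]
  simp only [Finsupp.single_apply, Prod.mk.injEq]
  by_cases h : i ∈ I ∧ j = τ i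
  · rw [if_pos h, Finset.sum_eq_single i]
    · rw [if_pos ⟨rfl, h.2.symm⟩]
    · intro b _ hb
      rw [if_neg (fun h => hb h.1)]
    · exact fun hn => absurd h.1 hn
  · rw [if_neg h]
    refine Finset.sum_eq_zero fun b hb => if_neg fun hb' => h ?_
    rw [← hb'.1]
    exact ⟨hb, hb'.2.symm⟩

lemma mo_apply (p q : Fin k → Fin n) (σ : Equiv.Perm (Fin k)) (i j : Fin n) :
    mo p q σ (i, j) = (Finset.univ.filter fun a => p (σ a) = i ∧ q a = j).card := by
  classical
  unfold mo
  rw [Finsupp.finsetSum_apply, Finset.card_filter]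
  refine Finset.sum_congr rfl fun a _ => ?_
  simp only [Finsupp.single_apply, Prod.mk.injEq]

/-- consequences of a match -/
lemma match_imp {I : Finset (Fin n)} {τ : Equiv.Perm (Fin n)} {p q : Fin k → Fin n}
    {σ : Equiv.Perm (Fin k)} (h : mo p q σ = pm τ I) (a : Fin k) :
    p (σ a) ∈ I ∧ q a = τ (p (σ a)) := by
  classical
  have h1 := congrArg (fun f => f (p (σ a), q a)) h
  simp only [mo_apply, pm_apply] at h1
  by_contra hcon
  rw [if_neg hcon, Finset.card_eq_zero] at h1
  have : a ∈ (Finset.univ.filter fun b => p (σ b) = p (σ a) ∧ q b = q a) := by simp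
  rw [h1] at this
  simp at this

lemma match_inj {I : Finset (Fin n)} {τ : Equiv.Perm (Fin n)} {p q : Fin k → Fin n}
    {σ : Equiv.Perm (Fin k)} (h : mo p q σ = pm τ I) : Function.Injective p := by
  classical
  have hs : Function.Injective fun a => p (σ a) := by
    intro a b hab
    simp only at hab
    have ha := match_imp h a
    have hb := match_imp h b
    have h1 := congrArg (fun f => f (p (σ a), q a)) h
    simp only [mo_apply, pm_apply] at h1
    rw [if_pos ha, Finset.card_eq_one] at h1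
    obtain ⟨c, hc⟩ := h1
    have m1 : a ∈ (Finset.univ.filter fun b => p (σ b) = p (σ a) ∧ q b = q a) := by simp
    have m2 : b ∈ (Finset.univ.filter fun b => p (σ b) = p (σ a) ∧ q b = q a) := by
      simp only [Finset.mem_filter, Finset.mem_univ, true_and]
      exact ⟨hab.symm, by rw [hb.2, ha.2, hab]⟩
    rw [hc, Finset.mem_singleton] at m1 m2
    rw [m1, m2]
  intro a b hab
  have := hs (a₁ := σ.symm a) (a₂ := σ.symm b) (by simpa using hab)
  exact σ.symm.injective this

/-- the match in the main case -/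
lemma match_iff {I : Finset (Fin n)} {τ : Equiv.Perm (Fin n)} {p q : Fin k → Fin n}
    (e f : Fin k ≃ {i // i ∈ I}) (he : ∀ a, p a = e a) (hf : ∀ a, q a = τ (f a))
    (α : Equiv.Perm {i // i ∈ I}) (σ : Equiv.Perm (Fin k)) :
    mo p q σ = pm (τ * ext α) I ↔ σ = (f.trans α.symm).trans e.symm := by
  constructor
  · intro h
    ext1 a
    have h1 := (match_imp h a).2
    rw [hf, he, Equiv.Perm.mul_apply, ext_apply α (e (σ a)).2] at h1
    have h2 : f a = α (e (σ a)) := Subtype.ext (τ.injective h1)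
    simp only [Equiv.trans_apply, h2, Equiv.symm_apply_apply]
  · intro h
    unfold mo pm
    have h1 : ∀ a, (Finsupp.single (p (σ a), q a) 1 : Fin n × Fin n →₀ ℕ) =
        Finsupp.single (((σ.trans e) a : Fin n), (τ * ext α) ((σ.trans e) a : Fin n)) 1 := by
      intro a
      have h2 : α (e (σ a)) = f a := by
        rw [h]; simp
      rw [he, hf, Equiv.Perm.mul_apply, ext_apply α ((σ.trans e) a).2]
      simp only [Equiv.trans_apply]
      rw [Subtype.coe_eta, h2]
    rw [Finset.sum_congr rfl fun a _ => h1 a]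
    rw [Equiv.sum_comp (σ.trans e) fun i : {i // i ∈ I} =>
      (Finsupp.single ((i : Fin n), (τ * ext α) (i : Fin n)) 1 : Fin n × Fin n →₀ ℕ)]
    rw [← Finset.sum_coe_sort I]

lemma one_det (A : Fin n × Fin n → ℂ) (I : Finset (Fin n)) (τ : Equiv.Perm (Fin n))
    (hI : I.card = k) (p q : Fin k → Fin n) : ∃ z : ℂ, ∀ α : Equiv.Perm {i // i ∈ I},
    (Matrix.det (Matrix.of fun a b => algebraMap ℂ (MvPolynomial (Fin n × Fin n) ℂ) (A (p a, q b)) *
      X (p a, q b))).coeff (pm (τ * ext α) I) =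
      z * (Equiv.Perm.sign α : ℤ) * ∏ i : {i // i ∈ I}, A (i, τ (α i)) := by
  classical
  by_cases hm : ∃ (α : Equiv.Perm {i // i ∈ I}) (σ : Equiv.Perm (Fin k)),
      mo p q σ = pm (τ * ext α) I
  · obtain ⟨α₀, σ₀, h0⟩ := hm
    have hpinj := match_inj h0
    have hpI : ∀ a, p a ∈ I := by
      intro a
      have := (match_imp h0 (σ₀.symm a)).1
      rwa [Equiv.apply_symm_apply] at this
    have hbij : Function.Bijective (fun a : Fin k => (⟨p a, hpI a⟩ : {i // i ∈ I})) := by
      rw [Fintype.bijective_iff_injective_and_card]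
      refine ⟨fun a b hab => hpinj (congrArg Subtype.val hab), ?_⟩
      rw [Fintype.card_fin, Fintype.card_coe, hI]
    set e : Fin k ≃ {i // i ∈ I} := Equiv.ofBijective _ hbij with hedef
    have he : ∀ a, p a = e a := fun a => rfl
    set f : Fin k ≃ {i // i ∈ I} := (σ₀.trans e).trans α₀ with hfdef
    have hf : ∀ a, q a = τ (f a) := by
      intro a
      rw [(match_imp h0 a).2, Equiv.Perm.mul_apply, he, ext_apply α₀ (e (σ₀ a)).2]
      rfl
    refine ⟨((Equiv.Perm.sign (f.trans e.symm) : ℤˣ) : ℤ), fun α => ?_⟩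
    rw [coeff_det]
    simp only [match_iff e f he hf α]
    rw [Finset.sum_ite_eq' Finset.univ ((f.trans α.symm).trans e.symm), if_pos (Finset.mem_univ _)]
    have hs : Equiv.Perm.sign ((f.trans α.symm).trans e.symm) =
        Equiv.Perm.sign (f.trans e.symm) * Equiv.Perm.sign α := by
      have : (f.trans α.symm).trans e.symm = (e.trans (α.symm.trans e.symm)) * (f.trans e.symm) := by
        ext1 a
        simp [Equiv.Perm.mul_apply]
      rw [this, Equiv.Perm.sign_mul, mul_comm]
      congr 1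
      have h2 := Equiv.Perm.sign_symm_trans_trans (α⁻¹) e.symm
      rw [Equiv.symm_symm] at h2
      have h3 : (e.trans (α⁻¹ : Equiv.Perm _)).trans e.symm = e.trans (α.symm.trans e.symm) := rfl
      rw [← h3, h2, Equiv.Perm.sign_inv]
    rw [hs]
    push_cast
    congr 1
    rw [← Equiv.prod_comp (((f.trans α.symm).trans e.symm).trans e)
      (fun i : {i // i ∈ I} => A (i, τ (α i)))]
    refine Finset.prod_congr rfl fun a _ => ?_
    rw [he, hf]
    simp
  · push Not at hm
    refine ⟨0, fun α => ?_⟩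
    rw [coeff_det, zero_mul, zero_mul]
    exact Finset.sum_eq_zero fun σ _ => if_neg (hm α σ)

end Leaf

open MvPolynomial in
theorem rowLeaf : RowLeaf := by
  classical
  intro n k A c I τ hI
  choose z hz using fun p q : Fin k → Fin n => Leaf.one_det A I τ hI p q
  refine ⟨∑ p, ∑ q, c k p q * z p q, fun α => ?_⟩
  unfold mnr
  rw [coeff_sum, Finset.sum_mul, Finset.sum_mul]
  refine Finset.sum_congr rfl fun p _ => ?_
  rw [coeff_sum, Finset.sum_mul, Finset.sum_mul]
  refine Finset.sum_congr rfl fun q _ => ?_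
  rw [algebraMap_eq, coeff_C_mul, ← algebraMap_eq, hz p q α]
  ring

end Pool.Agent.SC
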