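import Mathlib
import Pool.Agent.SC.Det

/-!
# The Laplace expansion attains the bound
-/

set_option autoImplicit false

namespace Pool.Agent.SC

open MvPolynomial

namespace Sh

variable {n : ℕ}

theorem ext_mem {I : Finset (Fin n)} (α : Equiv.Perm {i // i ∈ I}) {i : Fin n} (hi : i ∈ I) :
    ext α i = α ⟨i, hi⟩ := Equiv.Perm.ofSubtype_apply_of_mem α hi

theorem ext_not_mem {I : Finset (Fin n)} (α : Equiv.Perm {i // i ∈ I}) {i : Fin n} (hi : i ∉ I) :
    ext α i = i := Equiv.Perm.ofSubtype_apply_of_not_mem α hi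

/-- the permutations which map `I` onto `J` -/
theorem sum_filter {R : Type} [AddCommMonoid R] (I J : Finset (Fin n)) (τ₀ : Equiv.Perm (Fin n))
    (h₀ : I.image τ₀ = J) (F : Equiv.Perm (Fin n) → R) :
    ∑ τ ∈ Finset.univ.filter (fun τ : Equiv.Perm (Fin n) => I.image τ = J), F τ =
      ∑ α : Equiv.Perm {i // i ∈ I}, ∑ β : Equiv.Perm {i // i ∈ Iᶜ}, F (τ₀ * (ext α * ext β)) := by
  classical
  have hmem : ∀ (α : Equiv.Perm {i // i ∈ I}) (β : Equiv.Perm {i // i ∈ Iᶜ}) (i : Fin n)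
      (hi : i ∈ I), (ext α * ext β) i = α ⟨i, hi⟩ := by
    intro α β i hi
    rw [Equiv.Perm.mul_apply, ext_not_mem β (by simpa using hi), ext_mem α hi]
  have hnot : ∀ (α : Equiv.Perm {i // i ∈ I}) (β : Equiv.Perm {i // i ∈ Iᶜ}) (i : Fin n)
      (hi : i ∈ Iᶜ), (ext α * ext β) i = β ⟨i, hi⟩ := by
    intro α β i hi
    rw [Equiv.Perm.mul_apply, ext_mem β hi, ext_not_mem α]
    exact Finset.mem_compl.1 (β ⟨i, hi⟩).2
  rw [← Finset.sum_product']
  symm
  refine Finset.sum_nbij (fun p => τ₀ * (ext p.1 * ext p.2)) ?_ ?_ ?_ ?_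
  · rintro ⟨α, β⟩ _
    rw [Finset.mem_filter]
    refine ⟨Finset.mem_univ _, ?_⟩
    rw [← h₀]
    ext j
    simp only [Finset.mem_image]
    constructor
    · rintro ⟨i, hi, rfl⟩
      refine ⟨α ⟨i, hi⟩, (α ⟨i, hi⟩).2, ?_⟩
      rw [Equiv.Perm.mul_apply, hmem α β i hi]
    · rintro ⟨i, hi, rfl⟩
      refine ⟨α.symm ⟨i, hi⟩, (α.symm ⟨i, hi⟩).2, ?_⟩
      rw [Equiv.Perm.mul_apply, hmem α β _ (α.symm ⟨i, hi⟩).2]
      congr 1
      simp
  · rintro ⟨α, β⟩ _ ⟨α', β'⟩ _ h
    have h1 : ext α * ext β = ext α' * ext β' := mul_left_cancel h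
    refine Prod.ext ?_ ?_
    · refine Equiv.ext fun i => Subtype.ext ?_
      have h2 := DFunLike.congr_fun h1 i.1
      rw [hmem α β i.1 i.2, hmem α' β' i.1 i.2] at h2
      exact h2
    · refine Equiv.ext fun i => Subtype.ext ?_
      have h2 := DFunLike.congr_fun h1 i.1
      rw [hnot α β i.1 i.2, hnot α' β' i.1 i.2] at h2
      exact h2
  · intro τ hτ
    rw [Finset.coe_filter] at hτ
    have hτ' : I.image τ = J := hτ.2
    set f : Equiv.Perm (Fin n) := τ₀.symm * τ with hf
    have hfI : ∀ x, f x ∈ I ↔ x ∈ I := by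
      intro x
      have e1 : τ₀ (f x) = τ x := by
        rw [hf]
        exact τ₀.apply_symm_apply (τ x)
      constructor
      · intro h
        have h2 : τ x ∈ J := by
          rw [← h₀, ← e1]
          exact Finset.mem_image_of_mem _ h
        rw [← hτ', Finset.mem_image] at h2
        obtain ⟨y, hy, hyx⟩ := h2
        rw [← τ.injective hyx]
        exact hy
      · intro h
        have h2 : τ₀ (f x) ∈ J := by
          rw [e1, ← hτ']
          exact Finset.mem_image_of_mem _ h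
        rw [← h₀, Finset.mem_image] at h2
        obtain ⟨y, hy, hyx⟩ := h2
        rw [← τ₀.injective hyx]
        exact hy
    have hfI' : ∀ x, f x ∈ Iᶜ ↔ x ∈ Iᶜ := by
      intro x
      rw [Finset.mem_compl, Finset.mem_compl, hfI]
    refine ⟨(f.subtypePerm hfI, f.subtypePerm hfI'), Finset.mem_coe.2 (Finset.mem_univ _), ?_⟩
    show τ₀ * (ext (f.subtypePerm hfI) * ext (f.subtypePerm hfI')) = τ
    have h1 : ext (f.subtypePerm hfI) * ext (f.subtypePerm hfI') = f := by
      refine Equiv.ext fun i => ?_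
      by_cases hi : i ∈ I
      · rw [hmem _ _ i hi]
        rfl
      · rw [hnot _ _ i (Finset.mem_compl.2 hi)]
        rfl
    rw [h1, hf]
    refine Equiv.ext fun i => ?_
    exact τ₀.apply_symm_apply (τ i)
  · intro p _
    rfl

/-- the permanent of the rows `I` after the column permutation `τ₀` -/
noncomputable def PA (I : Finset (Fin n)) (τ₀ : Equiv.Perm (Fin n)) :
    MvPolynomial (Fin n × Fin n) ℂ :=
  ∑ α : Equiv.Perm {i // i ∈ I}, ∏ i ∈ I, X (i, τ₀ (ext α i))

theorem totalDegree_PA (I : Finset (Fin n)) (τ₀ : Equiv.Perm (Fin n)) :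
    (PA I τ₀).totalDegree ≤ I.card := by
  unfold PA
  refine (totalDegree_finsetSum _ _).trans (Finset.sup_le fun α _ => ?_)
  refine (totalDegree_finsetProd _ _).trans ?_
  refine (Finset.sum_le_card_nsmul _ _ 1 fun i _ => ?_).trans (by simp)
  rw [totalDegree_X]

theorem eval_mul_PA (I J : Finset (Fin n)) (τ₀ : Equiv.Perm (Fin n)) (h₀ : I.image τ₀ = J)
    (x : Fin n × Fin n → ℂ) : eval x (PA I τ₀) * eval x (PA Iᶜ τ₀) =
      ∑ τ : Equiv.Perm (Fin n), (if I.image τ = J then 1 else 0) * ∏ i, x (i, τ i) := by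
  classical
  have h1 : ∑ τ : Equiv.Perm (Fin n), (if I.image τ = J then (1 : ℂ) else 0) * ∏ i, x (i, τ i) =
      ∑ τ ∈ Finset.univ.filter (fun τ : Equiv.Perm (Fin n) => I.image τ = J),
        ∏ i, x (i, τ i) := by
    rw [Finset.sum_filter]
    refine Finset.sum_congr rfl fun τ _ => ?_
    split_ifs <;> simp
  rw [h1, sum_filter I J τ₀ h₀]
  unfold PA
  rw [map_sum, map_sum, Finset.sum_mul_sum]
  refine Finset.sum_congr rfl fun α _ => Finset.sum_congr rfl fun β _ => ?_
  rw [map_prod, map_prod, ← Finset.prod_mul_prod_compl I]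
  congr 1
  · refine Finset.prod_congr rfl fun i hi => ?_
    rw [eval_X, Equiv.Perm.mul_apply, Equiv.Perm.mul_apply, ext_not_mem β (by simpa using hi)]
  · refine Finset.prod_congr rfl fun i hi => ?_
    rw [eval_X, Equiv.Perm.mul_apply, Equiv.Perm.mul_apply, ext_not_mem α]
    rw [ext_mem β hi]
    exact Finset.mem_compl.1 (β ⟨i, hi⟩).2

theorem exists_perm (I J : Finset (Fin n)) (h : I.card = J.card) :
    ∃ τ₀ : Equiv.Perm (Fin n), I.image τ₀ = J := by
  classical
  let e : {x // x ∈ I} ≃ {x // x ∈ J} := Finset.equivOfCardEq h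
  refine ⟨e.extendSubtype, ?_⟩
  refine Finset.eq_of_subset_of_card_le ?_ ?_
  · intro j hj
    rw [Finset.mem_image] at hj
    obtain ⟨i, hi, rfl⟩ := hj
    exact e.extendSubtype_mem i hi
  · rw [Finset.card_image_of_injective _ e.extendSubtype.injective, h]

end Sh

open Sh in
/-- The bound is attained by the Laplace expansion. -/
theorem sharp (n m : ℕ) (h1 : 1 ≤ m) (h2 : 2 * m ≤ n) : ∃ C : Circuit n, C.Low (n - m) ∧
    C.s = n.choose m ∧ (∀ x, C.output 1 x = perm x) ∧
    ∀ g, g < C.s → ∀ r : ℝ, gsq (fun x => C.err g fun i => (r : ℂ) * x i) =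
      ((n.choose m : ℝ))⁻¹ * gsq (fun x : Fin n × Fin n → ℂ => perm fun i => (r : ℂ) * x i) := by
  classical
  have _ := h1
  obtain ⟨I, hI⟩ : ∃ I : Finset (Fin n), I.card = m := by
    obtain ⟨I, _, hI⟩ := Finset.exists_subset_card_eq (s := (Finset.univ : Finset (Fin n)))
      (n := m) (by rw [Finset.card_univ, Fintype.card_fin]; omega)
    exact ⟨I, hI⟩
  have hIc : (Iᶜ).card = n - m := by rw [Finset.card_compl, Fintype.card_fin, hI]
  have hcard : (Finset.powersetCard m (Finset.univ : Finset (Fin n))).card = n.choose m := by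
    rw [Finset.card_powersetCard, Finset.card_univ, Fintype.card_fin]
  let e : {J : Finset (Fin n) // J ∈ Finset.powersetCard m Finset.univ} ≃ Fin (n.choose m) :=
    Finset.equivFinOfCardEq hcard
  have hJ : ∀ g : Fin (n.choose m), I.card = (e.symm g).1.card := fun g => by
    rw [hI, (Finset.mem_powersetCard.1 (e.symm g).2).2]
  choose τ₀ hτ₀ using fun g : Fin (n.choose m) => exists_perm I (e.symm g).1 (hJ g)
  let tt : ℕ → Equiv.Perm (Fin n) := fun g => if h : g < n.choose m then τ₀ ⟨g, h⟩ else 1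
  let C : Circuit n := ⟨n.choose m, fun g => .mul ⟨PA I (tt g), 0⟩ ⟨PA Iᶜ (tt g), 0⟩,
    ⟨0, fun _ => 1⟩⟩
  let Q : ℕ → (Fin n × Fin n → ℂ) → ℂ := fun g x => eval x (PA I (tt g)) * eval x (PA Iᶜ (tt g))
  have hval : ∀ (ρ : ℕ → ℂ) (x : Fin n × Fin n → ℂ) (g : ℕ), C.val ρ x g = ρ g * Q g x := by
    intro ρ x g
    rw [Circuit.val]
    show ρ g * ((⟨PA I (tt g), 0⟩ : Aff n).ev x g _ * (⟨PA Iᶜ (tt g), 0⟩ : Aff n).ev x g _) = _
    unfold Aff.ev
    simp only [Pi.zero_apply, map_zero, zero_mul, Finset.sum_const_zero, add_zero]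
    rfl
  have hout : ∀ (ρ : ℕ → ℂ) (x : Fin n × Fin n → ℂ), C.output ρ x =
      ∑ g ∈ Finset.range (n.choose m), ρ g * Q g x := by
    intro ρ x
    show MvPolynomial.aeval x (0 : MvPolynomial (Fin n × Fin n) ℂ) +
      ∑ a : Fin (n.choose m), algebraMap ℂ ℂ 1 * C.val ρ x a = _
    rw [map_zero, zero_add, Finset.sum_range]
    refine Finset.sum_congr rfl fun g _ => ?_
    rw [hval, map_one, one_mul]
  have hQ : ∀ (g : ℕ) (hg : g < n.choose m) (x : Fin n × Fin n → ℂ), Q g x =
      ∑ τ : Equiv.Perm (Fin n), (if I.image τ = (e.symm ⟨g, hg⟩).1 then 1 else 0) *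
        ∏ i, x (i, τ i) := by
    intro g hg x
    have h3 : tt g = τ₀ ⟨g, hg⟩ := dif_pos hg
    show eval x (PA I (tt g)) * eval x (PA Iᶜ (tt g)) = _
    rw [h3]
    exact eval_mul_PA I _ _ (hτ₀ ⟨g, hg⟩) x
  have herr : ∀ (g : ℕ) (hg : g < n.choose m) (x : Fin n × Fin n → ℂ), C.err g x = Q g x := by
    intro g hg x
    unfold Circuit.err
    have h3 : (fun t : ℂ => C.output (Function.update 1 g (1 + t)) x) = fun t =>
        (1 + t) * Q g x + ∑ g' ∈ (Finset.range (n.choose m)).erase g, Q g' x := by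
      funext t
      rw [hout, ← Finset.add_sum_erase _ _ (Finset.mem_range.2 hg), Function.update_self]
      congr 1
      refine Finset.sum_congr rfl fun g' hg' => ?_
      rw [Function.update_of_ne (Finset.ne_of_mem_erase hg'), Pi.one_apply, one_mul]
    rw [h3]
    have h4 : HasDerivAt (fun t : ℂ => (1 + t) * Q g x +
        ∑ g' ∈ (Finset.range (n.choose m)).erase g, Q g' x) (1 * Q g x) 0 :=
      (((hasDerivAt_id (0 : ℂ)).const_add 1).mul_const _).add_const _
    rw [h4.deriv, one_mul]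
  refine ⟨C, ⟨by show (0 : MvPolynomial (Fin n × Fin n) ℂ).totalDegree ≤ n - m; simp, ?_⟩, rfl,
    ?_, ?_⟩
  · intro g l r _ h
    have h' : Step.mul (⟨PA I (tt g), 0⟩ : Aff n) ⟨PA Iᶜ (tt g), 0⟩ = Step.mul l r := h
    injection h' with h3 h4
    subst h3
    subst h4
    refine ⟨(totalDegree_PA _ _).trans ?_, (totalDegree_PA _ _).trans (le_of_eq hIc)⟩
    rw [hI]
    omega
  · intro x
    rw [hout]
    have h3 : perm x = ∑ τ : Equiv.Perm (Fin n), (1 : ℂ) * ∏ i, x (i, τ i) := by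
      rw [← eval_permPoly, permPoly, eval_comb]
    rw [h3, Finset.sum_range]
    have h4 : ∀ g : Fin (n.choose m), (1 : ℕ → ℂ) g * Q g x =
        ∑ τ : Equiv.Perm (Fin n), (if I.image τ = (e.symm g).1 then 1 else 0) *
          ∏ i, x (i, τ i) := by
      intro g
      rw [Pi.one_apply, one_mul, hQ g.1 g.2 x]
    rw [Finset.sum_congr rfl fun g _ => h4 g, Finset.sum_comm]
    refine Finset.sum_congr rfl fun τ _ => ?_
    rw [← Finset.sum_mul]
    congr 1
    have h5 : I.image τ ∈ Finset.powersetCard m Finset.univ := by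
      rw [Finset.mem_powersetCard]
      exact ⟨Finset.subset_univ _, by rw [Finset.card_image_of_injective _ τ.injective, hI]⟩
    rw [Finset.sum_eq_single (e ⟨I.image τ, h5⟩)]
    · rw [Equiv.symm_apply_apply, if_pos rfl]
    · intro g _ hg
      rw [if_neg]
      intro h6
      apply hg
      rw [← e.apply_symm_apply g]
      congr 1
      exact Subtype.ext h6.symm
    · intro h
      exact absurd (Finset.mem_univ _) h
  · intro g hg r
    have hg' : g < n.choose m := hg
    rw [gsq_perm]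
    have h3 : (fun x : Fin n × Fin n → ℂ => C.err g fun i => (r : ℂ) * x i) = fun x =>
        ∑ τ : Equiv.Perm (Fin n), (if I.image τ = (e.symm ⟨g, hg'⟩).1 then 1 else 0) *
          ∏ i, ((r : ℂ) * x (i, τ i)) := by
      funext x
      rw [herr g hg', hQ g hg']
    rw [h3, gsq_comb]
    have h4 : ∑ τ : Equiv.Perm (Fin n),
        ‖(if I.image τ = (e.symm ⟨g, hg'⟩).1 then (1 : ℂ) else 0)‖ ^ 2 =
          (m.factorial : ℝ) * ((n - m).factorial : ℝ) := by
      have h5 : ∀ τ : Equiv.Perm (Fin n),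
          ‖(if I.image τ = (e.symm ⟨g, hg'⟩).1 then (1 : ℂ) else 0)‖ ^ 2 =
            if I.image τ = (e.symm ⟨g, hg'⟩).1 then (1 : ℝ) else 0 := by
        intro τ
        split_ifs <;> simp
      rw [Finset.sum_congr rfl fun τ _ => h5 τ, ← Finset.sum_filter,
        sum_filter I _ _ (hτ₀ ⟨g, hg'⟩)]
      simp only [Finset.sum_const, Finset.card_univ, Fintype.card_perm, Fintype.card_coe, hI, hIc,
        nsmul_eq_mul, mul_one]
    rw [h4]
    have h6 : ((n.choose m : ℕ) : ℝ) * (m.factorial : ℝ) * ((n - m).factorial : ℝ) =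
        (n.factorial : ℝ) := by
      exact_mod_cast Nat.choose_mul_factorial_mul_factorial (show m ≤ n by omega)
    have h7 : ((n.choose m : ℕ) : ℝ) ≠ 0 := by
      exact_mod_cast (Nat.choose_pos (show m ≤ n by omega)).ne'
    rw [← h6]
    field_simp

end Pool.Agent.SC
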