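import Mathlib

/-!
# A lower bound for the permanent of a positive matrix (Gurvits)
-/

set_option autoImplicit false

namespace Pool.Agent.SC

open Finset Polynomial

variable {k : ℕ}

/-- The permanent of the matrix whose first `j` columns are `z` and whose other columns are the
columns of `a`. -/
def hg {R : Type} [CommSemiring R] (a : Fin k → Fin k → R) (j : ℕ) (z : Fin k → R) : R :=
  ∑ σ : Equiv.Perm (Fin k), ∏ l : Fin k, if l.val < j then z (σ l) else a (σ l) l

theorem map_hg {R S : Type} [CommSemiring R] [CommSemiring S] (f : R →+* S)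
    (a : Fin k → Fin k → R) (j : ℕ) (z : Fin k → R) :
    f (hg a j z) = hg (fun i l => f (a i l)) j (fun i => f (z i)) := by
  unfold hg
  rw [map_sum]
  refine Finset.sum_congr rfl fun σ _ => ?_
  rw [map_prod]
  refine Finset.prod_congr rfl fun l _ => ?_
  split_ifs <;> rfl

/-- The polynomial `t ↦ hg a j (z + t v)`. -/
noncomputable def rp (a : Fin k → Fin k → ℂ) (j : ℕ) (z v : Fin k → ℂ) : ℂ[X] :=
  hg (fun i l => C (a i l)) j (fun i => C (v i) * X + C (z i))

theorem eval_rp (a : Fin k → Fin k → ℂ) (j : ℕ) (z v : Fin k → ℂ) (t : ℂ) :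
    (rp a j z v).eval t = hg a j (fun i => v i * t + z i) := by
  unfold rp
  rw [← coe_evalRingHom, map_hg]
  simp

theorem hg_pos (a : Fin k → Fin k → ℝ) (ha : ∀ i l, 0 < a i l) (j : ℕ) (w : Fin k → ℝ)
    (hw : ∀ i, 0 < w i) : 0 < hg a j w := by
  unfold hg
  refine Finset.sum_pos (fun σ _ => Finset.prod_pos fun l _ => ?_) ⟨1, Finset.mem_univ _⟩
  split_ifs
  · exact hw _
  · exact ha _ _

theorem hg_ofReal (a : Fin k → Fin k → ℝ) (j : ℕ) (w : Fin k → ℝ) :
    hg (fun i l => (a i l : ℂ)) j (fun i => (w i : ℂ)) = ((hg a j w : ℝ) : ℂ) :=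
  (map_hg Complex.ofRealHom a j w).symm

theorem hg_conj (a : Fin k → Fin k → ℝ) (j : ℕ) (z : Fin k → ℂ) :
    hg (fun i l => (a i l : ℂ)) j (fun i => (starRingEnd ℂ) (z i)) =
      (starRingEnd ℂ) (hg (fun i l => (a i l : ℂ)) j z) := by
  rw [map_hg]
  simp only [Complex.conj_ofReal]

/-- Exchange of two columns. -/
theorem sum_swap (a : Fin k → Fin k → ℂ) (m m' : Fin k) (hm : m' ≤ m) (z : Fin k → ℂ) :
    ∑ σ : Equiv.Perm (Fin k), (∏ l ∈ univ.erase m',
      if l.val < m.val + 1 then z (σ l) else a (σ l) l) * a (σ m') m = hg a m.val z := by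
  unfold hg
  rw [← Equiv.sum_comp (Equiv.mulRight (Equiv.swap m' m))]
  refine Finset.sum_congr rfl fun σ _ => ?_
  rw [← Finset.mul_prod_erase univ _ (Finset.mem_univ m), if_neg (lt_irrefl _), mul_comm]
  simp only [Equiv.coe_mulRight, Equiv.Perm.mul_apply, Equiv.swap_apply_left]
  congr 1
  refine Finset.prod_nbij' (Equiv.swap m' m) (Equiv.swap m' m) ?_ ?_ ?_ ?_ ?_
  · intro l hl
    rw [Finset.mem_erase] at hl ⊢
    exact ⟨fun h => hl.1 ((Equiv.swap m' m).injective (h.trans
      (Equiv.swap_apply_left m' m).symm)), Finset.mem_univ _⟩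
  · intro l hl
    rw [Finset.mem_erase] at hl ⊢
    exact ⟨fun h => hl.1 ((Equiv.swap m' m).injective (h.trans
      (Equiv.swap_apply_right m' m).symm)), Finset.mem_univ _⟩
  · intro l _
    exact Equiv.swap_apply_self _ _ _
  · intro l _
    exact Equiv.swap_apply_self _ _ _
  · intro l hl
    rw [Finset.mem_erase] at hl
    by_cases h1 : l = m
    · subst h1
      have h2 : m'.val < l.val := by
        rcases lt_or_eq_of_le hm with h | h
        · exact h
        · exact absurd h.symm hl.1
      rw [Equiv.swap_apply_right, if_pos (by omega), if_pos h2]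
    · rw [Equiv.swap_apply_of_ne_of_ne hl.1 h1]
      have h2 : l.val ≠ m.val := fun h => h1 (Fin.ext h)
      by_cases h3 : l.val < m.val
      · rw [if_pos (by omega), if_pos h3]
      · rw [if_neg (by omega), if_neg h3]

theorem deriv_rp (a : Fin k → Fin k → ℂ) (m : Fin k) (z : Fin k → ℂ) :
    (rp a (m.val + 1) z (fun i => a i m)).derivative.eval 0 =
      ((m.val + 1 : ℕ) : ℂ) * hg a m.val z := by
  unfold rp hg
  rw [Polynomial.derivative_sum, Polynomial.eval_finsetSum]
  have e1 : ∀ σ ∈ (univ : Finset (Equiv.Perm (Fin k))),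
      (derivative (∏ l : Fin k, if l.val < m.val + 1 then C (a (σ l) m) * X + C (z (σ l))
        else C (a (σ l) l))).eval 0 =
      ∑ m' : Fin k, if m'.val < m.val + 1 then (∏ l ∈ univ.erase m',
        if l.val < m.val + 1 then z (σ l) else a (σ l) l) * a (σ m') m else 0 := by
    intro σ _
    rw [Polynomial.derivative_prod_finset, Polynomial.eval_finsetSum]
    refine Finset.sum_congr rfl fun m' _ => ?_
    rw [Polynomial.eval_mul, Polynomial.eval_prod]
    have e2 : ∏ l ∈ univ.erase m', Polynomial.eval 0 (if l.val < m.val + 1 then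
        C (a (σ l) m) * X + C (z (σ l)) else C (a (σ l) l)) =
        ∏ l ∈ univ.erase m', if l.val < m.val + 1 then z (σ l) else a (σ l) l := by
      refine Finset.prod_congr rfl fun l _ => ?_
      split_ifs
      · simp
      · simp
    rw [e2]
    by_cases h : m'.val < m.val + 1
    · rw [if_pos h, if_pos h]
      simp
    · rw [if_neg h, if_neg h]
      simp
  rw [Finset.sum_congr rfl e1, Finset.sum_comm]
  have e3 : ∀ m' ∈ (univ : Finset (Fin k)), (∑ σ : Equiv.Perm (Fin k),
      if m'.val < m.val + 1 then (∏ l ∈ univ.erase m',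
        if l.val < m.val + 1 then z (σ l) else a (σ l) l) * a (σ m') m else 0) =
      if m'.val < m.val + 1 then hg a m.val z else 0 := by
    intro m' _
    by_cases h : m'.val < m.val + 1
    · simp only [if_pos h]
      exact sum_swap a m m' (by rw [Fin.le_def]; omega) z
    · simp only [if_neg h, Finset.sum_const_zero]
  rw [Finset.sum_congr rfl e3, ← Finset.sum_filter, Finset.sum_const, nsmul_eq_mul]
  have e4 : (univ.filter fun m' : Fin k => m'.val < m.val + 1).card = m.val + 1 := by
    have e5 : (univ.filter fun m' : Fin k => m'.val < m.val + 1) = Finset.Iic m := by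
      ext l
      simp only [Finset.mem_filter, Finset.mem_univ, true_and, Finset.mem_Iic, Fin.le_def]
      omega
    rw [e5, Fin.card_Iic]
  rw [e4]
  rfl

theorem rp_natDegree_pos (a : Fin k → Fin k → ℝ) (ha : ∀ i l, 0 < a i l) (m : Fin k)
    (z : Fin k → ℂ) :
    0 < (rp (fun i l => (a i l : ℂ)) (m.val + 1) z (fun i => (a i m : ℂ))).natDegree := by
  set S : Finset (Fin k) := univ.filter fun l : Fin k => l.val < m.val + 1 with hS
  have hm : m ∈ S := by
    rw [hS, Finset.mem_filter]
    exact ⟨Finset.mem_univ _, by omega⟩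
  have hcard : 0 < S.card := Finset.card_pos.mpr ⟨m, hm⟩
  have e1 : (rp (fun i l => (a i l : ℂ)) (m.val + 1) z (fun i => (a i m : ℂ))).coeff
      (S.card * 1) = ((∑ σ : Equiv.Perm (Fin k), (∏ l ∈ S, a (σ l) m) *
        ∏ l ∈ univ.filter (fun l : Fin k => ¬ l.val < m.val + 1), a (σ l) l : ℝ) : ℂ) := by
    unfold rp hg
    rw [Polynomial.finsetSum_coeff, Complex.ofReal_sum]
    refine Finset.sum_congr rfl fun σ _ => ?_
    rw [Finset.prod_ite, ← hS]
    have e2 : ∏ l ∈ univ.filter (fun l : Fin k => ¬ l.val < m.val + 1),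
        (C (a (σ l) l : ℂ) : ℂ[X]) =
        C (∏ l ∈ univ.filter (fun l : Fin k => ¬ l.val < m.val + 1), (a (σ l) l : ℂ)) := by
      rw [map_prod]
    rw [e2, Polynomial.coeff_mul_C, Polynomial.coeff_prod_of_natDegree_le]
    · rw [Complex.ofReal_mul, Complex.ofReal_prod, Complex.ofReal_prod]
      congr 1
      refine Finset.prod_congr rfl fun l _ => ?_
      simp
    · intro l _
      exact Polynomial.natDegree_linear_le
  have e3 : (0 : ℝ) < ∑ σ : Equiv.Perm (Fin k), (∏ l ∈ S, a (σ l) m) *
        ∏ l ∈ univ.filter (fun l : Fin k => ¬ l.val < m.val + 1), a (σ l) l := by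
    refine Finset.sum_pos (fun σ _ => mul_pos (Finset.prod_pos fun l _ => ha _ _)
      (Finset.prod_pos fun l _ => ha _ _)) ⟨1, Finset.mem_univ _⟩
  have e4 := Polynomial.le_natDegree_of_ne_zero (p := rp (fun i l => (a i l : ℂ)) (m.val + 1) z
    (fun i => (a i m : ℂ))) (n := S.card * 1) (by
      rw [e1]
      exact_mod_cast e3.ne')
  omega

theorem im_sum_neg (m : Multiset ℂ) (hm : m ≠ 0) (h : ∀ s ∈ m, s.im < 0) :
    ((m.map fun s => 1 / ((0 : ℂ) - s)).sum).im < 0 := by
  induction m using Multiset.induction_on with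
  | empty => exact absurd rfl hm
  | cons s m ih =>
    rw [Multiset.map_cons, Multiset.sum_cons, Complex.add_im]
    have h1 : s.im < 0 := h s (Multiset.mem_cons_self s m)
    have h2 : (1 / ((0 : ℂ) - s)).im < 0 := by
      rw [zero_sub, one_div, Complex.inv_im, Complex.neg_im, neg_neg]
      have h3 : 0 < Complex.normSq (-s) := by
        rw [Complex.normSq_pos]
        intro h4
        have h5 : s = 0 := by simpa using h4
        rw [h5] at h1
        simp at h1
      exact div_neg_of_neg_of_pos h1 h3
    by_cases hm0 : m = 0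
    · subst hm0
      simpa using h2
    · have h3 := ih hm0 (fun t ht => h t (Multiset.mem_cons_of_mem ht))
      linarith

theorem stable (a : Fin k → Fin k → ℝ) (ha : ∀ i l, 0 < a i l) :
    ∀ d j : ℕ, j + d = k → ∀ z : Fin k → ℂ, (∀ i, 0 < (z i).im) →
      hg (fun i l => (a i l : ℂ)) j z ≠ 0 := by
  intro d
  induction d with
  | zero =>
    intro j hj z hz
    have e1 : hg (fun i l => (a i l : ℂ)) j z =
        (Fintype.card (Equiv.Perm (Fin k)) : ℂ) * ∏ i, z i := by
      unfold hg
      have e2 : ∀ σ ∈ (univ : Finset (Equiv.Perm (Fin k))),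
          (∏ l : Fin k, if l.val < j then z (σ l) else (a (σ l) l : ℂ)) = ∏ i, z i := by
        intro σ _
        refine Eq.trans (Finset.prod_congr rfl fun l _ => ?_) (Equiv.prod_comp σ z)
        rw [if_pos (by have := l.isLt; omega)]
      rw [Finset.sum_congr rfl e2, Finset.sum_const, nsmul_eq_mul, Finset.card_univ]
    rw [e1]
    refine mul_ne_zero ?_ (Finset.prod_ne_zero_iff.mpr fun i _ h => ?_)
    · exact_mod_cast Fintype.card_ne_zero
    · have h1 := hz i
      rw [h] at h1
      simp at h1
  | succ d ih =>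
    intro j hj z hz h0
    have hjk : j < k := by omega
    set m : Fin k := ⟨j, hjk⟩ with hm
    set P := rp (fun i l => (a i l : ℂ)) (m.val + 1) z (fun i => (a i m : ℂ)) with hP
    have hP0 : P.eval 0 ≠ 0 := by
      rw [hP, eval_rp]
      simp only [mul_zero, zero_add]
      exact ih (m.val + 1) (by rw [hm]; simp only; omega) z hz
    have hroots : ∀ s ∈ P.roots, s.im < 0 := by
      intro s hs
      have h1 : P.eval s = 0 := (Polynomial.mem_roots'.mp hs).2
      rw [hP, eval_rp] at h1
      by_contra h2
      rw [not_lt] at h2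
      refine ih (m.val + 1) (by rw [hm]; simp only; omega) _ (fun i => ?_) h1
      rw [Complex.add_im, Complex.im_ofReal_mul]
      have := hz i
      have h3 := mul_nonneg (ha i m).le h2
      linarith
    have hne : P.roots ≠ 0 :=
      Polynomial.Splits.roots_ne_zero (IsAlgClosed.splits _)
        (by have := rp_natDegree_pos a ha m z; rw [← hP] at this; omega)
    have h1 := (IsAlgClosed.splits P).eval_derivative_div_eval_of_ne_zero hP0
    have h2 : P.derivative.eval 0 = 0 := by
      rw [hP, deriv_rp (fun i l => (a i l : ℂ)) m z]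
      rw [show m.val = j from rfl, h0, mul_zero]
    rw [h2, zero_div] at h1
    have h3 := im_sum_neg P.roots hne hroots
    rw [← h1] at h3
    simp at h3

/-- The product over negative roots grows at most exponentially. -/
theorem prod_le_exp (t : ℝ) (ht : 0 ≤ t) (m : Multiset ℂ)
    (h : ∀ s ∈ m, ∃ r : ℝ, 0 < r ∧ s = ((-r : ℝ) : ℂ)) :
    ‖(m.map fun s => (t : ℂ) - s).prod‖ ≤ ‖(m.map fun s => (0 : ℂ) - s).prod‖ *
      Real.exp (t * ((m.map fun s => 1 / ((0 : ℂ) - s)).sum).re) := by
  induction m using Multiset.induction_on with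
  | empty => simp
  | cons s m ih =>
    obtain ⟨r, hr, hs⟩ := h s (Multiset.mem_cons_self s m)
    have h1 := ih (fun u hu => h u (Multiset.mem_cons_of_mem hu))
    rw [Multiset.map_cons, Multiset.map_cons, Multiset.map_cons, Multiset.prod_cons,
      Multiset.prod_cons, Multiset.sum_cons, norm_mul, norm_mul, Complex.add_re, mul_add,
      Real.exp_add]
    have e1 : ‖(t : ℂ) - s‖ = t + r := by
      rw [hs, ← Complex.ofReal_sub, Complex.norm_real, Real.norm_eq_abs, abs_of_pos (by linarith)]
      ring
    have e2 : ‖(0 : ℂ) - s‖ = r := by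
      rw [hs, zero_sub, norm_neg, Complex.norm_real, Real.norm_eq_abs, abs_neg, abs_of_pos hr]
    have e3 : (1 / ((0 : ℂ) - s)).re = 1 / r := by
      rw [hs, zero_sub, ← Complex.ofReal_neg, neg_neg, one_div, ← Complex.ofReal_inv,
        Complex.ofReal_re, one_div]
    rw [e1, e2, e3]
    have h2 : t + r ≤ r * Real.exp (t * (1 / r)) := by
      have h3 := Real.add_one_le_exp (t * (1 / r))
      have h4 : r * (t * (1 / r) + 1) = t + r := by
        field_simp
      calc t + r = r * (t * (1 / r) + 1) := h4.symm
        _ ≤ r * Real.exp (t * (1 / r)) := mul_le_mul_of_nonneg_left h3 hr.le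
    calc (t + r) * ‖(Multiset.map (fun s => (t : ℂ) - s) m).prod‖
        ≤ (r * Real.exp (t * (1 / r))) * (‖(Multiset.map (fun s => (0 : ℂ) - s) m).prod‖ *
          Real.exp (t * ((Multiset.map (fun s => 1 / ((0 : ℂ) - s)) m).sum).re)) :=
          mul_le_mul h2 h1 (norm_nonneg _) (by positivity)
      _ = _ := by ring

/-- The growth bound of the directional polynomial. -/
theorem hg_growth (a : Fin k → Fin k → ℝ) (ha : ∀ i l, 0 < a i l) (m : Fin k)
    (w : Fin k → ℝ) (hw : ∀ i, 0 < w i) (t : ℝ) (ht : 0 ≤ t) :
    hg a (m.val + 1) (fun i => a i m * t + w i) ≤ hg a (m.val + 1) w *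
      Real.exp (t * (((m.val + 1 : ℕ) : ℝ) * hg a m.val w / hg a (m.val + 1) w)) := by
  set P := rp (fun i l => (a i l : ℂ)) (m.val + 1) (fun i => (w i : ℂ))
    (fun i => (a i m : ℂ)) with hP
  have hev : ∀ u : ℝ, P.eval (u : ℂ) =
      ((hg a (m.val + 1) (fun i => a i m * u + w i) : ℝ) : ℂ) := by
    intro u
    rw [hP, eval_rp, ← hg_ofReal]
    congr 1
    ext i
    push_cast
    ring
  have hevc : ∀ s : ℂ, P.eval s = hg (fun i l => (a i l : ℂ)) (m.val + 1)
      (fun i => (a i m : ℂ) * s + (w i : ℂ)) := by
    intro s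
    rw [hP, eval_rp]
  have hA : 0 < hg a (m.val + 1) w := hg_pos a ha _ w hw
  have hP0 : P.eval 0 = ((hg a (m.val + 1) w : ℝ) : ℂ) := by
    have := hev 0
    simpa using this
  have hP0' : P.eval 0 ≠ 0 := by
    rw [hP0]
    exact_mod_cast hA.ne'
  have hst := stable a ha (k - (m.val + 1)) (m.val + 1) (by have := m.isLt; omega)
  have hroots : ∀ s ∈ P.roots, ∃ r : ℝ, 0 < r ∧ s = ((-r : ℝ) : ℂ) := by
    intro s hs
    have h1 : P.eval s = 0 := (Polynomial.mem_roots'.mp hs).2
    have h1' := h1
    rw [hevc] at h1
    have him : s.im = 0 := by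
      rcases lt_trichotomy s.im 0 with h2 | h2 | h2
      · exfalso
        have h3 := congrArg (starRingEnd ℂ) h1
        rw [← hg_conj, map_zero] at h3
        refine hst _ (fun i => ?_) h3
        rw [map_add, map_mul, Complex.conj_ofReal, Complex.conj_ofReal, Complex.add_im,
          Complex.im_ofReal_mul, Complex.conj_im, Complex.ofReal_im, add_zero]
        exact mul_pos (ha i m) (by linarith)
      · exact h2
      · exfalso
        refine hst _ (fun i => ?_) h1
        rw [Complex.add_im, Complex.im_ofReal_mul, Complex.ofReal_im, add_zero]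
        exact mul_pos (ha i m) h2
    have hs' : s = ((s.re : ℝ) : ℂ) := by
      apply Complex.ext
      · simp
      · simp [him]
    refine ⟨-s.re, ?_, by rw [neg_neg]; exact hs'⟩
    by_contra h2
    have h3 : 0 ≤ s.re := by linarith
    rw [hs', hev] at h1'
    have h4 : 0 < hg a (m.val + 1) (fun i => a i m * s.re + w i) :=
      hg_pos a ha _ _ (fun i => by have := hw i; have := mul_nonneg (ha i m).le h3; linarith)
    exact h4.ne' (by exact_mod_cast h1')
  have h1 := (IsAlgClosed.splits P).eval_derivative_div_eval_of_ne_zero hP0'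
  have h2 : P.derivative.eval 0 = ((((m.val + 1 : ℕ) : ℝ) * hg a m.val w : ℝ) : ℂ) := by
    rw [hP, deriv_rp (fun i l => (a i l : ℂ)) m, hg_ofReal]
    push_cast
    ring
  rw [h2, hP0, ← Complex.ofReal_div] at h1
  have h3 := prod_le_exp t ht P.roots hroots
  rw [← h1, Complex.ofReal_re] at h3
  have h4 : ∀ u : ℂ, P.eval u = P.leadingCoeff * (P.roots.map fun s => u - s).prod := by
    intro u
    exact (IsAlgClosed.splits P).eval_eq_prod_roots u
  have h5 : ‖P.eval (t : ℂ)‖ ≤ ‖P.eval 0‖ *
      Real.exp (t * (((m.val + 1 : ℕ) : ℝ) * hg a m.val w / hg a (m.val + 1) w)) := by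
    rw [h4 (t : ℂ), h4 0, norm_mul, norm_mul, mul_assoc]
    exact mul_le_mul_of_nonneg_left h3 (norm_nonneg _)
  rw [hev, hP0, Complex.norm_real, Complex.norm_real, Real.norm_eq_abs, Real.norm_eq_abs,
    abs_of_pos hA] at h5
  exact le_trans (le_abs_self _) h5

theorem prod_upd (x : Fin k → ℝ) (m : Fin k) (t : ℝ) :
    ∏ l : Fin k, (if l.val < m.val + 1 then Function.update x m t l else 1) =
      (∏ l : Fin k, if l.val < m.val then x l else 1) * t := by
  rw [← Finset.mul_prod_erase univ _ (Finset.mem_univ m),
    ← Finset.mul_prod_erase univ (fun l : Fin k => if l.val < m.val then x l else 1)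
      (Finset.mem_univ m), if_pos (by omega), if_neg (by omega), Function.update_self, one_mul,
    mul_comm]
  congr 1
  refine Finset.prod_congr rfl fun l hl => ?_
  have h1 : l ≠ m := (Finset.mem_erase.mp hl).1
  have h2 : l.val ≠ m.val := fun h => h1 (Fin.ext h)
  rw [Function.update_of_ne h1]
  by_cases h3 : l.val < m.val
  · rw [if_pos (by omega), if_pos h3]
  · rw [if_neg (by omega), if_neg h3]

theorem sum_upd (b x : Fin k → ℝ) (m : Fin k) (t : ℝ) :
    ∑ l : Fin k, (if l.val < m.val + 1 then b l * Function.update x m t l else 0) =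
      b m * t + ∑ l : Fin k, if l.val < m.val then b l * x l else 0 := by
  rw [← Finset.add_sum_erase univ _ (Finset.mem_univ m),
    ← Finset.add_sum_erase univ (fun l : Fin k => if l.val < m.val then b l * x l else 0)
      (Finset.mem_univ m), if_pos (by omega), if_neg (by omega), Function.update_self, zero_add]
  congr 1
  refine Finset.sum_congr rfl fun l hl => ?_
  have h1 : l ≠ m := (Finset.mem_erase.mp hl).1
  have h2 : l.val ≠ m.val := fun h => h1 (Fin.ext h)
  rw [Function.update_of_ne h1]
  by_cases h3 : l.val < m.val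
  · rw [if_pos (by omega), if_pos h3]
  · rw [if_neg (by omega), if_neg h3]

theorem gurvits_aux (a : Fin k → Fin k → ℝ) (ha : ∀ i j, 0 < a i j) (c : ℝ)
    (hc : ∀ x : Fin k → ℝ, (∀ j, 0 < x j) → c * ∏ j, x j ≤ ∏ i, ∑ j, a i j * x j) :
    ∀ d j : ℕ, j + d = k → ∀ x : Fin k → ℝ, (∀ l, 0 < x l) →
      c * ∏ l : Fin k, (if l.val < j then x l else 1) ≤ Real.exp d *
        (hg a j (fun i => ∑ l : Fin k, if l.val < j then a i l * x l else 0) /
          (j.factorial : ℝ)) := by
  intro d
  induction d with
  | zero =>
    intro j hj x hx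
    have hlt : ∀ l : Fin k, l.val < j := fun l => by have := l.isLt; omega
    have e1 : hg a j (fun i => ∑ l : Fin k, if l.val < j then a i l * x l else 0) =
        (j.factorial : ℝ) * ∏ i, ∑ l, a i l * x l := by
      unfold hg
      have e2 : ∀ σ ∈ (univ : Finset (Equiv.Perm (Fin k))),
          (∏ l : Fin k, if l.val < j then
            (∑ l' : Fin k, if l'.val < j then a (σ l) l' * x l' else 0) else a (σ l) l) =
            ∏ i, ∑ l, a i l * x l := by
        intro σ _
        refine Eq.trans (Finset.prod_congr rfl fun l _ => ?_)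
          (Equiv.prod_comp σ (fun i => ∑ l, a i l * x l))
        rw [if_pos (hlt l)]
        exact Finset.sum_congr rfl fun l' _ => if_pos (hlt l')
      rw [Finset.sum_congr rfl e2, Finset.sum_const, nsmul_eq_mul, Finset.card_univ,
        Fintype.card_perm, Fintype.card_fin]
      congr 3
      omega
    have hf : (0 : ℝ) < (j.factorial : ℝ) := by exact_mod_cast Nat.factorial_pos j
    rw [e1, mul_div_cancel_left₀ _ hf.ne', Nat.cast_zero, Real.exp_zero, one_mul]
    have e3 : ∏ l : Fin k, (if l.val < j then x l else 1) = ∏ l, x l :=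
      Finset.prod_congr rfl fun l _ => if_pos (hlt l)
    rw [e3]
    exact hc x hx
  | succ d ih =>
    intro j hj x hx
    have hjk : j < k := by omega
    set m : Fin k := ⟨j, hjk⟩ with hm
    have hmj : m.val = j := rfl
    set w : Fin k → ℝ := fun i => ∑ l : Fin k, if l.val < j then a i l * x l else 0 with hw
    have hexp : Real.exp ((d + 1 : ℕ) : ℝ) = Real.exp d * Real.exp 1 := by
      rw [← Real.exp_add]
      push_cast
      rfl
    have hfac : ((j + 1).factorial : ℝ) = (j + 1 : ℝ) * (j.factorial : ℝ) := by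
      rw [Nat.factorial_succ]
      push_cast
      ring
    have hf : (0 : ℝ) < (j.factorial : ℝ) := by exact_mod_cast Nat.factorial_pos j
    by_cases hj0 : j = 0
    · have h1 := ih (j + 1) (by omega) x hx
      have e1 : ∏ l : Fin k, (if l.val < j + 1 then x l else 1) = x m := by
        have := prod_upd x m (x m)
        rw [Function.update_eq_self, hmj] at this
        rw [this, hj0]
        simp
      have e2 : hg a (j + 1) (fun i => ∑ l : Fin k, if l.val < j + 1 then a i l * x l else 0) =
          x m * hg a j w := by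
        have e3 : (fun i => ∑ l : Fin k, if l.val < j + 1 then a i l * x l else 0) =
            fun i => a i m * x m := by
          ext i
          have := sum_upd (a i) x m (x m)
          rw [Function.update_eq_self, hmj] at this
          rw [this, hj0]
          simp
        rw [e3]
        unfold hg
        rw [Finset.mul_sum]
        refine Finset.sum_congr rfl fun σ _ => ?_
        rw [← Finset.mul_prod_erase univ _ (Finset.mem_univ m),
          ← Finset.mul_prod_erase univ (fun l : Fin k => if l.val < j then w (σ l) else a (σ l) l)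
            (Finset.mem_univ m), if_pos (by omega), if_neg (by omega)]
        have e4 : ∏ l ∈ univ.erase m, (if l.val < j + 1 then a (σ l) m * x m else a (σ l) l) =
            ∏ l ∈ univ.erase m, (if l.val < j then w (σ l) else a (σ l) l) := by
          refine Finset.prod_congr rfl fun l hl => ?_
          have h5 : l ≠ m := (Finset.mem_erase.mp hl).1
          have h6 : l.val ≠ m.val := fun h => h5 (Fin.ext h)
          rw [if_neg (by omega), if_neg (by omega)]
        rw [e4]
        ring
      rw [e1, e2, hj0] at h1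
      have e5 : ∏ l : Fin k, (if l.val < j then x l else 1) = 1 := by
        rw [hj0]
        simp
      rw [e5, hexp, hj0]
      simp only [zero_add, Nat.factorial_one, Nat.factorial_zero, Nat.cast_one, div_one,
        mul_one] at h1 ⊢
      have hxm := hx m
      have h2 : c ≤ Real.exp d * hg a 0 w := by
        by_contra h3
        rw [not_le] at h3
        have h4 := mul_lt_mul_of_pos_right h3 hxm
        linarith
      have h7 : (0 : ℝ) ≤ Real.exp d * hg a 0 w := by
        refine mul_nonneg (Real.exp_pos _).le ?_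
        unfold hg
        refine Finset.sum_nonneg fun σ _ => Finset.prod_nonneg fun l _ => ?_
        rw [if_neg (by omega)]
        exact (ha _ _).le
      have h8 : (1 : ℝ) ≤ Real.exp 1 := Real.one_le_exp (by norm_num)
      calc c ≤ Real.exp d * hg a 0 w := h2
        _ ≤ (Real.exp d * hg a 0 w) * Real.exp 1 := le_mul_of_one_le_right h7 h8
        _ = Real.exp d * Real.exp 1 * hg a 0 w := by ring
    · have hwpos : ∀ i, 0 < w i := by
        intro i
        rw [hw]
        refine Finset.sum_pos' (fun l _ => ?_) ⟨⟨0, by omega⟩, Finset.mem_univ _, ?_⟩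
        · split_ifs
          · exact (mul_pos (ha i l) (hx l)).le
          · exact le_refl _
        · rw [if_pos (by simp only; omega)]
          exact mul_pos (ha _ _) (hx _)
      have hA : 0 < hg a (j + 1) w := hg_pos a ha _ w hwpos
      have hB : 0 < hg a j w := hg_pos a ha _ w hwpos
      have hj1 : (0 : ℝ) < (j + 1 : ℝ) := by positivity
      set t : ℝ := hg a (j + 1) w / ((j + 1 : ℝ) * hg a j w) with ht
      have htpos : 0 < t := div_pos hA (mul_pos hj1 hB)
      have h1 := ih (j + 1) (by omega) (Function.update x m t) (fun l => by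
        by_cases h : l = m
        · rw [h, Function.update_self]
          exact htpos
        · rw [Function.update_of_ne h]
          exact hx l)
      have e1 := prod_upd x m t
      rw [hmj] at e1
      have e2 : (fun i => ∑ l : Fin k, if l.val < j + 1 then
          a i l * Function.update x m t l else 0) = fun i => a i m * t + w i := by
        ext i
        exact sum_upd (a i) x m t
      rw [e1, e2, hfac] at h1
      have h2 := hg_growth a ha m w hwpos t htpos.le
      rw [hmj] at h2
      have e3 : t * (((j + 1 : ℕ) : ℝ) * hg a j w / hg a (j + 1) w) = 1 := by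
        rw [ht]
        push_cast
        field_simp
      rw [e3] at h2
      have e4 : hg a (j + 1) w = t * ((j + 1 : ℝ) * hg a j w) := by
        rw [ht]
        field_simp
      have h3 : Real.exp d * (hg a (j + 1) (fun i => a i m * t + w i) /
          ((j + 1 : ℝ) * (j.factorial : ℝ))) ≤
          t * (Real.exp d * Real.exp 1 * (hg a j w / (j.factorial : ℝ))) := by
        calc Real.exp d * (hg a (j + 1) (fun i => a i m * t + w i) /
              ((j + 1 : ℝ) * (j.factorial : ℝ)))
            ≤ Real.exp d * ((hg a (j + 1) w * Real.exp 1) /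
              ((j + 1 : ℝ) * (j.factorial : ℝ))) := by
              refine mul_le_mul_of_nonneg_left ?_ (Real.exp_pos _).le
              exact div_le_div_of_nonneg_right h2 (mul_pos hj1 hf).le
          _ = t * (Real.exp d * Real.exp 1 * (hg a j w / (j.factorial : ℝ))) := by
              rw [e4]
              field_simp
      rw [hexp]
      have h4 := le_trans h1 h3
      have h5 : t * (c * ∏ l : Fin k, (if l.val < j then x l else 1)) ≤
          t * (Real.exp d * Real.exp 1 * (hg a j w / (j.factorial : ℝ))) := by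
        calc t * (c * ∏ l : Fin k, (if l.val < j then x l else 1))
            = c * ((∏ l : Fin k, if l.val < j then x l else 1) * t) := by ring
          _ ≤ _ := h4
      exact le_of_mul_le_mul_left h5 htpos

/-- Gurvits: the permanent of a positive matrix is at least `e^(-k)` times its capacity. -/
theorem gurvits (k : ℕ) (a : Matrix (Fin k) (Fin k) ℝ) (ha : ∀ i j, 0 < a i j) (c : ℝ)
    (hc : ∀ x : Fin k → ℝ, (∀ j, 0 < x j) → c * ∏ j, x j ≤ ∏ i, ∑ j, a i j * x j) :
    c ≤ Real.exp k * a.permanent := by
  have h1 := gurvits_aux (fun i j => a i j) ha c hc k 0 (by omega) (fun _ => 1)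
    (fun _ => one_pos)
  have e1 : hg (fun i j => a i j) 0 (fun i => ∑ l : Fin k, if l.val < 0 then a i l * 1 else 0) =
      a.permanent := by
    unfold hg Matrix.permanent
    refine Finset.sum_congr rfl fun σ _ => Finset.prod_congr rfl fun l _ => ?_
    rw [if_neg (by omega)]
  rw [e1] at h1
  simpa using h1

end Pool.Agent.SC
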