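import Mathlib
import Pool.Agent.SC.Defs

/-!
# Hadamard inequality with column weights
-/

set_option autoImplicit false

namespace Pool.Agent.SC

open Matrix in
open scoped ComplexOrder in
/-- rows of norm one -/
theorem hadamard_one {k : ℕ} (M : Matrix (Fin k) (Fin k) ℂ) (hM : ∀ i, ∑ j, ‖M i j‖ ^ 2 = 1) :
    ‖M.det‖ ^ 2 ≤ 1 := by
  have hG : (M * Mᴴ).PosSemidef := Matrix.posSemidef_self_mul_conjTranspose M
  have hH : (M * Mᴴ).IsHermitian := hG.1
  have htr : (M * Mᴴ).trace = (k : ℂ) := by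
    have h1 : ∀ i, (M * Mᴴ) i i = 1 := by
      intro i
      rw [Matrix.mul_apply]
      have h2 : ∀ j, M i j * Mᴴ j i = ((‖M i j‖ ^ 2 : ℝ) : ℂ) := by
        intro j
        rw [Matrix.conjTranspose_apply, Complex.star_def, Complex.mul_conj, Complex.normSq_eq_norm_sq]
      rw [Finset.sum_congr rfl fun j _ => h2 j, ← Complex.ofReal_sum, hM i, Complex.ofReal_one]
    show ∑ i, (M * Mᴴ) i i = (k : ℂ)
    rw [Finset.sum_congr rfl fun i _ => h1 i]
    simp
  have hdet : (M * Mᴴ).det = ((‖M.det‖ ^ 2 : ℝ) : ℂ) := by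
    rw [Matrix.det_mul, Matrix.det_conjTranspose, Complex.star_def, Complex.mul_conj,
      Complex.normSq_eq_norm_sq]
  have h1 := hH.det_eq_prod_eigenvalues
  have h2 := hH.trace_eq_sum_eigenvalues
  rw [hdet] at h1
  rw [htr] at h2
  have h3 : ‖M.det‖ ^ 2 = ∏ i, hH.eigenvalues i := by
    have : ((‖M.det‖ ^ 2 : ℝ) : ℂ) = ((∏ i, hH.eigenvalues i : ℝ) : ℂ) := by
      rw [h1]
      push_cast
      rfl
    exact Complex.ofReal_injective this
  have h4 : (k : ℝ) = ∑ i, hH.eigenvalues i := by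
    have : ((k : ℝ) : ℂ) = ((∑ i, hH.eigenvalues i : ℝ) : ℂ) := by
      push_cast
      exact h2
    exact Complex.ofReal_injective this
  rw [h3]
  calc ∏ i, hH.eigenvalues i ≤ ∏ i, Real.exp (hH.eigenvalues i - 1) := by
        refine Finset.prod_le_prod (fun i _ => hG.eigenvalues_nonneg i) fun i _ => ?_
        have := Real.add_one_le_exp (hH.eigenvalues i - 1)
        linarith
    _ = Real.exp (∑ i, (hH.eigenvalues i - 1)) := (Real.exp_sum _ _).symm
    _ = 1 := by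
        rw [Finset.sum_sub_distrib, ← h4]
        simp

/-- Hadamard inequality -/
theorem hadamard {k : ℕ} (M : Matrix (Fin k) (Fin k) ℂ) :
    ‖M.det‖ ^ 2 ≤ ∏ i, ∑ j, ‖M i j‖ ^ 2 := by
  by_cases h0 : ∃ i, ∑ j, ‖M i j‖ ^ 2 = 0
  · obtain ⟨i, hi⟩ := h0
    have h1 : ∀ j, M i j = 0 := by
      intro j
      have h2 := (Finset.sum_eq_zero_iff_of_nonneg fun j _ => by positivity).1 hi j
        (Finset.mem_univ j)
      exact norm_eq_zero.1 (pow_eq_zero_iff two_ne_zero |>.1 h2)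
    rw [Matrix.det_eq_zero_of_row_eq_zero i h1]
    rw [norm_zero, zero_pow two_ne_zero]
    exact Finset.prod_nonneg fun i _ => Finset.sum_nonneg fun j _ => by positivity
  · push Not at h0
    have hpos : ∀ i, 0 < ∑ j, ‖M i j‖ ^ 2 := fun i =>
      lt_of_le_of_ne (Finset.sum_nonneg fun j _ => by positivity) (h0 i).symm
    set r : Fin k → ℝ := fun i => Real.sqrt (∑ j, ‖M i j‖ ^ 2) with hr
    have hr0 : ∀ i, 0 < r i := fun i => Real.sqrt_pos.2 (hpos i)
    have hrs : ∀ i, r i ^ 2 = ∑ j, ‖M i j‖ ^ 2 := fun i => Real.sq_sqrt (hpos i).le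
    have h1 := hadamard_one (Matrix.of fun i j => (((r i)⁻¹ : ℝ) : ℂ) * M i j) (by
      intro i
      have h2 : ∀ j, ‖(Matrix.of fun i j => (((r i)⁻¹ : ℝ) : ℂ) * M i j) i j‖ ^ 2 =
          (r i ^ 2)⁻¹ * ‖M i j‖ ^ 2 := by
        intro j
        rw [Matrix.of_apply, norm_mul, Complex.norm_real, mul_pow, Real.norm_eq_abs, sq_abs,
          inv_pow]
      rw [Finset.sum_congr rfl fun j _ => h2 j, ← Finset.mul_sum, ← hrs i]
      exact inv_mul_cancel₀ (by have := hr0 i; positivity))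
    rw [Matrix.det_mul_column (fun i => (((r i)⁻¹ : ℝ) : ℂ)) M, norm_mul, mul_pow, norm_prod,
      ← Finset.prod_pow] at h1
    have h3 : ∏ i, ‖(((r i)⁻¹ : ℝ) : ℂ)‖ ^ 2 = (∏ i, ∑ j, ‖M i j‖ ^ 2)⁻¹ := by
      rw [← Finset.prod_inv_distrib]
      refine Finset.prod_congr rfl fun i _ => ?_
      rw [Complex.norm_real, Real.norm_eq_abs, sq_abs, inv_pow, hrs]
    rw [h3] at h1
    have h4 : 0 < ∏ i, ∑ j, ‖M i j‖ ^ 2 := Finset.prod_pos fun i _ => hpos i
    rwa [inv_mul_le_iff₀ h4, mul_one] at h1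

/-- Hadamard inequality with weights of the columns -/
theorem hadamard_weights {k : ℕ} (B : Matrix (Fin k) (Fin k) ℂ) (x : Fin k → ℝ)
    (hx : ∀ j, 0 ≤ x j) : ‖B.det‖ ^ 2 * ∏ j, x j ≤ ∏ i, ∑ j, ‖B i j‖ ^ 2 * x j := by
  have h1 := hadamard (Matrix.of fun i j => ((Real.sqrt (x j) : ℝ) : ℂ) * B i j)
  rw [Matrix.det_mul_row (fun j => ((Real.sqrt (x j) : ℝ) : ℂ)) B, norm_mul, mul_pow, norm_prod,
    ← Finset.prod_pow] at h1
  have h2 : ∏ j, ‖((Real.sqrt (x j) : ℝ) : ℂ)‖ ^ 2 = ∏ j, x j := by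
    refine Finset.prod_congr rfl fun j _ => ?_
    rw [Complex.norm_real, Real.norm_eq_abs, sq_abs, Real.sq_sqrt (hx j)]
  rw [h2] at h1
  have h3 : ∏ i, ∑ j, ‖(Matrix.of fun i j => ((Real.sqrt (x j) : ℝ) : ℂ) * B i j) i j‖ ^ 2 =
      ∏ i, ∑ j, ‖B i j‖ ^ 2 * x j := by
    refine Finset.prod_congr rfl fun i _ => Finset.sum_congr rfl fun j _ => ?_
    rw [Matrix.of_apply, norm_mul, Complex.norm_real, mul_pow, Real.norm_eq_abs, sq_abs,
      Real.sq_sqrt (hx j), mul_comm]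
  rw [h3] at h1
  rw [mul_comm]
  exact h1

end Pool.Agent.SC
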