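import Mathlib
import Pool.Agent.SC.Defs
import Pool.Agent.SC.Hadamard
import Pool.Agent.SC.Gurvits

/-!
# Row VDW: the square of the determinant and the permanent of the squares
-/

set_option autoImplicit false

namespace Pool.Agent.SC

open Filter Topology

theorem rowVdW : RowVdW := by
  intro k B
  have h1 : ∀ ε : ℝ, 0 < ε → ‖B.det‖ ^ 2 ≤
      Real.exp k * Matrix.permanent (Matrix.of fun i j => ‖B i j‖ ^ 2 + ε) := by
    intro ε hε
    refine gurvits k _ (fun i j => ?_) _ fun x hx => ?_
    · simp only [Matrix.of_apply]
      positivity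
    · refine (hadamard_weights B x fun j => (hx j).le).trans ?_
      refine Finset.prod_le_prod (fun i _ => Finset.sum_nonneg fun j _ => ?_) fun i _ =>
        Finset.sum_le_sum fun j _ => ?_
      · have := hx j
        positivity
      · simp only [Matrix.of_apply]
        have := hx j
        nlinarith
  have h2 : Tendsto (fun ε : ℝ =>
      Real.exp k * Matrix.permanent (Matrix.of fun i j => ‖B i j‖ ^ 2 + ε)) (𝓝[>] 0)
      (𝓝 (Real.exp k * Matrix.permanent (Matrix.of fun i j => ‖B i j‖ ^ 2))) := by
    have h3 : Continuous fun ε : ℝ =>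
        Real.exp k * Matrix.permanent (Matrix.of fun i j => ‖B i j‖ ^ 2 + ε) := by
      unfold Matrix.permanent
      simp only [Matrix.of_apply]
      fun_prop
    have h4 := (h3.tendsto 0).mono_left (nhdsWithin_le_nhds (s := Set.Ioi (0 : ℝ)))
    simpa using h4
  refine ge_of_tendsto h2 ?_
  filter_upwards [self_mem_nhdsWithin] with ε hε
  exact h1 ε hε

end Pool.Agent.SC
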